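import Pool.Agent.TH850.UV.DbMs
import Pool.Agent.Y743.CL.Fm
import Pool.Agent.Y743.CL.Pp

/-! # The prime sum: main part and remainder -/

set_option autoImplicit false

namespace Pool.Agent.V7H6.NR

open Complex Filter Topology MeasureTheory Set
open Pool.Agent.TH850.UV
open ArithmeticFunction (vonMangoldt)
open H370.A2 (lamC lamC_norm)
open Pool.Agent.Y743.CL (G pr VS pr_apply Pr mem_Pr)

/-- the real coefficients -/
noncomputable def cf (l h : ℝ) (n : ℕ) : ℝ :=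
  2 * (1 / Real.sqrt (2 * Real.pi)) * (vonMangoldt n * (Real.sqrt n)⁻¹ * ggo l n) *
    ((l / (2 * Real.pi)) * (2 * Real.sin (h * Real.log n / 2) / Real.log n))

lemma cpow_exp {n : ℕ} (hn : 1 ≤ n) (t : ℝ) :
    (n : ℂ) ^ (-(t : ℂ) * I) = cexp (((-(t * Real.log n) : ℝ) : ℂ) * I) := by
  have hn0 : (n : ℂ) ≠ 0 := by exact_mod_cast (by omega : n ≠ 0)
  rw [Complex.cpow_def_of_ne_zero hn0, ← Complex.natCast_log]
  congr 1
  push_cast
  ring

lemma cpow_norm {n : ℕ} (hn : 1 ≤ n) (t : ℝ) : ‖(n : ℂ) ^ (-(t : ℂ) * I)‖ = 1 := by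
  rw [cpow_exp hn, Complex.norm_exp_ofReal_mul_I]

lemma kap_cf (l h : ℝ) (n : ℕ) (hn : 2 ≤ n) (t : ℝ) : kap l h n * (n : ℂ) ^ (-(t : ℂ) * I) =
    (cf l h n : ℂ) * (n : ℂ) ^ (-((t + h / 2 : ℝ) : ℂ) * I) := by
  have hn1 : 1 ≤ n := by omega
  have hlog : 0 < Real.log n := Real.log_pos (by exact_mod_cast (by omega : 1 < n))
  have hlogC : (Real.log n : ℂ) ≠ 0 := by exact_mod_cast hlog.ne'
  rw [cpow_exp hn1, cpow_exp hn1]
  unfold kap cf lamC
  rw [cpow_exp hn1]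
  set x : ℝ := h * Real.log n / 2 with hx
  have e1 : (((-((t + h / 2) * Real.log n) : ℝ) : ℂ) * I) =
      ((-(t * Real.log n) : ℝ) : ℂ) * I + ((-x : ℝ) : ℂ) * I := by
    rw [hx]; push_cast; ring
  have e2 : (((-(h * Real.log n) : ℝ) : ℂ) * I) = ((-x : ℝ) : ℂ) * I + ((-x : ℝ) : ℂ) * I := by
    rw [hx]; push_cast; ring
  have e3 : (Real.sin x : ℂ) = (cexp (-((x : ℂ)) * I) - cexp ((x : ℂ) * I)) * I / 2 := by
    rw [Complex.ofReal_sin]; rfl
  have e4 : cexp ((x : ℂ) * I) * cexp (((-x : ℝ) : ℂ) * I) = 1 := by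
    rw [← Complex.exp_add]
    push_cast
    rw [show (x : ℂ) * I + -(x : ℂ) * I = 0 by ring, Complex.exp_zero]
  rw [e1, e2, Complex.exp_add, Complex.exp_add]
  have hI : (I : ℂ) ≠ 0 := Complex.I_ne_zero
  have hI2 : (I : ℂ) ^ 2 = -1 := Complex.I_sq
  have e6 : cexp (((-x : ℝ) : ℂ) * I) = cexp (-(x : ℂ) * I) := by push_cast; rfl
  rw [e6] at e4 ⊢
  generalize cexp (-(x : ℂ) * I) = E at e3 e4 ⊢
  generalize cexp ((x : ℂ) * I) = F at e3 e4 ⊢
  generalize cexp (((-(t * Real.log n) : ℝ) : ℂ) * I) = D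
  have e5 : (1 - E * E) / (I * (Real.log n : ℂ)) =
      2 * ((E - F) * I / 2) / (Real.log n : ℂ) * E := by
    rw [div_eq_iff (mul_ne_zero hI hlogC)]
    have : 2 * ((E - F) * I / 2) / (Real.log n : ℂ) * E * (I * (Real.log n : ℂ)) =
        (E * E - F * E) * I ^ 2 := by
      field_simp
    rw [this, hI2, e4]
    ring
  rw [e5]
  simp only [Complex.ofReal_mul, Complex.ofReal_div, Complex.ofReal_inv, Complex.ofReal_one,
    Complex.ofReal_ofNat]
  rw [e3]
  ring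

lemma kap_norm (l h : ℝ) (n : ℕ) (hn : 2 ≤ n) : ‖kap l h n‖ ^ 2 = cf l h n ^ 2 := by
  have h1 := congrArg norm (kap_cf l h n hn 0)
  rw [norm_mul, norm_mul, cpow_norm (by omega), cpow_norm (by omega), mul_one, mul_one,
    Complex.norm_real, Real.norm_eq_abs] at h1
  rw [h1, sq_abs]

lemma cf_sq_le {l : ℝ} (hl : 0 < l) (h : ℝ) (n : ℕ) : cf l h n ^ 2 ≤ 1 := by
  rcases Nat.lt_or_ge n 2 with hn | hn
  · have : vonMangoldt n = 0 := by
      interval_cases n <;> simp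
    unfold cf
    rw [this]
    simp
  · rw [← kap_norm l h n hn]
    have := kap_le hl h n hn
    exact pow_le_one₀ (norm_nonneg _) this

/-- bound for the coefficients -/
lemma kap_sq_le {l : ℝ} (hl : 0 < l) (h : ℝ) (n : ℕ) (hn : 2 ≤ n) :
    ‖kap l h n‖ ^ 2 ≤ if IsPrimePow n then 1 / (n : ℝ) else 0 := by
  have hpi := Real.pi_pos
  have hpi3 := Real.pi_gt_three
  have hn0 : (0 : ℝ) < n := by exact_mod_cast (by omega : 0 < n)
  have hlog : 0 < Real.log n := Real.log_pos (by exact_mod_cast (by omega : 1 < n))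
  rw [kap_sq hl h n hn]
  split_ifs with hpp
  · have h1 : vonMangoldt n ^ 2 / (n * Real.log n ^ 2) ≤ 1 / n := by
      rw [div_le_div_iff₀ (by positivity) hn0, one_mul]
      have h3 : vonMangoldt n ^ 2 ≤ Real.log n ^ 2 :=
        pow_le_pow_left₀ ArithmeticFunction.vonMangoldt_nonneg
          ArithmeticFunction.vonMangoldt_le_log 2
      nlinarith
    have h2 : 1 - Real.cos (h * Real.log n) ≤ 2 := by
      linarith [Real.neg_one_le_cos (h * Real.log n)]
    have h2' : 0 ≤ 1 - Real.cos (h * Real.log n) := by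
      linarith [Real.cos_le_one (h * Real.log n)]
    have h3 : (l * ggo l n) ^ 2 ≤ 2 * Real.pi := by
      have h4 := ggo_le hl n
      have h5 := ggo_nonneg l n
      have h6 : l * ggo l n ≤ Real.sqrt (2 * Real.pi) := by
        calc l * ggo l n ≤ l * (Real.sqrt (2 * Real.pi) / l) := mul_le_mul_of_nonneg_left h4 hl.le
          _ = _ := by field_simp
      calc (l * ggo l n) ^ 2 ≤ Real.sqrt (2 * Real.pi) ^ 2 :=
            pow_le_pow_left₀ (by positivity) h6 2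
        _ = _ := Real.sq_sqrt (by positivity)
    calc 1 / Real.pi ^ 3 * (vonMangoldt n ^ 2 / (n * Real.log n ^ 2) *
          (1 - Real.cos (h * Real.log n))) * (l * ggo l n) ^ 2
        ≤ 1 / Real.pi ^ 3 * (1 / n * 2) * (2 * Real.pi) := by
          have a1 : 0 ≤ vonMangoldt n ^ 2 / (n * Real.log n ^ 2) := by positivity
          gcongr
      _ = 4 / Real.pi ^ 2 * (1 / n) := by field_simp; ring
      _ ≤ 1 * (1 / n) := by
          apply mul_le_mul_of_nonneg_right _ (by positivity)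
          rw [div_le_one (by positivity)]
          nlinarith
      _ = _ := one_mul _
  · rw [ArithmeticFunction.vonMangoldt_eq_zero_iff.2 hpp]
    simp

/-- the coefficients of the remainder -/
noncomputable def kr (l h : ℝ) (X n : ℕ) : ℂ := if n.Prime ∧ n ≤ X then 0 else kap l h n

lemma Db_split (l h : ℝ) (X Y : ℕ) (hXY : X ≤ Y) (t : ℝ) :
    Db l h Y t = (G (cf l h) X (t + h / 2)).re +
      (∑ n ∈ Finset.Icc 2 Y, kr l h X n * (n : ℂ) ^ (-(t : ℂ) * I)).re := by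
  have h1 : G (cf l h) X (t + h / 2) = ∑ n ∈ Finset.Icc 2 Y,
      (if n.Prime ∧ n ≤ X then kap l h n else 0) * (n : ℂ) ^ (-(t : ℂ) * I) := by
    unfold G
    rw [Pool.Agent.Y41.SW.DP_extend _ X Y hXY (Pool.Agent.Y743.CL.pr_supp _ _)]
    unfold Pool.Agent.Y41.SW.DP
    rcases Nat.lt_or_ge Y 1 with hY | hY
    · have hY0 : Y = 0 := by omega
      subst hY0
      simp
    · rw [← Finset.add_sum_Ioc_eq_sum_Icc hY]
      have e : Finset.Ioc 1 Y = Finset.Icc 2 Y := by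
        ext n; simp only [Finset.mem_Ioc, Finset.mem_Icc]; omega
      rw [e]
      have e0 : pr (cf l h) X 1 = 0 := by
        rw [pr_apply, if_neg]
        rintro ⟨h1, _⟩
        exact Nat.not_prime_one h1
      rw [e0]
      simp only [Complex.ofReal_zero, zero_mul, zero_add]
      refine Finset.sum_congr rfl fun n hn => ?_
      rw [pr_apply]
      split_ifs with hc
      · rw [← kap_cf l h n (Finset.mem_Icc.1 hn).1 t]
      · simp
  rw [h1, ← Complex.add_re, ← Finset.sum_add_distrib]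
  unfold Db
  congr 1
  refine Finset.sum_congr rfl fun n _ => ?_
  unfold kr
  split_ifs with hc <;> ring

lemma kr_sum : ∃ C : ℝ, 0 ≤ C ∧ ∀ (l h : ℝ), 0 < l → ∀ X Y : ℕ, 3 ≤ X → X ≤ Y →
    ∑ n ∈ Finset.Icc 2 Y, ‖kr l h X n‖ ^ 2 ≤
      Real.log (Real.log Y) - Real.log (Real.log X) + C := by
  classical
  obtain ⟨C1, hC1, h1⟩ := Pool.Agent.Y743.CL.pp_sum
  obtain ⟨C2, hC2, h2⟩ := Pool.Agent.Y743.CL.prime_range
  refine ⟨C1 + C2, by positivity, fun l h hl X Y hX hXY => ?_⟩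
  have h3 : ∀ n ∈ Finset.Icc 2 Y, ‖kr l h X n‖ ^ 2 ≤
      (if IsPrimePow n ∧ ¬ n.Prime then 1 / (n : ℝ) else 0) +
      (if n ∈ Finset.Ioc X Y ∧ n.Prime then 1 / (n : ℝ) else 0) := by
    intro n hn
    rw [Finset.mem_Icc] at hn
    have hinv : 0 ≤ 1 / (n : ℝ) := by positivity
    unfold kr
    by_cases hp : n.Prime
    · by_cases hnX : n ≤ X
      · rw [if_pos ⟨hp, hnX⟩, norm_zero]
        have a1 : (0 : ℝ) ≤ if IsPrimePow n ∧ ¬ n.Prime then 1 / (n : ℝ) else 0 := by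
          split_ifs <;> positivity
        have a2 : (0 : ℝ) ≤ if n ∈ Finset.Ioc X Y ∧ n.Prime then 1 / (n : ℝ) else 0 := by
          split_ifs <;> positivity
        simpa using add_nonneg a1 a2
      · rw [if_neg (by rintro ⟨_, h⟩; exact hnX h), if_neg (by rintro ⟨_, h⟩; exact h hp),
          if_pos ⟨Finset.mem_Ioc.2 ⟨by omega, hn.2⟩, hp⟩, zero_add]
        refine (kap_sq_le hl h n hn.1).trans ?_
        split_ifs <;> linarith
    · rw [if_neg (by rintro ⟨h, _⟩; exact hp h)]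
      have a2 : (0 : ℝ) ≤ if n ∈ Finset.Ioc X Y ∧ n.Prime then 1 / (n : ℝ) else 0 := by
        split_ifs <;> positivity
      refine (kap_sq_le hl h n hn.1).trans ?_
      by_cases hpp : IsPrimePow n
      · rw [if_pos hpp, if_pos ⟨hpp, hp⟩]
        linarith
      · rw [if_neg hpp, if_neg (by rintro ⟨h, _⟩; exact hpp h)]
        linarith
  refine (Finset.sum_le_sum h3).trans ?_
  rw [Finset.sum_add_distrib, ← Finset.sum_filter, ← Finset.sum_filter]
  have h4 : ∑ n ∈ (Finset.Icc 2 Y).filter (fun n => n ∈ Finset.Ioc X Y ∧ n.Prime), 1 / (n : ℝ) ≤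
      ∑ p ∈ (Finset.Ioc X Y).filter Nat.Prime, (1 : ℝ) / p := by
    apply Finset.sum_le_sum_of_subset_of_nonneg
    · intro n hn
      rw [Finset.mem_filter] at hn ⊢
      exact hn.2
    · intro n _ _
      positivity
  have h5 := h1 Y
  have h6 := h2 X Y hX hXY
  linarith

/-- the variance of the main part -/
lemma VS_eq (l h : ℝ) (X Y : ℕ) (hXY : X ≤ Y) :
    VS (cf l h) X = ∑ n ∈ Finset.Icc 2 Y, ‖kap l h n‖ ^ 2 -
      ∑ n ∈ Finset.Icc 2 Y, ‖kr l h X n‖ ^ 2 := by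
  classical
  rw [← Finset.sum_sub_distrib]
  unfold VS
  have h1 : ∀ n ∈ Finset.Icc 2 Y, ‖kap l h n‖ ^ 2 - ‖kr l h X n‖ ^ 2 =
      if n.Prime ∧ n ≤ X then cf l h n ^ 2 else 0 := by
    intro n hn
    unfold kr
    split_ifs with hc
    · rw [norm_zero, ← kap_norm l h n (Finset.mem_Icc.1 hn).1]
      ring
    · ring
  rw [Finset.sum_congr rfl h1, ← Finset.sum_filter]
  refine Finset.sum_congr ?_ fun _ _ => rfl
  ext p
  rw [mem_Pr, Finset.mem_filter, Finset.mem_Icc]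
  constructor
  · rintro ⟨a1, a2⟩
    exact ⟨⟨a1.two_le, a2.trans hXY⟩, a1, a2⟩
  · rintro ⟨_, a1, a2⟩
    exact ⟨a1, a2⟩

end Pool.Agent.V7H6.NR
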