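import Pool.Agent.TH850.UV.V2
import Pool.Agent.TH850.UV.HFo
import Pool.Agent.R321.FB3

/-! # The second moment of the local weights -/

set_option autoImplicit false

open Filter Topology MeasureTheory

namespace Pool.Agent.V7H6.NR

open SP (RHs ZZ mu Mk)
open H370 (zset NN mult Zf mem_Zf good_zeta zcount)

/-- the local weight of the zeros with ordinates in `(T, 2T]` -/
noncomputable def FF (T t : ℝ) : ℝ := ∑ s ∈ Zf riemannZeta T (2 * T),
  (mult riemannZeta s : ℝ) / (1 + ((s.im - t) * Real.log T) ^ 2)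

lemma FF_nonneg (T t : ℝ) : 0 ≤ FF T t :=
  Finset.sum_nonneg fun s _ => div_nonneg (Nat.cast_nonneg _) (by positivity)

lemma FF_cont (T : ℝ) : Continuous (FF T) := by
  unfold FF
  refine continuous_finsetSum _ fun s _ => ?_
  refine Continuous.div continuous_const (by fun_prop) fun t => ?_
  positivity

/-- comparison with `Mk` -/
lemma win_le_Mk {T : ℝ} (hT : 1 ≤ T) (hL : 1 ≤ Real.log T) (t : ℝ) :
    ∑ s ∈ (Zf riemannZeta T (2 * T)).filter (fun s => |s.im - t| ≤ 1 / Real.log T),
      (mult riemannZeta s : ℝ) ≤ 6 * Mk T 1 t := by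
  classical
  have hL0 : 0 < Real.log T := by linarith
  have e : Mk T 1 t = ∑ s ∈ Zf riemannZeta T (2 * T), (mult riemannZeta s : ℝ) *
      Real.exp (-(s.im - t) ^ 2 / 2) / (1 + (Real.log T * (s.im - t) / 1) ^ 2) := by
    unfold Mk ZZ
    rw [H370.finsum_Zf good_zeta hT]
    rfl
  rw [e, Finset.mul_sum]
  refine le_trans ?_ (Finset.sum_le_sum_of_subset_of_nonneg (Finset.filter_subset
    (fun s => |s.im - t| ≤ 1 / Real.log T) _) fun s _ _ => by positivity)
  refine Finset.sum_le_sum fun s hs => ?_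
  have h1 := (Finset.mem_filter.1 hs).2
  have h2 : |Real.log T * (s.im - t)| ≤ 1 := by
    rw [abs_mul, abs_of_pos hL0]
    calc Real.log T * |s.im - t| ≤ Real.log T * (1 / Real.log T) :=
          mul_le_mul_of_nonneg_left h1 hL0.le
      _ = 1 := by field_simp
  have h3 : (Real.log T * (s.im - t) / 1) ^ 2 ≤ 1 := by
    rw [div_one, ← sq_abs]
    exact pow_le_one₀ (abs_nonneg _) h2
  have h4 : (s.im - t) ^ 2 ≤ 1 := by
    rw [← sq_abs]
    apply pow_le_one₀ (abs_nonneg _)
    refine h1.trans ?_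
    rw [div_le_one hL0]
    exact hL
  have h5 : 1 / 2 ≤ Real.exp (-(s.im - t) ^ 2 / 2) := by
    have := Real.add_one_le_exp (-(s.im - t) ^ 2 / 2)
    linarith
  have hm : (0 : ℝ) ≤ mult riemannZeta s := Nat.cast_nonneg _
  rw [mul_div_assoc', le_div_iff₀ (by positivity)]
  have h6 : (mult riemannZeta s : ℝ) * (1 + (Real.log T * (s.im - t) / 1) ^ 2) ≤
      mult riemannZeta s * 2 := mul_le_mul_of_nonneg_left (by linarith) hm
  have h7 : (mult riemannZeta s : ℝ) * (1 / 2) ≤ mult riemannZeta s *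
      Real.exp (-(s.im - t) ^ 2 / 2) := mul_le_mul_of_nonneg_left h5 hm
  linarith

/-- windows contain `O(log T)` zeros -/
lemma win_le_log : ∃ C : ℝ, 0 < C ∧ ∀ T : ℝ, 10 ≤ T → ∀ t : ℝ,
    ∑ s ∈ (Zf riemannZeta T (2 * T)).filter (fun s => |s.im - t| ≤ 1 / Real.log T),
      (mult riemannZeta s : ℝ) ≤ C * Real.log T := by
  classical
  obtain ⟨C, hC, hz⟩ := zcount good_zeta
  refine ⟨2 * C, by positivity, fun T hT t => ?_⟩
  have hL2 : 2 ≤ Real.log T := by
    rw [Real.le_log_iff_exp_le (by linarith)]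
    have h1 := Real.exp_one_lt_d9
    have h2 : Real.exp 2 = Real.exp 1 ^ 2 := by rw [← Real.exp_nat_mul]; norm_num
    rw [h2]
    have h3 : Real.exp 1 ^ 2 ≤ (2.7182818286 : ℝ) ^ 2 := by
      apply pow_le_pow_left₀ (Real.exp_pos _).le h1.le
    norm_num at h3 ⊢
    linarith
  have hL0 : 0 < Real.log T := by linarith
  have h1L : 1 / Real.log T ≤ 1 / 2 := one_div_le_one_div_of_le (by norm_num) hL2
  rcases ((Zf riemannZeta T (2 * T)).filter
    (fun s => |s.im - t| ≤ 1 / Real.log T)).eq_empty_or_nonempty with h0 | ⟨s0, hs0⟩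
  · rw [h0, Finset.sum_empty]
    positivity
  rw [Finset.mem_filter, mem_Zf good_zeta (by linarith)] at hs0
  obtain ⟨⟨a1, a2, a3, a4, a5⟩, a6⟩ := hs0
  have a7 := abs_le.1 (a6.trans h1L)
  have ht3 : 3 ≤ t - 0 := by linarith
  have htT : t ≤ 3 * T := by linarith
  have hsub : (Zf riemannZeta T (2 * T)).filter (fun s => |s.im - t| ≤ 1 / Real.log T) ⊆
      Zf riemannZeta (t - 1) (t + 1) := by
    intro s hs
    rw [Finset.mem_filter, mem_Zf good_zeta (by linarith)] at hs
    rw [mem_Zf good_zeta (by linarith)]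
    have h3 := abs_le.1 (hs.2.trans h1L)
    exact ⟨hs.1.1, hs.1.2.1, by linarith, by linarith, hs.1.2.2.2.2⟩
  have h4 := hz t (by linarith)
  rw [H370.NN_eq good_zeta (by linarith)] at h4
  have h5 : Real.log t ≤ 2 * Real.log T := by
    have h6 : t ≤ T ^ 2 := by nlinarith
    have h7 := Real.log_le_log (by linarith) h6
    rw [Real.log_pow] at h7
    exact_mod_cast h7
  calc ∑ s ∈ (Zf riemannZeta T (2 * T)).filter (fun s => |s.im - t| ≤ 1 / Real.log T),
      (mult riemannZeta s : ℝ) ≤ ∑ s ∈ Zf riemannZeta (t - 1) (t + 1), (mult riemannZeta s : ℝ) :=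
        Finset.sum_le_sum_of_subset_of_nonneg hsub fun s _ _ => Nat.cast_nonneg _
    _ ≤ C * Real.log t := by exact_mod_cast h4
    _ ≤ C * (2 * Real.log T) := mul_le_mul_of_nonneg_left h5 hC.le
    _ = 2 * C * Real.log T := by ring

/-- **the second moment of the local weight** -/
theorem FF_sq (hRH : RHs) : ∃ C T0 : ℝ, 0 < C ∧ 10 ≤ T0 ∧ ∀ T : ℝ, T0 ≤ T →
    Integrable (fun t => FF T t ^ 2) ∧ ∫ t, FF T t ^ 2 ≤ C * T := by
  classical
  obtain ⟨C1, T1, hC1, hT1, hM⟩ := Pool.Agent.R321.FA.Mk_sq hRH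
  obtain ⟨C2, hC2, hW⟩ := win_le_log
  -- the ends of the range
  obtain ⟨T2, hT2⟩ : ∃ T2 : ℝ, ∀ T : ℝ, T2 ≤ T → (C2 * Real.log T) ^ 2 * (2 * Real.log T + 2) ≤ T ∧
      T + Real.log T ≤ 2 * T - Real.log T := by
    have h1 : (fun T : ℝ => (C2 * Real.log T) ^ 2 * (2 * Real.log T + 2)) =o[atTop]
        fun T : ℝ => T := by
      have h2 : (fun T : ℝ => C2 * Real.log T) =o[atTop] fun T : ℝ => T ^ (1 / 3 : ℝ) :=
        (isLittleO_log_rpow_atTop (by norm_num)).const_mul_left C2
      have h3 : (fun T : ℝ => 2 * Real.log T + 2) =o[atTop] fun T : ℝ => T ^ (1 / 3 : ℝ) := by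
        refine Asymptotics.IsLittleO.add
          ((isLittleO_log_rpow_atTop (by norm_num)).const_mul_left 2) ?_
        rw [Asymptotics.isLittleO_const_left]
        right
        exact tendsto_norm_atTop_atTop.comp (tendsto_rpow_atTop (by norm_num))
      refine ((h2.mul h2).mul h3).congr' (Eventually.of_forall fun T => by ring) ?_
      filter_upwards [eventually_gt_atTop 0] with T hT
      rw [← Real.rpow_add hT, ← Real.rpow_add hT]
      norm_num
    have h2 := h1.bound (c := 1) one_pos
    have h3 : (fun T : ℝ => 2 * Real.log T) =o[atTop] fun T : ℝ => T :=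
      Real.isLittleO_log_id_atTop.const_mul_left 2
    have h4 := h3.bound (c := 1) one_pos
    have h5 : ∀ᶠ T : ℝ in atTop, (C2 * Real.log T) ^ 2 * (2 * Real.log T + 2) ≤ T ∧
        T + Real.log T ≤ 2 * T - Real.log T := by
      filter_upwards [h2, h4, eventually_ge_atTop 1] with T hT hT' hT1
      rw [one_mul, Real.norm_of_nonneg (by linarith : (0 : ℝ) ≤ T)] at hT hT'
      exact ⟨(le_abs_self _).trans hT, by have := (le_abs_self _).trans hT'; linarith⟩
    exact h5.exists_forall_of_atTop
  refine ⟨25 * (36 * C1 + 1), max T1 T2, by positivity, hT1.trans (le_max_left _ _),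
    fun T hT => ?_⟩
  have hTT1 : T1 ≤ T := (le_max_left _ _).trans hT
  obtain ⟨g1, g2⟩ := hT2 T ((le_max_right _ _).trans hT)
  have hT10 : 10 ≤ T := hT1.trans hTT1
  have hL1 : 1 ≤ Real.log T := by
    rw [Real.le_log_iff_exp_le (by linarith)]
    have := Real.exp_one_lt_d9
    linarith
  have hL0 : 0 < Real.log T := by linarith
  set L := Real.log T with hL
  set S := Zf riemannZeta T (2 * T) with hS
  set w : ℂ → ℝ := fun s => (mult riemannZeta s : ℝ) with hw
  have hw0 : ∀ s, 0 ≤ w s := fun s => Nat.cast_nonneg _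
  -- the windows
  set g : ℝ → ℝ := fun t => (∑ s ∈ S.filter (fun s => |s.im - t| ≤ 1 / L), w s) ^ 2 with hg
  have h1L : 1 / L ≤ 1 := by rw [div_le_one hL0]; exact hL1
  set A : Set ℝ := Set.Icc (T + L) (2 * T - L) with hA
  set B : Set ℝ := Set.Icc (T - 1) (T + L) ∪ Set.Icc (2 * T - L) (2 * T + 1) with hB
  have hpt : ∀ t, ENNReal.ofReal (g t) ≤
      A.indicator (fun t => ENNReal.ofReal (36 * Mk T 1 t ^ 2)) t +
      B.indicator (fun _ => ENNReal.ofReal ((C2 * L) ^ 2)) t := by
    intro t
    by_cases htA : t ∈ A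
    · rw [Set.indicator_of_mem htA]
      refine le_trans (ENNReal.ofReal_le_ofReal ?_) le_self_add
      have h1 := win_le_Mk (by linarith : 1 ≤ T) hL1 t
      have h2 : 0 ≤ ∑ s ∈ S.filter (fun s => |s.im - t| ≤ 1 / L), w s :=
        Finset.sum_nonneg fun s _ => hw0 s
      calc g t ≤ (6 * Mk T 1 t) ^ 2 := pow_le_pow_left₀ h2 h1 2
        _ = 36 * Mk T 1 t ^ 2 := by ring
    · by_cases htB : t ∈ B
      · rw [Set.indicator_of_mem htB]
        refine le_trans (ENNReal.ofReal_le_ofReal ?_) le_add_self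
        have h1 := hW T hT10 t
        have h2 : 0 ≤ ∑ s ∈ S.filter (fun s => |s.im - t| ≤ 1 / L), w s :=
          Finset.sum_nonneg fun s _ => hw0 s
        exact pow_le_pow_left₀ h2 h1 2
      · have h0 : S.filter (fun s => |s.im - t| ≤ 1 / L) = ∅ := by
          rw [Finset.filter_eq_empty_iff]
          intro s hs habs
          rw [hS, mem_Zf good_zeta (by linarith)] at hs
          obtain ⟨a1, a2, a3, a4, a5⟩ := hs
          have h3 := abs_le.1 (habs.trans h1L)
          rw [hB, Set.mem_union, Set.mem_Icc, Set.mem_Icc] at htB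
          rw [hA, Set.mem_Icc] at htA
          push Not at htA htB
          obtain ⟨b1, b2⟩ := htB
          rcases le_or_gt t (T + L) with h4 | h4
          · have := b1 (by linarith)
            linarith
          · have h5 := htA h4.le
            have := b2 h5.le
            linarith
        have : g t = 0 := by
          simp only [hg]
          rw [h0, Finset.sum_empty]
          norm_num
        rw [this, ENNReal.ofReal_zero]
        exact zero_le
  have hMc : Continuous (fun t => Mk T 1 t) := SP.ExpAux.Mk_cont (by linarith) 1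
  have hlin : ∫⁻ t : ℝ, ENNReal.ofReal (g t) ≤ ENNReal.ofReal ((36 * C1 + 1) * T) := by
    refine (lintegral_mono hpt).trans ?_
    have hmeas : Measurable (A.indicator (fun t => ENNReal.ofReal (36 * Mk T 1 t ^ 2))) := by
      apply Measurable.indicator _ measurableSet_Icc
      apply Measurable.ennreal_ofReal
      exact (continuous_const.mul (hMc.pow 2)).measurable
    rw [lintegral_add_left hmeas, lintegral_indicator measurableSet_Icc,
      lintegral_indicator (measurableSet_Icc.union measurableSet_Icc), setLIntegral_const]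
    have h1 : ∫⁻ t in A, ENNReal.ofReal (36 * Mk T 1 t ^ 2) =
        ENNReal.ofReal (∫ t in A, 36 * Mk T 1 t ^ 2) := by
      rw [ofReal_integral_eq_lintegral_ofReal]
      · exact (continuous_const.mul (hMc.pow 2)).integrableOn_Icc
      · exact Eventually.of_forall fun t => by positivity
    have h2 : ∫ t in A, 36 * Mk T 1 t ^ 2 ≤ 36 * C1 * T := by
      rw [hA, integral_Icc_eq_integral_Ioc, ← intervalIntegral.integral_of_le g2,
        intervalIntegral.integral_const_mul]
      have := hM T hTT1 (T + L) (2 * T - L) g2 le_rfl le_rfl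
      linarith
    have h3 : volume B ≤ ENNReal.ofReal (2 * L + 2) := by
      refine (measure_union_le _ _).trans ?_
      rw [Real.volume_Icc, Real.volume_Icc, ← ENNReal.ofReal_add (by linarith) (by linarith)]
      apply ENNReal.ofReal_le_ofReal
      linarith
    rw [h1]
    calc ENNReal.ofReal (∫ t in A, 36 * Mk T 1 t ^ 2) + ENNReal.ofReal ((C2 * L) ^ 2) * volume B
        ≤ ENNReal.ofReal (36 * C1 * T) + ENNReal.ofReal ((C2 * L) ^ 2) *
          ENNReal.ofReal (2 * L + 2) := by
          gcongr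
      _ = ENNReal.ofReal (36 * C1 * T + (C2 * L) ^ 2 * (2 * L + 2)) := by
          rw [← ENNReal.ofReal_mul (by positivity), ENNReal.ofReal_add (by positivity)
            (by positivity)]
      _ ≤ _ := by
          apply ENNReal.ofReal_le_ofReal
          linarith
  have h := Pool.Agent.TH850.UV.v2 S w hw0 L hL0 ((36 * C1 + 1) * T) (by positivity) hlin
  exact ⟨h.1, h.2.trans (le_of_eq (by ring))⟩

end Pool.Agent.V7H6.NR
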