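import Pool.Agent.V7H6.NR.Sharp
import Pool.Agent.V7H6.NR.Sec
import Pool.Agent.V7H6.NR.Prime
import Pool.Agent.H382R2.Final0

/-! # The number of zeros in a window and the prime sum -/

set_option autoImplicit false

namespace Pool.Agent.V7H6.NR

open Complex Filter Topology MeasureTheory Set
open Pool.Agent.TH850.UV
open SP (RHs)
open SG (NZ)
open H370 (zset NN mult Zf mem_Zf good_zeta zz)

lemma NZ_add {A B : ℝ} (hA : 1 ≤ A) (hAB : A ≤ B) :
    NZ B = NZ A + ∑ s ∈ Zf riemannZeta A B, mult riemannZeta s := by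
  classical
  have hdisj : Disjoint (SG.ZS_finite A).toFinset (Zf riemannZeta A B) := by
    rw [Finset.disjoint_left]
    intro s hs hs'
    rw [Set.Finite.mem_toFinset] at hs
    rw [mem_Zf good_zeta hA] at hs'
    have h1 := hs.2.2.2.2
    have h2 := hs'.2.2.1
    linarith
  have hu : (SG.ZS_finite B).toFinset = (SG.ZS_finite A).toFinset ∪ Zf riemannZeta A B := by
    ext s
    rw [Finset.mem_union, Set.Finite.mem_toFinset, Set.Finite.mem_toFinset, mem_Zf good_zeta hA]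
    constructor
    · rintro ⟨h1, h2, h3, h4, h5⟩
      rcases le_or_gt s.im A with h | h
      · exact Or.inl ⟨h1, h2, h3, h4, h⟩
      · exact Or.inr ⟨h2, h3, h, h5, h1⟩
    · rintro (⟨h1, h2, h3, h4, h5⟩ | ⟨h1, h2, h3, h4, h5⟩)
      · exact ⟨h1, h2, h3, h4, h5.trans hAB⟩
      · exact ⟨h5, h1, h2, by linarith, h4⟩
  rw [SG.NZ_eq, SG.NZ_eq, hu, Finset.sum_union hdisj]
  rfl

/-- the real form of the zero side under RH -/
lemma zero_side (hRH : RHs) (l : ℝ) {U1 U2 : ℝ} (hU : 1 ≤ U1) (t : ℝ) :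
    2 * (HTo l U1 U2 t).re = ∑ s ∈ Zf riemannZeta U1 U2, (mult riemannZeta s : ℝ) *
      (Real.exp (-(s.im - t) ^ 2 / 2) * qk 0 ((s.im - t) * (l / (2 * Real.pi)))) := by
  have h := congrArg Complex.re (fullo l hU t (U2 := U2))
  rw [Complex.ofReal_re, Complex.re_sum] at h
  rw [← h]
  refine Finset.sum_congr rfl fun s hs => ?_
  rw [mem_Zf good_zeta hU] at hs
  have h1 : s.re = 1 / 2 := hRH s hs.1 hs.2.1 hs.2.2.2.2
  have h2 : zz s = (s.im : ℂ) := by
    apply Complex.ext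
    · rw [H370.zz_re, Complex.ofReal_re]
    · rw [H370.zz_im, Complex.ofReal_im, h1]
      ring
  rw [h2]
  have e1 : cexp (-((s.im : ℂ) - t) ^ 2 / 2) = ((Real.exp (-(s.im - t) ^ 2 / 2) : ℝ) : ℂ) := by
    push_cast
    rfl
  have e2 : ((s.im : ℂ) - t) * ((l / (2 * Real.pi) : ℝ) : ℂ) =
      (((s.im - t) * (l / (2 * Real.pi)) : ℝ) : ℂ) + ((0 : ℝ) : ℂ) * I := by
    push_cast
    ring
  have e3 : (mult riemannZeta s : ℂ) = ((mult riemannZeta s : ℝ) : ℂ) := by push_cast; rfl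
  rw [e1, e2, e3, ← Complex.ofReal_mul, Complex.re_ofReal_mul, mul_assoc]
  rfl

/-- the length of the window -/
noncomputable def hw (r : ℕ) (T : ℝ) : ℝ := 2 * Real.pi * r / Real.log T

/-- **the number of zeros in a window and the prime sum** -/
theorem pointwise (hRH : RHs) : ∃ C : ℝ, 0 < C ∧ ∀ r : ℕ, ∃ T0 : ℝ, 10 ≤ T0 ∧ ∀ T : ℝ, T0 ≤ T →
    ∀ t : ℝ, T + Real.log T ≤ t → t ≤ 2 * T - Real.log T - 1 →
      |((NZ (t + hw r T) : ℝ) - NZ t - r) + Db (Real.log T / 16) (hw r T) (XT T) t| ≤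
        C * (FF T t + FF T (t + hw r T)) + 1 := by
  classical
  obtain ⟨C1, hC1, hsharp⟩ := sharp_sum
  obtain ⟨C2, T2, hC2, hT2, hAc⟩ := Ac_est (lam := 16) le_rfl
  have hpi := Real.pi_pos
  have hpi3 := Real.pi_gt_three
  have hpi4 := Real.pi_lt_four
  refine ⟨C1 * (32 * Real.pi) ^ 2, by positivity, fun r => ?_⟩
  have hlog := Real.tendsto_log_atTop
  have hr0 : (0 : ℝ) ≤ r := Nat.cast_nonneg r
  obtain ⟨T3, hT3⟩ : ∃ T3 : ℝ, ∀ T : ℝ, T3 ≤ T → 8 * r + C2 * r + 1 +
      64 * Real.pi ^ 2 * r * (2 + 2 * (r / 16) ^ 2) ≤ Real.log T :=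
    (hlog.eventually_ge_atTop _).exists_forall_of_atTop
  refine ⟨max T2 T3, hT2.trans (le_max_left _ _), fun T hT t ht1 ht2 => ?_⟩
  have hTT2 : T2 ≤ T := (le_max_left _ _).trans hT
  have hL := hT3 T ((le_max_right _ _).trans hT)
  have hT10 : 10 ≤ T := hT2.trans hTT2
  obtain ⟨U1, U2, hU1, hU2, hU3, hU4, hac⟩ := hAc T hTT2
  set L := Real.log T with hLd
  have p1 : 0 ≤ C2 * r := by positivity
  have p2 : 0 ≤ 64 * Real.pi ^ 2 * r * (2 + 2 * ((r : ℝ) / 16) ^ 2) := by positivity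
  have hL1 : 1 ≤ L := by linarith
  have hL0 : 0 < L := by linarith
  set h := hw r T with hh
  have hh' : h = 2 * Real.pi * r / L := rfl
  have hh0 : 0 ≤ h := by rw [hh']; positivity
  have hh1 : h ≤ 1 := by
    rw [hh', div_le_one hL0]
    nlinarith
  set b : ℝ := L / 16 / (2 * Real.pi) with hb
  have hb0 : 0 < b := by positivity
  have hbL : b * (32 * Real.pi) = L := by rw [hb]; field_simp; norm_num
  have hhb : h * b = r / 16 := by rw [hh', hb]; field_simp
  have hsm : h / b * (2 + 2 * (h * b) ^ 2) ≤ 1 := by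
    rw [hhb]
    have e : h / b = 64 * Real.pi ^ 2 * r / L / L := by rw [hh', hb]; field_simp; ring
    rw [e, div_mul_eq_mul_div, div_mul_eq_mul_div, div_div, div_le_one (by positivity)]
    have h1 : 64 * Real.pi ^ 2 * r * (2 + 2 * ((r : ℝ) / 16) ^ 2) ≤ L := by linarith
    nlinarith
  have hU1' : 1 ≤ U1 := by linarith
  -- the integrated formula
  have hc1 : Continuous fun τ => 2 * (HTo (L / 16) U1 U2 τ).re := HTo_re_cont (L / 16) hU1'
  have hc2 : Continuous fun τ => (DDo H370.A2.lamC (L / 16) (XT T) τ).re :=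
    Complex.continuous_re.comp (DDo_cont _ _ _)
  have e1 : |(∫ τ in t..(t + h), b * (2 * (HTo (L / 16) U1 U2 τ).re)) -
      (r - Db (L / 16) h (XT T) t)| ≤ 1 := by
    have e2 : (r : ℝ) - Db (L / 16) h (XT T) t = ∫ τ in t..(t + h), (b * 16 -
        b * (2 * (1 / Real.sqrt (2 * Real.pi)) * (DDo H370.A2.lamC (L / 16) (XT T) τ).re)) := by
      rw [intervalIntegral.integral_sub (by apply Continuous.intervalIntegrable; fun_prop)
        (by apply Continuous.intervalIntegrable; fun_prop), Db_eq]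
      rw [intervalIntegral.integral_const, smul_eq_mul]
      have e3 : (t + h - t) * (b * 16) = r := by
        have : (t + h - t) * (b * 16) = (h * b) * 16 := by ring
        rw [this, hhb]
        ring
      rw [e3]
    rw [e2, ← intervalIntegral.integral_sub (by apply Continuous.intervalIntegrable; fun_prop)
      (by apply Continuous.intervalIntegrable; fun_prop)]
    have hpt : ∀ τ ∈ Set.uIoc t (t + h), ‖b * (2 * (HTo (L / 16) U1 U2 τ).re) - (b * 16 -
        b * (2 * (1 / Real.sqrt (2 * Real.pi)) * (DDo H370.A2.lamC (L / 16) (XT T) τ).re))‖ ≤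
        b * (C2 / L) := by
      intro τ hτ
      rw [Set.uIoc_of_le (by linarith)] at hτ
      have h1 := hac τ (by linarith [hτ.1]) (by linarith [hτ.2])
      rw [Real.norm_eq_abs]
      have e : b * (2 * (HTo (L / 16) U1 U2 τ).re) - (b * 16 -
        b * (2 * (1 / Real.sqrt (2 * Real.pi)) * (DDo H370.A2.lamC (L / 16) (XT T) τ).re)) =
        b * (2 * (HTo (L / 16) U1 U2 τ).re - (16 - 2 * (1 / Real.sqrt (2 * Real.pi)) *
          (DDo H370.A2.lamC (L / 16) (XT T) τ).re)) := by ring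
      rw [e, abs_mul, abs_of_pos hb0]
      exact mul_le_mul_of_nonneg_left h1 hb0.le
    have h7 := intervalIntegral.norm_integral_le_of_norm_le_const hpt
    rw [Real.norm_eq_abs, show t + h - t = h by ring, abs_of_nonneg hh0] at h7
    refine h7.trans ?_
    have e : b * (C2 / L) * h = (h * b) * C2 / L := by ring
    rw [e, hhb, div_le_one hL0]
    nlinarith
  -- the sharp count
  have e4 := hsharp (Zf riemannZeta U1 U2) (fun s => (mult riemannZeta s : ℝ))
    (fun s => Nat.cast_nonneg _) b hb0 t h hh0 hsm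
  have e5 : ∫ τ in t..(t + h), b * ∑ s ∈ Zf riemannZeta U1 U2, (mult riemannZeta s : ℝ) *
      (Real.exp (-(s.im - τ) ^ 2 / 2) * qk 0 ((s.im - τ) * b)) =
      ∫ τ in t..(t + h), b * (2 * (HTo (L / 16) U1 U2 τ).re) := by
    refine intervalIntegral.integral_congr fun τ _ => ?_
    show b * ∑ s ∈ Zf riemannZeta U1 U2, (mult riemannZeta s : ℝ) *
      (Real.exp (-(s.im - τ) ^ 2 / 2) * qk 0 ((s.im - τ) * b)) =
      b * (2 * (HTo (L / 16) U1 U2 τ).re)
    rw [zero_side hRH (L / 16) hU1' τ]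
  rw [e5] at e4
  have e6 : ∑ s ∈ Zf riemannZeta U1 U2 with t < s.im ∧ s.im ≤ t + h, (mult riemannZeta s : ℝ) =
      (NZ (t + h) : ℝ) - NZ t := by
    have h1 := NZ_add (A := t) (B := t + h) (by linarith) (by linarith)
    have h2 : (Zf riemannZeta U1 U2).filter (fun s => t < s.im ∧ s.im ≤ t + h) =
        Zf riemannZeta t (t + h) := by
      ext s
      rw [Finset.mem_filter, mem_Zf good_zeta hU1', mem_Zf good_zeta (by linarith)]
      constructor
      · rintro ⟨⟨a1, a2, a3, a4, a5⟩, a6, a7⟩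
        exact ⟨a1, a2, a6, a7, a5⟩
      · rintro ⟨a1, a2, a3, a4, a5⟩
        exact ⟨⟨a1, a2, by linarith, by linarith, a5⟩, a3, a4⟩
    rw [h2, h1]
    push_cast
    ring
  rw [e6] at e4
  -- the weights
  have e7 : ∀ u : ℝ, ∑ s ∈ Zf riemannZeta U1 U2, (mult riemannZeta s : ℝ) /
      (1 + ((s.im - u) * b) ^ 2) ≤ (32 * Real.pi) ^ 2 * FF T u := by
    intro u
    have hsub : Zf riemannZeta U1 U2 ⊆ Zf riemannZeta T (2 * T) := by
      intro s hs
      rw [mem_Zf good_zeta hU1'] at hs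
      rw [mem_Zf good_zeta (by linarith)]
      exact ⟨hs.1, hs.2.1, by linarith [hs.2.2.1], by linarith [hs.2.2.2.1], hs.2.2.2.2⟩
    unfold FF
    rw [Finset.mul_sum]
    refine (Finset.sum_le_sum_of_subset_of_nonneg hsub fun s _ _ => by positivity).trans ?_
    refine Finset.sum_le_sum fun s _ => ?_
    have hm : (0 : ℝ) ≤ mult riemannZeta s := Nat.cast_nonneg _
    have q1 : 0 < 1 + ((s.im - u) * b) ^ 2 := by positivity
    have q2 : 0 < 1 + ((s.im - u) * L) ^ 2 := by positivity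
    have h1 : 1 + ((s.im - u) * L) ^ 2 ≤ (32 * Real.pi) ^ 2 * (1 + ((s.im - u) * b) ^ 2) := by
      have h2 : (s.im - u) * L = (s.im - u) * b * (32 * Real.pi) := by rw [← hbL]; ring
      rw [h2, mul_pow]
      have h3 : 1 ≤ (32 * Real.pi) ^ 2 := by nlinarith
      nlinarith [sq_nonneg ((s.im - u) * b)]
    calc (mult riemannZeta s : ℝ) / (1 + ((s.im - u) * b) ^ 2) ≤
        ((32 * Real.pi) ^ 2 * (mult riemannZeta s : ℝ)) / (1 + ((s.im - u) * L) ^ 2) := by
          rw [div_le_div_iff₀ q1 q2]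
          calc (mult riemannZeta s : ℝ) * (1 + ((s.im - u) * L) ^ 2) ≤
              (mult riemannZeta s : ℝ) * ((32 * Real.pi) ^ 2 * (1 + ((s.im - u) * b) ^ 2)) :=
                mul_le_mul_of_nonneg_left h1 hm
            _ = _ := by ring
      _ = (32 * Real.pi) ^ 2 * ((mult riemannZeta s : ℝ) / (1 + ((s.im - u) * L) ^ 2)) := by
          rw [mul_div_assoc]
  have e8 := e7 t
  have e9 := e7 (t + h)
  have e10 : C1 * ((∑ s ∈ Zf riemannZeta U1 U2, (mult riemannZeta s : ℝ) /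
      (1 + ((s.im - t) * b) ^ 2)) + ∑ s ∈ Zf riemannZeta U1 U2, (mult riemannZeta s : ℝ) /
      (1 + ((s.im - (t + h)) * b) ^ 2)) ≤ C1 * (32 * Real.pi) ^ 2 * (FF T t + FF T (t + h)) := by
    calc _ ≤ C1 * ((32 * Real.pi) ^ 2 * FF T t + (32 * Real.pi) ^ 2 * FF T (t + h)) :=
          mul_le_mul_of_nonneg_left (add_le_add e8 e9) hC1.le
      _ = _ := by ring
  have e11 := e4.trans e10
  rw [abs_le] at e1 e11 ⊢
  constructor <;> linarith [e1.1, e1.2, e11.1, e11.2]

end Pool.Agent.V7H6.NR
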