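import Pool.Agent.V7H6.NR.Prime
import Pool.Agent.V7H6.NR.Pw
import Pool.Agent.Y743.CL.Ga

/-! # Anticoncentration of the main part of the prime sum -/

set_option autoImplicit false

namespace Pool.Agent.V7H6.NR

open Complex Filter Topology MeasureTheory Set
open Pool.Agent.TH850.UV
open Pool.Agent.Y743.CL (G VS clt_poly gs gs_le)

/-- the exponent of the cut -/
noncomputable def mur (r : ℕ) : ℝ := 8 + Real.log r

/-- the cut -/
noncomputable def Xr (r : ℕ) (T : ℝ) : ℕ := ⌊T ^ (1 / mur r)⌋₊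

/-- the coefficients -/
noncomputable def cr (r : ℕ) (T : ℝ) : ℕ → ℝ := cf (Real.log T / 16) (hw r T)

/-- the main part -/
noncomputable def Gm (r : ℕ) (T t : ℝ) : ℂ := G (cr r T) (Xr r T) t

lemma mur_ge {r : ℕ} (hr : 1 ≤ r) : 8 ≤ mur r := by
  unfold mur
  have : 0 ≤ Real.log r := Real.log_natCast_nonneg r
  linarith

/-- sizes of the main part and of the remainder -/
lemma sizes : ∃ C : ℝ, 0 ≤ C ∧ ∀ r : ℕ, 16 ≤ r → ∃ T0 : ℝ, 10 ≤ T0 ∧ ∀ T : ℝ, T0 ≤ T →
    3 ≤ Xr r T ∧ Xr r T ≤ XT T ∧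
    ∑ n ∈ Finset.Icc 2 (XT T), ‖kr (Real.log T / 16) (hw r T) (Xr r T) n‖ ^ 2 ≤
      Real.log (mur r) + C ∧
    2 / Real.pi ^ 2 * Real.log r - Real.log (mur r) - C ≤ VS (cr r T) (Xr r T) := by
  obtain ⟨C1, hC1, h1⟩ := kr_sum
  obtain ⟨C2, T2, hC2, hT2, h2⟩ := kap_sum (lam := 16) le_rfl 1 le_rfl
  refine ⟨C1 + C2, by positivity, fun r hr => ?_⟩
  have hr1 : 1 ≤ r := by omega
  have hrR : (16 : ℝ) ≤ r := by exact_mod_cast hr
  have hmu := mur_ge hr1
  have hmu0 : 0 < mur r := by linarith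
  have hlog := Real.tendsto_log_atTop
  obtain ⟨T3, hT3⟩ : ∃ T3 : ℝ, ∀ T : ℝ, T3 ≤ T → 4 * mur r + r * Real.log r ≤ Real.log T :=
    (hlog.eventually_ge_atTop _).exists_forall_of_atTop
  refine ⟨max T2 T3, hT2.trans (le_max_left _ _), fun T hT => ?_⟩
  have hTT2 : T2 ≤ T := (le_max_left _ _).trans hT
  have hL := hT3 T ((le_max_right _ _).trans hT)
  have hT10 : 10 ≤ T := hT2.trans hTT2
  have hT0 : 0 < T := by linarith
  have hrl : 0 ≤ r * Real.log r := mul_nonneg (by linarith) (Real.log_nonneg (by linarith))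
  set L := Real.log T with hLd
  have hL4 : 4 * mur r ≤ L := by linarith
  have hL0 : 0 < L := by linarith
  -- `T ^ (1 / μ)`
  set Z : ℝ := T ^ (1 / mur r) with hZ
  have hZ0 : 0 < Z := Real.rpow_pos_of_pos hT0 _
  have hlogZ : Real.log Z = L / mur r := by
    rw [hZ, Real.log_rpow hT0, ← hLd]; ring
  have hlogZ4 : 4 ≤ Real.log Z := by
    rw [hlogZ, le_div_iff₀ hmu0]; exact hL4
  have hZ5 : 5 ≤ Z := by
    have := Real.log_le_sub_one_of_pos hZ0
    linarith
  have hXle : (Xr r T : ℝ) ≤ Z := Nat.floor_le hZ0.le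
  have hXge : Z - 1 < Xr r T := by
    have := Nat.lt_floor_add_one Z
    have e : ((⌊Z⌋₊ : ℕ) : ℝ) = Xr r T := rfl
    rw [e] at this
    linarith
  have hX3 : 3 ≤ Xr r T := by
    have : (3 : ℝ) ≤ Xr r T := by linarith
    exact_mod_cast this
  have hXXT : Xr r T ≤ XT T := by
    apply Nat.floor_le_floor
    apply Real.rpow_le_rpow_of_exponent_le (by linarith)
    exact one_div_le_one_div_of_le (by norm_num) hmu
  have hl0 : 0 < L / 16 := by positivity
  have h3 := h1 (L / 16) (hw r T) hl0 (Xr r T) (XT T) hX3 hXXT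
  -- the double logarithms
  have hXR : (3 : ℝ) ≤ Xr r T := by exact_mod_cast hX3
  have hXTR : (3 : ℝ) ≤ XT T := by exact_mod_cast hX3.trans hXXT
  have h4 : Real.log (Real.log (XT T)) ≤ Real.log (L / 8) := by
    apply Real.log_le_log (Real.log_pos (by linarith))
    have h5 : (XT T : ℝ) ≤ T ^ (1 / 8 : ℝ) := Nat.floor_le (by positivity)
    have h6 := Real.log_le_log (by linarith) h5
    rw [Real.log_rpow hT0, ← hLd] at h6
    linarith
  have h5 : Real.log (L / (2 * mur r)) ≤ Real.log (Real.log (Xr r T)) := by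
    apply Real.log_le_log (by positivity)
    have h6 : Z / 2 ≤ Xr r T := by linarith
    have h7 := Real.log_le_log (by positivity) h6
    rw [Real.log_div hZ0.ne' (by norm_num)] at h7
    have h8 : Real.log 2 ≤ 1 := by
      have := Real.log_two_lt_d9
      linarith
    have h9 : L / (2 * mur r) = Real.log Z / 2 := by rw [hlogZ]; field_simp
    rw [h9]
    linarith
  have h6 : Real.log (L / 8) - Real.log (L / (2 * mur r)) ≤ Real.log (mur r) := by
    rw [← Real.log_div (by positivity) (by positivity)]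
    apply Real.log_le_log (by positivity)
    have : L / 8 / (L / (2 * mur r)) = mur r / 4 := by field_simp; norm_num
    rw [this]
    linarith
  have h7 : ∑ n ∈ Finset.Icc 2 (XT T), ‖kr (L / 16) (hw r T) (Xr r T) n‖ ^ 2 ≤
      Real.log (mur r) + C1 := by linarith
  have h8 := h2 T hTT2 r hrR (by rw [one_mul]; linarith)
  have h9 := VS_eq (L / 16) (hw r T) (Xr r T) (XT T) hXXT
  have h10 : VS (cr r T) (Xr r T) = VS (cf (L / 16) (hw r T)) (Xr r T) := rfl
  have h11 : 2 * Real.pi * (r : ℝ) / L = hw r T := rfl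
  rw [h11] at h8
  have h12 := (abs_le.1 h8).1
  refine ⟨hX3, hXXT, by linarith, ?_⟩
  rw [h10, h9]
  linarith

/-- the logarithm is small -/
lemma log_small (a b c : ℝ) (ha : 0 < a) : ∀ᶠ r : ℕ in atTop,
    b * (1 + Real.log (mur r)) + c ≤ a * Real.log r := by
  have h1 : (fun x : ℝ => b * (1 + Real.log (8 + x)) + c) =o[atTop] fun x : ℝ => x := by
    refine Asymptotics.IsLittleO.add (Asymptotics.IsLittleO.const_mul_left
      (Asymptotics.IsLittleO.add ?_ ?_) b) (Asymptotics.isLittleO_const_id_atTop c)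
    · exact Asymptotics.isLittleO_const_id_atTop 1
    · have h2 : (fun x : ℝ => Real.log (8 + x)) =o[atTop] fun x : ℝ => 8 + x :=
        Real.isLittleO_log_id_atTop.comp_tendsto (tendsto_atTop_add_const_left _ _ tendsto_id)
      refine h2.trans_isBigO ?_
      refine Asymptotics.IsBigO.add ?_ (Asymptotics.isBigO_refl _ _)
      exact (Asymptotics.isLittleO_const_id_atTop 8).isBigO
  have h2 := h1.bound ha
  have h3 : Tendsto (fun r : ℕ => Real.log r) atTop atTop :=
    Real.tendsto_log_atTop.comp tendsto_natCast_atTop_atTop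
  filter_upwards [h3.eventually h2, h3.eventually_ge_atTop 0] with r hr hr0
  rw [Real.norm_of_nonneg hr0] at hr
  exact (le_abs_self _).trans hr

/-- **anticoncentration of the main part of the prime sum** -/
theorem anti_G (M θ : ℝ) (hM : 0 < M) (hθ : 0 < θ) : ∃ R0 : ℕ, ∀ r : ℕ, R0 ≤ r →
    ∃ T0 : ℝ, ∀ T : ℝ, T0 ≤ T →
      volume.real {t ∈ Set.Ioc T (2 * T) |
        |(Gm r T t).re| < M * Real.sqrt (1 + Real.log (mur r))} ≤ θ * T := by
  obtain ⟨C, hC, hsz⟩ := sizes
  by_contra hcon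
  push Not at hcon
  have hch : ∀ j : ℕ, ∃ r : ℕ, max j 16 ≤ r ∧ ∀ T0 : ℝ, ∃ T : ℝ, T0 ≤ T ∧
      θ * T < volume.real {t ∈ Set.Ioc T (2 * T) |
        |(Gm r T t).re| < M * Real.sqrt (1 + Real.log (mur r))} := fun j => hcon (max j 16)
  choose rr hrr hrT using hch
  have hr16 : ∀ j, 16 ≤ rr j := fun j => (le_max_right _ _).trans (hrr j)
  have hch2 : ∀ j : ℕ, ∃ T : ℝ, (max (hsz (rr j) (hr16 j)).choose (max j 10 : ℝ)) ≤ T ∧
      θ * T < volume.real {t ∈ Set.Ioc T (2 * T) |
        |(Gm (rr j) T t).re| < M * Real.sqrt (1 + Real.log (mur (rr j)))} := fun j => hrT j _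
  choose TT hTT hTvol using hch2
  have hTj : ∀ j : ℕ, (j : ℝ) ≤ TT j := fun j =>
    ((le_max_left _ _).trans (le_max_right _ _)).trans (hTT j)
  have hT10 : ∀ j : ℕ, 10 ≤ TT j := fun j =>
    ((le_max_right _ _).trans (le_max_right _ _)).trans (hTT j)
  have hfacts : ∀ j, 3 ≤ Xr (rr j) (TT j) ∧ Xr (rr j) (TT j) ≤ XT (TT j) ∧
    ∑ n ∈ Finset.Icc 2 (XT (TT j)), ‖kr (Real.log (TT j) / 16) (hw (rr j) (TT j))
      (Xr (rr j) (TT j)) n‖ ^ 2 ≤ Real.log (mur (rr j)) + C ∧
    2 / Real.pi ^ 2 * Real.log (rr j) - Real.log (mur (rr j)) - C ≤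
      VS (cr (rr j) (TT j)) (Xr (rr j) (TT j)) := fun j =>
    (hsz (rr j) (hr16 j)).choose_spec.2 (TT j) ((le_max_left _ _).trans (hTT j))
  have hrtop : Tendsto rr atTop atTop :=
    tendsto_atTop_mono (fun j => (le_max_left _ _).trans (hrr j)) tendsto_id
  have hTtop : Tendsto TT atTop atTop :=
    tendsto_atTop_mono hTj tendsto_natCast_atTop_atTop
  have hlogr : Tendsto (fun j => Real.log (rr j)) atTop atTop :=
    Real.tendsto_log_atTop.comp (tendsto_natCast_atTop_atTop.comp hrtop)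
  have hpi := Real.pi_pos
  have h2pi : 0 < 2 / Real.pi ^ 2 := by positivity
  have hV : Tendsto (fun j => VS (cr (rr j) (TT j)) (Xr (rr j) (TT j))) atTop atTop := by
    have h1 : Tendsto (fun j => 1 / Real.pi ^ 2 * Real.log (rr j)) atTop atTop :=
      hlogr.const_mul_atTop (by positivity)
    refine tendsto_atTop_mono' _ ?_ h1
    filter_upwards [hrtop.eventually (log_small (1 / Real.pi ^ 2) 1 C (by positivity))] with j hj
    have h2 := (hfacts j).2.2.2
    have h3 : 2 / Real.pi ^ 2 * Real.log (rr j) = 1 / Real.pi ^ 2 * Real.log (rr j) +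
      1 / Real.pi ^ 2 * Real.log (rr j) := by ring
    linarith
  set η : ℝ := θ / 6 with hη
  have hη0 : 0 < η := by positivity
  have hclt := clt_poly TT TT (fun j => 2 * TT j) (fun j => Xr (rr j) (TT j))
    (fun j => cr (rr j) (TT j)) (M := 1)
    (fun j p => cf_sq_le (div_pos (Real.log_pos (by linarith [hT10 j])) (by norm_num)) _ p)
    hTtop (fun j => by linarith [hT10 j]) (fun j => by linarith [hT10 j])
    (by
      refine tendsto_const_nhds.congr fun j => ?_
      have : TT j ≠ 0 := by linarith [hT10 j]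
      field_simp
      ring)
    (fun j => by have := (hfacts j).1; omega)
    (by
      intro m
      filter_upwards [hlogr.eventually_ge_atTop (2 * m)] with j hj
      have hT0 : 0 < TT j := by linarith [hT10 j]
      have hmu : 0 < mur (rr j) := by
        have := mur_ge (r := rr j) (by have := hr16 j; omega)
        linarith
      have h1 : (Xr (rr j) (TT j) : ℝ) ≤ TT j ^ (1 / mur (rr j)) :=
        Nat.floor_le (Real.rpow_pos_of_pos hT0 _).le
      push_cast
      calc (Xr (rr j) (TT j) : ℝ) ^ m ≤ (TT j ^ (1 / mur (rr j))) ^ m :=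
            pow_le_pow_left₀ (Nat.cast_nonneg _) h1 m
        _ = TT j ^ (1 / mur (rr j) * m) := by
            rw [← Real.rpow_natCast, ← Real.rpow_mul hT0.le]
        _ ≤ TT j ^ (1 / 2 : ℝ) := by
            apply Real.rpow_le_rpow_of_exponent_le (by linarith [hT10 j])
            rw [one_div_mul_eq_div, div_le_div_iff₀ hmu (by norm_num)]
            unfold mur
            linarith
        _ = Real.sqrt (TT j) := by rw [Real.sqrt_eq_rpow])
    hV (-η) η (by linarith)
  have hgs : gs.real (Set.Ioo (-η) η) ≤ 2 * η := by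
    refine (gs_le (by rw [Real.volume_Ioo]; exact ENNReal.ofReal_ne_top)).trans ?_
    rw [measureReal_def, Real.volume_Ioo, ENNReal.toReal_ofReal (by linarith)]
    linarith
  have hev := hclt.eventually_lt_const (show gs.real (Set.Ioo (-η) η) < 3 * η by linarith)
  have hsm : ∀ᶠ j in atTop, Real.sqrt 2 * (M * Real.sqrt (1 + Real.log (mur (rr j)))) ≤
      η * Real.sqrt (VS (cr (rr j) (TT j)) (Xr (rr j) (TT j))) := by
    filter_upwards [hrtop.eventually (log_small (2 / Real.pi ^ 2) (1 + 2 * M ^ 2 / η ^ 2) C h2pi)]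
      with j hj
    have h2 := (hfacts j).2.2.2
    have hmu1 : 0 ≤ Real.log (mur (rr j)) := by
      apply Real.log_nonneg
      have := mur_ge (r := rr j) (by have := hr16 j; omega)
      linarith
    have h3 : 2 * M ^ 2 / η ^ 2 * (1 + Real.log (mur (rr j))) ≤
        VS (cr (rr j) (TT j)) (Xr (rr j) (TT j)) := by
      have e : (1 + 2 * M ^ 2 / η ^ 2) * (1 + Real.log (mur (rr j))) =
        1 + Real.log (mur (rr j)) + 2 * M ^ 2 / η ^ 2 * (1 + Real.log (mur (rr j))) := by ring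
      rw [e] at hj
      linarith
    have h4 : 2 * M ^ 2 * (1 + Real.log (mur (rr j))) ≤
        η ^ 2 * VS (cr (rr j) (TT j)) (Xr (rr j) (TT j)) := by
      have := mul_le_mul_of_nonneg_left h3 (sq_nonneg η)
      calc _ = η ^ 2 * (2 * M ^ 2 / η ^ 2 * (1 + Real.log (mur (rr j)))) := by field_simp
        _ ≤ _ := this
    have e1 : Real.sqrt 2 * (M * Real.sqrt (1 + Real.log (mur (rr j)))) =
        Real.sqrt (2 * M ^ 2 * (1 + Real.log (mur (rr j)))) := by
      rw [Real.sqrt_mul (by positivity), Real.sqrt_mul (by norm_num), Real.sqrt_sq hM.le]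
      ring
    have e2 : η * Real.sqrt (VS (cr (rr j) (TT j)) (Xr (rr j) (TT j))) =
        Real.sqrt (η ^ 2 * VS (cr (rr j) (TT j)) (Xr (rr j) (TT j))) := by
      rw [Real.sqrt_mul (sq_nonneg _), Real.sqrt_sq hη0.le]
    rw [e1, e2]
    exact Real.sqrt_le_sqrt h4
  obtain ⟨j, hj1, hj2, hj3⟩ := (hev.and (hsm.and (hV.eventually_gt_atTop 0))).exists
  have hT0 : 0 < TT j := by linarith [hT10 j]
  rw [div_lt_iff₀ hT0] at hj1
  have hsV : 0 < Real.sqrt (VS (cr (rr j) (TT j)) (Xr (rr j) (TT j))) := Real.sqrt_pos.2 hj3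
  have hs2 : 0 < Real.sqrt 2 := Real.sqrt_pos.2 (by norm_num)
  have hle : volume.real {t ∈ Set.Ioc (TT j) (2 * TT j) |
        |(Gm (rr j) (TT j) t).re| < M * Real.sqrt (1 + Real.log (mur (rr j)))} ≤
      volume.real {t ∈ Set.Ioc (TT j) (2 * TT j) |
      -η < Real.sqrt 2 * ((G (cr (rr j) (TT j)) (Xr (rr j) (TT j)) t).re /
        Real.sqrt (VS (cr (rr j) (TT j)) (Xr (rr j) (TT j)))) ∧
      Real.sqrt 2 * ((G (cr (rr j) (TT j)) (Xr (rr j) (TT j)) t).re /
        Real.sqrt (VS (cr (rr j) (TT j)) (Xr (rr j) (TT j)))) < η} := by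
    apply measureReal_mono
    · rintro t ⟨ht1, ht2⟩
      refine ⟨ht1, ?_⟩
      rw [← abs_lt, abs_mul, abs_of_pos hs2, abs_div, abs_of_pos hsV, ← mul_div_assoc,
        div_lt_iff₀ hsV]
      calc Real.sqrt 2 * |(G (cr (rr j) (TT j)) (Xr (rr j) (TT j)) t).re| <
          Real.sqrt 2 * (M * Real.sqrt (1 + Real.log (mur (rr j)))) :=
            mul_lt_mul_of_pos_left ht2 hs2
        _ ≤ _ := hj2
    · refine ((measure_mono (fun t ht => ht.1)).trans_lt ?_).ne
      rw [Real.volume_Ioc]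
      exact ENNReal.ofReal_lt_top
  have := hTvol j
  have e3 : 3 * η * TT j = θ / 2 * TT j := by rw [hη]; ring
  nlinarith

end Pool.Agent.V7H6.NR
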