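import Pool.Agent.V7H6.NR.Nb
import Pool.Agent.X112.GS.Rec3

/-! # No approximate linear recurrence for the unfolded gaps -/

set_option autoImplicit false

namespace Pool.Agent.V7H6.NR

open Filter Topology MeasureTheory Set
open SP (RHs)
open SG (NZ ord)
open LG.CU (del)
open Pool.Agent.X112.GS (Anti Lln Tight inc Close)

/-- summation over the blocks -/
theorem all_of_block : ∃ C : ℝ, 0 < C ∧ ∀ (Q : ℕ → Prop) (ε : ℝ), 0 < ε →
    (∃ T1 : ℝ, ∀ T : ℝ, T1 ≤ T →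
      ({n : ℕ | 1 ≤ n ∧ T ≤ ord n ∧ ord n ≤ 3 / 2 * T ∧ Q n}.ncard : ℝ) ≤
        ε * (T * Real.log T)) →
    ∃ N0 : ℕ, ∀ N : ℕ, N0 ≤ N → ({n : ℕ | 1 ≤ n ∧ n ≤ N ∧ Q n}.ncard : ℝ) ≤ C * ε * N := by
  obtain ⟨c1, T2, hc1, hT2, hlow⟩ := LG.GapAux.NZ_low
  refine ⟨9 * (2 / c1) + 1, by positivity, fun Q ε hε hblock => ?_⟩
  obtain ⟨T0, hblock⟩ := hblock
  set T1 := max 10 T0 with hT1
  have hT110 : 10 ≤ T1 := le_max_left _ _
  have h1 := LG.CU.sum_blocks Q ε T1 hε.le hT110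
    (fun T hT => hblock T ((le_max_right _ _).trans hT)) (2 * T1) le_rfl
  obtain ⟨N1, hN1⟩ := (SG.ord_tendsto.eventually_ge_atTop (3 * T2 + 3)).exists_forall_of_atTop
  obtain ⟨N2, hN2⟩ := exists_nat_ge ((NZ (2 * T1) : ℝ) / ε)
  refine ⟨max (max N1 N2) 3, fun N hN => ?_⟩
  have hNN1 : N1 ≤ N := ((le_max_left _ _).trans (le_max_left _ _)).trans hN
  have hNN2 : N2 ≤ N := ((le_max_right _ _).trans (le_max_left _ _)).trans hN
  have hN3 : 3 ≤ N := (le_max_right _ _).trans hN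
  have hN3r : (3 : ℝ) ≤ N := by exact_mod_cast hN3
  have hN0 : (0 : ℝ) < N := by linarith
  set Y := ord N with hY
  have hY1 : 3 * T2 + 3 ≤ Y := hN1 N hNN1
  have hYpos : 0 < Y := by linarith
  have h2 := h1 Y (by linarith)
  set S : Set ℕ := {n : ℕ | 1 ≤ n ∧ n ≤ N ∧ Q n} with hS
  set S1 : Set ℕ := Set.Icc 1 (NZ (2 * T1)) with hS1
  set S2 : Set ℕ := {n : ℕ | 1 ≤ n ∧ 2 * T1 < ord n ∧ ord n ≤ Y ∧ Q n} with hS2
  have hsub : S ⊆ S1 ∪ S2 := by
    rintro n ⟨a1, a2, a3⟩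
    by_cases hc : ord n ≤ 2 * T1
    · left
      rw [hS1, Set.mem_Icc]
      exact ⟨a1, (SG.ord_le_iff a1 _).mp hc⟩
    · right
      exact ⟨a1, not_le.1 hc, SG.ord_mono a1 a2, a3⟩
  have hfin2 : S2.Finite := LG.GapAux.fin_ord Y _ (fun n hn => ⟨hn.1, hn.2.2.1⟩)
  have hcard1 : S1.ncard = NZ (2 * T1) := by
    rw [hS1, ← Finset.coe_Icc, Set.ncard_coe_finset, Nat.card_Icc]
    omega
  have h3 : S.ncard ≤ NZ (2 * T1) + S2.ncard := by
    rw [← hcard1]
    exact (Set.ncard_le_ncard hsub ((Set.finite_Icc _ _).union hfin2)).trans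
      (Set.ncard_union_le _ _)
  have h3r : (S.ncard : ℝ) ≤ NZ (2 * T1) + S2.ncard := by exact_mod_cast h3
  have h4 := hlow (Y / 3) (by linarith)
  have h5 : NZ (2 * (Y / 3)) < N := by
    by_contra hcon
    push Not at hcon
    have h5 : ord N ≤ 2 * (Y / 3) := (SG.ord_le_iff (by omega) _).mpr hcon
    rw [← hY] at h5
    linarith
  have h6 : (NZ (2 * (Y / 3)) : ℝ) ≤ N := by exact_mod_cast h5.le
  have h7 : Real.log Y ≤ 2 * Real.log (Y / 3) := by
    have h7 : Y ≤ (Y / 3) ^ 2 := by nlinarith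
    have h8 := Real.log_le_log hYpos h7
    rw [Real.log_pow] at h8
    push_cast at h8
    exact h8
  have h9 : Y * Real.log Y ≤ 3 * (2 / c1) * N := by
    have h10 : c1 * (Y / 3 * Real.log (Y / 3)) ≤ N := h4.trans h6
    have h11 : Y * Real.log Y ≤ Y * (2 * Real.log (Y / 3)) := mul_le_mul_of_nonneg_left h7 hYpos.le
    have h12 : Y * (2 * Real.log (Y / 3)) = 3 * (2 / c1) * (c1 * (Y / 3 * Real.log (Y / 3))) := by
      field_simp
    rw [h12] at h11
    refine h11.trans (mul_le_mul_of_nonneg_left h10 (by positivity))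
  have h10 : (NZ (2 * T1) : ℝ) ≤ ε * N := by
    rw [div_le_iff₀ hε] at hN2
    have : (N2 : ℝ) ≤ N := by exact_mod_cast hNN2
    nlinarith
  calc (S.ncard : ℝ) ≤ NZ (2 * T1) + S2.ncard := h3r
    _ ≤ ε * N + 3 * ε * (Y * Real.log Y) := add_le_add h10 h2
    _ ≤ ε * N + 3 * ε * (3 * (2 / c1) * N) := by gcongr
    _ = _ := by ring

lemma card_eq_ncard (N : ℕ) (Q : ℕ → Prop) [DecidablePred Q] :
    ((Finset.Icc 1 N).filter Q).card = {n : ℕ | 1 ≤ n ∧ n ≤ N ∧ Q n}.ncard := by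
  rw [← Set.ncard_coe_finset]
  congr 1
  ext n
  simp only [Finset.coe_filter, Finset.mem_Icc]
  constructor
  · rintro ⟨⟨h1, h2⟩, h3⟩; exact ⟨h1, h2, h3⟩
  · rintro ⟨h1, h2, h3⟩; exact ⟨⟨h1, h2⟩, h3⟩

theorem anti_yy (hRH : RHs) : Anti yy := by
  intro w θ hθ
  obtain ⟨C, hC, hall⟩ := all_of_block
  obtain ⟨R0, hR⟩ := blockN hRH (max w 0) (θ / C) (le_max_right _ _) (by positivity)
  filter_upwards [eventually_ge_atTop R0] with r hr
  obtain ⟨T0, hT0, hb⟩ := hR r hr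
  -- passage to the blocks `[T, 3T/2]`
  obtain ⟨T3, hT3⟩ : ∃ T3 : ℝ, ∀ T : ℝ, T3 ≤ T → 4 * Real.log T + 12 ≤ 1 / 5 * T := by
    have h3 : (fun T : ℝ => 4 * Real.log T + 12) =o[atTop] fun T : ℝ => T :=
      (Real.isLittleO_log_id_atTop.const_mul_left 4).add (Asymptotics.isLittleO_const_id_atTop 12)
    have h4 := h3.bound (c := 1 / 10) (by norm_num)
    have h5 : ∀ᶠ T : ℝ in atTop, 4 * Real.log T + 12 ≤ 1 / 5 * T := by
      filter_upwards [h4, eventually_ge_atTop 1] with T hT' hT1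
      rw [Real.norm_of_nonneg (by linarith : (0 : ℝ) ≤ T)] at hT'
      have := (le_abs_self _).trans hT'
      linarith
    exact h5.exists_forall_of_atTop
  have hN := hall (fun n => |yy (n + r) - yy n - r| ≤ max w 0) (θ / C) (by positivity)
    ⟨max (5 / 4 * T0) T3, fun T hT => by
      have hTa : 5 / 4 * T0 ≤ T := (le_max_left _ _).trans hT
      have hTb := hT3 T ((le_max_right _ _).trans hT)
      have hT10 : 10 ≤ T := by linarith
      set S : Set ℕ := {n : ℕ | 1 ≤ n ∧ T ≤ ord n ∧ ord n ≤ 3 / 2 * T ∧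
        |yy (n + r) - yy n - r| ≤ max w 0} with hS
      have hfin : S.Finite := LG.GapAux.fin_ord (3 / 2 * T) _ (fun n hn => ⟨hn.1, hn.2.2.1⟩)
      have h1 := hb (4 / 5 * T) (by linarith) hfin.toFinset (by
        intro n hn
        rw [Set.Finite.mem_toFinset] at hn
        obtain ⟨a1, a2, a3, a4⟩ := hn
        have h2 : Real.log (4 / 5 * T) ≤ Real.log T := Real.log_le_log (by linarith) (by linarith)
        exact ⟨a1, by linarith, by linarith, a4⟩)
      rw [← Set.ncard_eq_toFinset_card S hfin] at h1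
      refine h1.trans ?_
      apply mul_le_mul_of_nonneg_left _ (by positivity)
      have h2 : Real.log (4 / 5 * T) ≤ Real.log T := Real.log_le_log (by linarith) (by linarith)
      have h3 : 0 ≤ Real.log (4 / 5 * T) := Real.log_nonneg (by linarith)
      nlinarith⟩
  obtain ⟨N0, hN0⟩ := hN
  filter_upwards [eventually_ge_atTop N0] with N hNN
  rw [card_eq_ncard]
  have h1 := hN0 N hNN
  have e : C * (θ / C) * (N : ℝ) = θ * N := by field_simp
  rw [e] at h1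
  refine le_trans ?_ h1
  have hfin : {n : ℕ | 1 ≤ n ∧ n ≤ N ∧ |yy (n + r) - yy n - r| ≤ max w 0}.Finite :=
    (Set.finite_Icc 1 N).subset fun n hn => ⟨hn.1, hn.2.1⟩
  have hsub : {n : ℕ | 1 ≤ n ∧ n ≤ N ∧ |yy (n + r) - yy n - r| ≤ w} ⊆
      {n : ℕ | 1 ≤ n ∧ n ≤ N ∧ |yy (n + r) - yy n - r| ≤ max w 0} :=
    fun n hn => ⟨hn.1, hn.2.1, hn.2.2.trans (le_max_left _ _)⟩
  exact_mod_cast Set.ncard_le_ncard hsub hfin

theorem lln_yy (hRH : RHs) : Lln yy := by
  intro κ θ hκ hθ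
  obtain ⟨c, hc, m0, hm0, h⟩ := Pool.Agent.TH800.LD.main hRH (min κ 1) (lt_min hκ one_pos)
    (min_le_right _ _)
  have hlim : ∀ᶠ s : ℕ in atTop, Real.exp (-c * (s * Real.log s)) ≤ θ := by
    have h1 : Tendsto (fun s : ℕ => (s : ℝ) * Real.log s) atTop atTop := by
      apply Tendsto.atTop_mul_atTop₀ tendsto_natCast_atTop_atTop
      exact Real.tendsto_log_atTop.comp tendsto_natCast_atTop_atTop
    have h2 : Tendsto (fun s : ℕ => -c * ((s : ℝ) * Real.log s)) atTop atBot :=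
      h1.const_mul_atTop_of_neg (by linarith)
    exact (Real.tendsto_exp_atBot.comp h2).eventually_le_const hθ
  filter_upwards [hlim, eventually_ge_atTop m0] with s hs hsm
  filter_upwards [eventually_ge_atTop 1] with N hN
  rw [card_eq_ncard]
  have h1 := h N hN s hsm
  refine le_trans ?_ (h1.trans ?_)
  · have hfin : {n : ℕ | 1 ≤ n ∧ n ≤ N ∧ min κ 1 * s ≤
        |∑ i ∈ Finset.range s, del (n + i) - s|}.Finite :=
      (Set.finite_Icc 1 N).subset fun n hn => ⟨hn.1, hn.2.1⟩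
    have hsub : {n : ℕ | 1 ≤ n ∧ n ≤ N ∧ κ * s ≤ |yy (n + s) - yy n - s|} ⊆
        {n : ℕ | 1 ≤ n ∧ n ≤ N ∧ min κ 1 * s ≤ |∑ i ∈ Finset.range s, del (n + i) - s|} := by
      rintro n ⟨a1, a2, a3⟩
      rw [yy_sub] at a3
      exact ⟨a1, a2, le_trans (mul_le_mul_of_nonneg_right (min_le_left _ _)
        (Nat.cast_nonneg s)) a3⟩
    exact_mod_cast Set.ncard_le_ncard hsub hfin
  · rw [mul_comm]
    exact mul_le_mul_of_nonneg_right hs (Nat.cast_nonneg N)

lemma inc_yy : inc yy = del := by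
  funext n
  unfold inc yy
  rw [Finset.sum_range_succ]
  ring

theorem tight_del (hRH : RHs) : Tight del := by
  intro θ hθ
  obtain ⟨c, hc, m0, hm0, h⟩ := Pool.Agent.TH800.LD.main hRH 1 one_pos le_rfl
  have hlim : ∀ᶠ s : ℕ in atTop, Real.exp (-c * (s * Real.log s)) ≤ θ / 2 := by
    have h1 : Tendsto (fun s : ℕ => (s : ℝ) * Real.log s) atTop atTop := by
      apply Tendsto.atTop_mul_atTop₀ tendsto_natCast_atTop_atTop
      exact Real.tendsto_log_atTop.comp tendsto_natCast_atTop_atTop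
    have h2 : Tendsto (fun s : ℕ => -c * ((s : ℝ) * Real.log s)) atTop atBot :=
      h1.const_mul_atTop_of_neg (by linarith)
    exact (Real.tendsto_exp_atBot.comp h2).eventually_le_const (by positivity)
  obtain ⟨s, hs, hsm, hs1⟩ := (hlim.and ((eventually_ge_atTop m0).and
    (eventually_ge_atTop 1))).exists
  obtain ⟨n0, hn0⟩ := (SG.ord_tendsto.eventually_ge_atTop 10).exists_forall_of_atTop
  have hs1R : (1 : ℝ) ≤ s := by exact_mod_cast hs1
  refine ⟨2 * s, by positivity, ?_⟩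
  have hbig : ∀ᶠ N : ℕ in atTop, (n0 : ℝ) ≤ θ / 2 * N :=
    (tendsto_natCast_atTop_atTop.const_mul_atTop
      (show (0 : ℝ) < θ / 2 by positivity)).eventually_ge_atTop _
  filter_upwards [eventually_ge_atTop 1, hbig] with N hN hNb
  rw [card_eq_ncard]
  have h1 := h N hN s hsm
  have hfin : {n : ℕ | 1 ≤ n ∧ n ≤ N ∧ 1 * s ≤
      |∑ i ∈ Finset.range s, del (n + i) - s|}.Finite :=
    (Set.finite_Icc 1 N).subset fun n hn => ⟨hn.1, hn.2.1⟩
  have hsub : {n : ℕ | 1 ≤ n ∧ n ≤ N ∧ 2 * s < |del n|} ⊆ Set.Icc 1 n0 ∪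
      {n : ℕ | 1 ≤ n ∧ n ≤ N ∧ 1 * s ≤ |∑ i ∈ Finset.range s, del (n + i) - s|} := by
    rintro n ⟨a1, a2, a3⟩
    by_cases hc : n ≤ n0
    · left; exact ⟨a1, hc⟩
    · right
      refine ⟨a1, a2, ?_⟩
      have hd : ∀ i : ℕ, 0 ≤ del (n + i) := fun i =>
        Pool.Agent.TH800.LD.del_nonneg (by omega) (hn0 (n + i) (by omega))
      have h2 : del n ≤ ∑ i ∈ Finset.range s, del (n + i) := by
        have := Finset.single_le_sum (f := fun i => del (n + i)) (fun i _ => hd i)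
          (Finset.mem_range.2 (by omega : 0 < s))
        simpa using this
      have h3 := hd 0
      rw [Nat.add_zero] at h3
      rw [abs_of_nonneg h3] at a3
      refine le_trans ?_ (le_abs_self _)
      linarith
  have h2 : {n : ℕ | 1 ≤ n ∧ n ≤ N ∧ 2 * s < |del n|}.ncard ≤ n0 +
      {n : ℕ | 1 ≤ n ∧ n ≤ N ∧ 1 * s ≤ |∑ i ∈ Finset.range s, del (n + i) - s|}.ncard := by
    refine (Set.ncard_le_ncard hsub ((Set.finite_Icc _ _).union hfin)).trans
      ((Set.ncard_union_le _ _).trans ?_)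
    apply Nat.add_le_add_right
    rw [← Finset.coe_Icc, Set.ncard_coe_finset, Nat.card_Icc]
    omega
  have h3 : ({n : ℕ | 1 ≤ n ∧ n ≤ N ∧ 2 * s < |del n|}.ncard : ℝ) ≤ n0 +
      ({n : ℕ | 1 ≤ n ∧ n ≤ N ∧ 1 * s ≤ |∑ i ∈ Finset.range s, del (n + i) - s|}.ncard : ℝ) := by
    exact_mod_cast h2
  have h4 : (N : ℝ) * Real.exp (-c * (s * Real.log s)) ≤ θ / 2 * N := by
    rw [mul_comm]
    exact mul_le_mul_of_nonneg_right hs (Nat.cast_nonneg N)
  linarith

open Classical in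
/-- **no approximate linear recurrence for the unfolded gaps** -/
theorem main_gap (hRH : RHs) (k d : ℕ) (θ : ℝ) (hθ : 0 < θ) : ∃ (B : ℕ) (ε : ℝ), 0 < ε ∧
    ∀ᶠ N : ℕ in atTop, (((Finset.Icc 1 N).filter (fun n => ∃ (c : ℕ → ℝ) (P : Polynomial ℝ),
      (∃ j ≤ k, 1 ≤ |c j|) ∧ P.natDegree ≤ d ∧
      ∀ i < B, |∑ j ∈ Finset.range (k + 1), c j * del (n + i + j) - P.eval (i : ℝ)| < ε)).card : ℝ) ≤
      θ * N := by
  have hT : Tight (inc yy) := by rw [inc_yy]; exact tight_del hRH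
  have hC : Close (inc yy) del := by
    intro ε θ hε hθ
    rw [inc_yy]
    refine Eventually.of_forall fun N => ?_
    have : (Finset.Icc 1 N).filter (fun n => ε < |del n - del n|) = ∅ := by
      apply Finset.filter_eq_empty_iff.2
      intro n _
      rw [sub_self, abs_zero]
      exact not_lt.2 hε.le
    rw [this]
    simp
    positivity
  exact Pool.Agent.X112.GS.no_rec' (anti_yy hRH) (lln_yy hRH) hT hC k d θ hθ

end Pool.Agent.V7H6.NR
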