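import Pool.Agent.V7H6.NR.Tb
import Pool.Agent.TH800.LD.Asm3

/-! # The ordinates: sums of consecutive gaps are not concentrated -/

set_option autoImplicit false

namespace Pool.Agent.V7H6.NR

open Filter Topology MeasureTheory Set
open SP (RHs)
open SG (NZ ord)
open LG.CU (del)
open H370 (zset NN mult Zf mem_Zf good_zeta)

/-- the sum of the first unfolded gaps -/
noncomputable def yy (n : ℕ) : ℝ := ∑ i ∈ Finset.range n, del i

lemma yy_sub (n m : ℕ) : yy (n + m) - yy n = ∑ i ∈ Finset.range m, del (n + i) := by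
  unfold yy
  rw [Finset.sum_range_add]
  ring

lemma NZ_meas : Measurable fun t : ℝ => (NZ t : ℝ) := by
  have : Monotone fun t : ℝ => (NZ t : ℝ) := Nat.mono_cast.comp SG.NZ_mono
  exact this.measurable

/-- window counts against the local weight -/
lemma win_FF {T : ℝ} (hT : 10 ≤ T) {t Q : ℝ} (hQ : 0 ≤ Q) (h1 : T ≤ t - Q / Real.log T)
    (h2 : t + Q / Real.log T ≤ 2 * T) :
    (NZ (t + Q / Real.log T) : ℝ) - NZ (t - Q / Real.log T) ≤ (1 + Q ^ 2) * FF T t := by
  classical
  have hL0 : 0 < Real.log T := Real.log_pos (by linarith)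
  have hq : 0 ≤ Q / Real.log T := by positivity
  have h3 := NZ_add (A := t - Q / Real.log T) (B := t + Q / Real.log T) (by linarith) (by linarith)
  rw [h3]
  push_cast
  rw [add_sub_cancel_left]
  have hsub : Zf riemannZeta (t - Q / Real.log T) (t + Q / Real.log T) ⊆
      Zf riemannZeta T (2 * T) := by
    intro s hs
    rw [mem_Zf good_zeta (by linarith)] at hs
    rw [mem_Zf good_zeta (by linarith)]
    exact ⟨hs.1, hs.2.1, by linarith [hs.2.2.1], by linarith [hs.2.2.2.1], hs.2.2.2.2⟩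
  unfold FF
  rw [Finset.mul_sum]
  refine le_trans (Finset.sum_le_sum fun s hs => ?_) (Finset.sum_le_sum_of_subset_of_nonneg hsub
    fun s _ _ => by positivity)
  rw [mem_Zf good_zeta (by linarith)] at hs
  have h4 : |(s.im - t) * Real.log T| ≤ Q := by
    rw [abs_mul, abs_of_pos hL0]
    have h5 : |s.im - t| ≤ Q / Real.log T := by
      rw [abs_le]
      constructor <;> linarith [hs.2.2.1, hs.2.2.2.1]
    calc |s.im - t| * Real.log T ≤ Q / Real.log T * Real.log T :=
          mul_le_mul_of_nonneg_right h5 hL0.le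
      _ = Q := by field_simp
  have h5 : ((s.im - t) * Real.log T) ^ 2 ≤ Q ^ 2 := by
    rw [← sq_abs]
    exact pow_le_pow_left₀ (abs_nonneg _) h4 2
  have hm : (0 : ℝ) ≤ mult riemannZeta s := Nat.cast_nonneg _
  have q1 : 0 < 1 + ((s.im - t) * Real.log T) ^ 2 := by positivity
  rw [mul_div_assoc', le_div_iff₀ q1]
  nlinarith

/-- at a bad index the windows are concentrated -/
lemma bad_index {T : ℝ} {n r : ℕ} {w t : ℝ} (hn : 1 ≤ n) (hw0 : 0 ≤ w)
    (hL : 3 + 3 * (r + w) ≤ Real.log T) (hT3 : 3 ≤ T) (h1 : T ≤ ord n) (h2 : ord n ≤ 2 * T)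
    (h3 : ord (n + r) ≤ 2 * ord n) (h4 : |yy (n + r) - yy n - r| ≤ w)
    (ht1 : ord n ≤ t) (ht2 : t ≤ ord n + 1 / Real.log T) :
    |(NZ (t + hw r T) : ℝ) - NZ t - r| ≤
      ((NZ (t + (4 * Real.pi * (w + 1) + 2) / Real.log T) : ℝ) -
        NZ (t - (4 * Real.pi * (w + 1) + 2) / Real.log T)) +
      ((NZ (t + hw r T + (4 * Real.pi * (w + 1) + 2) / Real.log T) : ℝ) -
        NZ (t + hw r T - (4 * Real.pi * (w + 1) + 2) / Real.log T)) := by
  set L := Real.log T with hLd
  set Q := 4 * Real.pi * (w + 1) + 2 with hQ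
  have hpi := Real.pi_pos
  have hr0 : (0 : ℝ) ≤ r := Nat.cast_nonneg r
  have hL3 : 3 ≤ L := by linarith
  have hL0 : 0 < L := by linarith
  set h := hw r T with hh
  have hh' : h = 2 * Real.pi * r / L := rfl
  have hmono : ord n ≤ ord (n + r) := SG.ord_mono hn (by omega)
  -- the distance
  set D := (ord (n + r) - ord n) / (2 * Real.pi) with hD
  have hD0 : 0 ≤ D := div_nonneg (by linarith) (by positivity)
  have h5 := Pool.Agent.TH800.LD.transfer (n := n) (m := r) (R := T) hn hT3 h2 (by linarith) h3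
  rw [← yy_sub, ← hD, ← hLd] at h5
  rw [abs_le] at h4 h5
  have h6 : D * (L - 3) ≤ r + w := by linarith [h4.2, h5.1]
  have h7 : 3 * D ≤ 1 := by
    have h8 : 3 * (r + w) ≤ L - 3 := by linarith
    by_contra hc
    push Not at hc
    have h9 : 0 ≤ r + w := by linarith
    have h10 : D * (3 * (r + w)) ≤ D * (L - 3) := mul_le_mul_of_nonneg_left h8 hD0
    rcases eq_or_lt_of_le h9 with h11 | h11
    · have h12 : 0 ≤ L - 3 := by linarith
      have h13 : D * (L - 3) ≤ 0 := by linarith
      rcases eq_or_lt_of_le h12 with h14 | h14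
      · -- `L = 3`: then use the other inequality
        have h15 : (r : ℝ) = 0 := by linarith
        have h16 : w = 0 := by linarith
        have h17 : r = 0 := by exact_mod_cast h15
        subst h17
        simp only [add_zero] at hD
        have : D = 0 := by rw [hD]; simp
        rw [this] at hc
        norm_num at hc
      · have : 0 < D * (L - 3) := mul_pos (by linarith) h14
        linarith
    · have : (r + w) < D * (3 * (r + w)) := by nlinarith
      linarith
  have h8 : |D * L - r| ≤ w + 1 := by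
    rw [abs_le]
    constructor <;> linarith [h4.1, h4.2, h5.1, h5.2]
  have h9 : |ord (n + r) - ord n - h| ≤ 2 * Real.pi * (w + 1) / L := by
    have e : ord (n + r) - ord n - h = 2 * Real.pi / L * (D * L - r) := by
      rw [hD, hh']
      field_simp
    rw [e, abs_mul, abs_of_pos (by positivity)]
    calc 2 * Real.pi / L * |D * L - r| ≤ 2 * Real.pi / L * (w + 1) :=
          mul_le_mul_of_nonneg_left h8 (by positivity)
      _ = _ := by ring
  rw [abs_le] at h9
  have hQL : Q / L = 2 * (2 * Real.pi * (w + 1) / L) + 2 * (1 / L) := by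
    rw [hQ]; ring
  have hiL : 0 < 1 / L := by positivity
  have hW : 0 ≤ 2 * Real.pi * (w + 1) / L := by positivity
  -- the counts
  have hnr : 1 ≤ n + r := by omega
  have c1 : n + r ≤ NZ (t + h + Q / L) := by
    rw [← SG.ord_le_iff hnr]
    rw [hQL]
    linarith [h9.2]
  have c2 : NZ (t + h - Q / L) < n + r := by
    by_contra hc
    push Not at hc
    rw [← SG.ord_le_iff hnr] at hc
    rw [hQL] at hc
    linarith [h9.1]
  have c3 : n ≤ NZ t := by
    rw [← SG.ord_le_iff hn]
    exact ht1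
  have c4 : NZ (t - Q / L) < n := by
    by_contra hc
    push Not at hc
    rw [← SG.ord_le_iff hn] at hc
    rw [hQL] at hc
    linarith
  have c5 : NZ (t + h) ≤ NZ (t + h + Q / L) := SG.NZ_mono (by rw [hQL]; linarith)
  have c6 : NZ (t + h - Q / L) ≤ NZ (t + h) := SG.NZ_mono (by rw [hQL]; linarith)
  have c7 : NZ t ≤ NZ (t + Q / L) := SG.NZ_mono (by rw [hQL]; linarith)
  have d1 : ((n : ℝ) + r) ≤ NZ (t + h + Q / L) := by exact_mod_cast c1
  have d2 : (NZ (t + h - Q / L) : ℝ) < n + r := by exact_mod_cast c2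
  have d3 : (n : ℝ) ≤ NZ t := by exact_mod_cast c3
  have d4 : (NZ (t - Q / L) : ℝ) < n := by exact_mod_cast c4
  have d5 : (NZ (t + h) : ℝ) ≤ NZ (t + h + Q / L) := by exact_mod_cast c5
  have d6 : (NZ (t + h - Q / L) : ℝ) ≤ NZ (t + h) := by exact_mod_cast c6
  have d7 : (NZ t : ℝ) ≤ NZ (t + Q / L) := by exact_mod_cast c7
  rw [abs_le]
  constructor <;> linarith

/-- counting the bad indices -/
lemma count_idx {T : ℝ} (hT : 10 ≤ T) (hL2 : 2 ≤ Real.log T) (A : Set ℝ) (hA : MeasurableSet A)
    (hAs : A ⊆ Set.Icc (T + Real.log T) (2 * T - Real.log T - 1)) (B : Finset ℕ)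
    (hB : ∀ n ∈ B, 1 ≤ n ∧ ∀ t, ord n ≤ t → t ≤ ord n + 1 / Real.log T → t ∈ A) (lam δ C : ℝ)
    (hlam : 0 < lam) (hδ : 0 ≤ δ) (hvol : volume A ≤ ENNReal.ofReal (δ * T))
    (hFi : Integrable fun t => FF T t ^ 2) (hFs : ∫ t, FF T t ^ 2 ≤ C * T) :
    (B.card : ℝ) ≤ Real.log T * (5 * (lam / 2 * (δ * T) + C * T / (2 * lam))) := by
  classical
  have hL0 : 0 < Real.log T := by linarith
  set L := Real.log T with hLd
  have hiL : 0 < 1 / L := by positivity
  have hfinA : volume A ≠ ⊤ := (hvol.trans_lt ENNReal.ofReal_lt_top).ne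
  have hvolR : volume.real A ≤ δ * T := by
    rw [measureReal_def]
    exact ENNReal.toReal_le_of_le_ofReal (by positivity) hvol
  -- the indicator functions
  have h1 : ∀ n ∈ B, ∫ t in A, (Set.Icc (ord n) (ord n + 1 / L)).indicator (fun _ => (1 : ℝ)) t =
      1 / L := by
    intro n hn
    have hsub : Set.Icc (ord n) (ord n + 1 / L) ⊆ A := fun t ht => (hB n hn).2 t ht.1 ht.2
    rw [integral_indicator_const _ measurableSet_Icc, smul_eq_mul, mul_one,
      measureReal_restrict_apply measurableSet_Icc, Set.inter_eq_left.2 hsub, measureReal_def,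
      Real.volume_Icc, ENNReal.toReal_ofReal (by linarith)]
    ring
  have hint : ∀ n ∈ B, Integrable ((Set.Icc (ord n) (ord n + 1 / L)).indicator
      (fun _ => (1 : ℝ))) (volume.restrict A) := by
    intro n _
    have : IsFiniteMeasure (volume.restrict A) := ⟨by
      rw [Measure.restrict_apply_univ]; exact hfinA.lt_top⟩
    exact (integrable_const (1 : ℝ)).indicator measurableSet_Icc
  have h2 : ∑ n ∈ B, ∫ t in A, (Set.Icc (ord n) (ord n + 1 / L)).indicator
      (fun _ => (1 : ℝ)) t = B.card * (1 / L) := by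
    rw [Finset.sum_congr rfl h1, Finset.sum_const, nsmul_eq_mul]
  rw [← integral_finsetSum _ hint] at h2
  -- the pointwise bound
  have hFA : Integrable (fun t => lam / 2 + FF T t ^ 2 / (2 * lam)) (volume.restrict A) := by
    have : IsFiniteMeasure (volume.restrict A) := ⟨by
      rw [Measure.restrict_apply_univ]; exact hfinA.lt_top⟩
    exact (integrable_const _).add (hFi.restrict.div_const _)
  have h3 : ∫ t in A, ∑ n ∈ B, (Set.Icc (ord n) (ord n + 1 / L)).indicator
      (fun _ => (1 : ℝ)) t ≤ ∫ t in A, 5 * (lam / 2 + FF T t ^ 2 / (2 * lam)) := by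
    apply setIntegral_mono_on (integrable_finsetSum _ hint) (hFA.const_mul 5) hA
    intro t htA
    have htJ := hAs htA
    have h4 : ∑ n ∈ B, (Set.Icc (ord n) (ord n + 1 / L)).indicator (fun _ => (1 : ℝ)) t ≤
        (NZ (t + 2 / L) : ℝ) - NZ (t - 2 / L) := by
      have h5 : ∀ n ∈ B, (Set.Icc (ord n) (ord n + 1 / L)).indicator (fun _ => (1 : ℝ)) t ≤
          if n ∈ Finset.Ioc (NZ (t - 2 / L)) (NZ (t + 2 / L)) then 1 else 0 := by
        intro n hn
        by_cases hc : t ∈ Set.Icc (ord n) (ord n + 1 / L)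
        · rw [Set.indicator_of_mem hc, if_pos]
          rw [Finset.mem_Ioc]
          have hn1 := (hB n hn).1
          have e : 2 / L = 1 / L + 1 / L := by ring
          constructor
          · by_contra hcon
            push Not at hcon
            rw [← SG.ord_le_iff hn1] at hcon
            rw [e] at hcon
            linarith [hc.2]
          · rw [← SG.ord_le_iff hn1, e]
            linarith [hc.1]
        · rw [Set.indicator_of_notMem hc]
          split_ifs <;> norm_num
      refine (Finset.sum_le_sum h5).trans ?_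
      rw [← Finset.sum_filter, Finset.sum_const, nsmul_eq_mul, mul_one]
      have h6 : (B.filter (fun n => n ∈ Finset.Ioc (NZ (t - 2 / L)) (NZ (t + 2 / L)))).card ≤
          (Finset.Ioc (NZ (t - 2 / L)) (NZ (t + 2 / L))).card :=
        Finset.card_le_card fun n hn => (Finset.mem_filter.1 hn).2
      rw [Nat.card_Ioc] at h6
      have h7 : NZ (t - 2 / L) ≤ NZ (t + 2 / L) := SG.NZ_mono (by
        have : 0 < 2 / L := by positivity
        linarith)
      have h8 : ((NZ (t + 2 / L) - NZ (t - 2 / L) : ℕ) : ℝ) =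
          (NZ (t + 2 / L) : ℝ) - NZ (t - 2 / L) := by
        push_cast [Nat.cast_sub h7]
        ring
      rw [← h8]
      exact_mod_cast h6
    have h2L : 2 / L ≤ 1 := by rw [div_le_one hL0]; exact hL2
    have h5 := win_FF hT (t := t) (Q := 2) (by norm_num) (by rw [← hLd]; linarith [htJ.1])
      (by rw [← hLd]; linarith [htJ.2])
    rw [← hLd] at h5
    have h6 : FF T t ≤ lam / 2 + FF T t ^ 2 / (2 * lam) := by
      have h7 : lam / 2 + FF T t ^ 2 / (2 * lam) - FF T t = (FF T t - lam) ^ 2 / (2 * lam) := by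
        field_simp
        ring
      have h8 : 0 ≤ (FF T t - lam) ^ 2 / (2 * lam) := by positivity
      linarith
    have h7 := FF_nonneg T t
    calc _ ≤ (NZ (t + 2 / L) : ℝ) - NZ (t - 2 / L) := h4
      _ ≤ (1 + 2 ^ 2) * FF T t := h5
      _ = 5 * FF T t := by ring
      _ ≤ _ := mul_le_mul_of_nonneg_left h6 (by norm_num)
  have h4 : ∫ t in A, 5 * (lam / 2 + FF T t ^ 2 / (2 * lam)) ≤
      5 * (lam / 2 * (δ * T) + C * T / (2 * lam)) := by
    rw [integral_const_mul]
    apply mul_le_mul_of_nonneg_left _ (by norm_num)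
    have : IsFiniteMeasure (volume.restrict A) := ⟨by
      rw [Measure.restrict_apply_univ]; exact hfinA.lt_top⟩
    rw [integral_add (integrable_const _) (hFi.restrict.div_const _), setIntegral_const,
      smul_eq_mul, integral_div]
    apply add_le_add
    · rw [mul_comm]
      exact mul_le_mul_of_nonneg_left hvolR (by positivity)
    · apply div_le_div_of_nonneg_right _ (by positivity)
      refine le_trans ?_ hFs
      exact setIntegral_le_integral hFi (Eventually.of_forall fun t => sq_nonneg _)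
  rw [h2] at h3
  have h5 := h3.trans h4
  calc (B.card : ℝ) = L * (B.card * (1 / L)) := by field_simp
    _ ≤ _ := mul_le_mul_of_nonneg_left h5 hL0.le

/-- **the sums of `r` consecutive unfolded gaps are not concentrated, in a block** -/
theorem blockN (hRH : RHs) (w ε : ℝ) (hw0 : 0 ≤ w) (hε : 0 < ε) : ∃ R0 : ℕ, ∀ r : ℕ, R0 ≤ r →
    ∃ T0 : ℝ, 10 ≤ T0 ∧ ∀ T : ℝ, T0 ≤ T → ∀ B : Finset ℕ,
    (∀ n ∈ B, 1 ≤ n ∧ T + 2 * Real.log T ≤ ord n ∧ ord n ≤ 2 * T - Real.log T - 3 ∧
      |yy (n + r) - yy n - r| ≤ w) → (B.card : ℝ) ≤ ε * (T * Real.log T) := by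
  classical
  obtain ⟨C2, T2, hC2, hT2, hF⟩ := FF_sq hRH
  obtain ⟨A0, hA0, hup⟩ := Pool.Agent.TH800.LD.ord_up
  have hpi := Real.pi_pos
  -- the parameters
  set Q : ℝ := 4 * Real.pi * (w + 1) + 2 with hQ
  have hQ0 : 0 ≤ Q := by positivity
  set lam : ℝ := 5 * C2 / ε with hlam
  have hlam0 : 0 < lam := by positivity
  set δ : ℝ := ε / (5 * lam) with hδ
  have hδ0 : 0 < δ := by positivity
  obtain ⟨K, hK0, hK⟩ : ∃ K : ℝ, 0 < K ∧ 2 * (C2 * (2 * (1 + Q ^ 2)) ^ 2) / (δ / 2) ≤ K ^ 2 := by
    obtain ⟨K, hK⟩ : ∃ K : ℝ, max 1 (2 * (C2 * (2 * (1 + Q ^ 2)) ^ 2) / (δ / 2)) ≤ K := ⟨_, le_rfl⟩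
    have h1 : 1 ≤ K := (le_max_left _ _).trans hK
    have h3 := (le_max_right _ _).trans hK
    exact ⟨K, by linarith, by nlinarith⟩
  obtain ⟨R0, hR⟩ := blockT hRH K (δ / 2) hK0.le (by positivity)
  refine ⟨R0, fun r hr => ?_⟩
  obtain ⟨Ta, hTa10, hTa⟩ := hR r hr
  have hr0 : (0 : ℝ) ≤ r := Nat.cast_nonneg r
  obtain ⟨Td, hTd⟩ : ∃ Td : ℝ, ∀ T : ℝ, Td ≤ T → 3 + 3 * (r + w) + 8 * r + Q ≤ Real.log T :=
    (Real.tendsto_log_atTop.eventually_ge_atTop _).exists_forall_of_atTop
  refine ⟨max (max T2 Ta) (max Td (max A0 r)), hT2.trans ((le_max_left _ _).trans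
    (le_max_left _ _)), fun T hT B hB => ?_⟩
  have hT2' : T2 ≤ T := ((le_max_left _ _).trans (le_max_left _ _)).trans hT
  have hTa' : Ta ≤ T := ((le_max_right _ _).trans (le_max_left _ _)).trans hT
  have hTd' : Td ≤ T := ((le_max_left _ _).trans (le_max_right _ _)).trans hT
  have hA0' : A0 ≤ T := (((le_max_left _ _).trans (le_max_right _ _)).trans (le_max_right _ _)).trans hT
  have hrT : (r : ℝ) ≤ T :=
    (((le_max_right _ _).trans (le_max_right _ _)).trans (le_max_right _ _)).trans hT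
  have hLb := hTd T hTd'
  have hT10 : 10 ≤ T := hT2.trans hT2'
  have hTpos : 0 < T := by linarith
  set L := Real.log T with hLd
  have hL3 : 3 ≤ L := by linarith
  have hL0 : 0 < L := by linarith
  set h := hw r T with hh
  have hh' : h = 2 * Real.pi * r / L := rfl
  have hpi4 := Real.pi_lt_four
  have hh0 : 0 ≤ h := by rw [hh']; positivity
  have hh1 : h ≤ 1 := by
    rw [hh', div_le_one hL0]
    nlinarith
  have hQL : Q / L ≤ 1 := by rw [div_le_one hL0]; linarith
  have hQL0 : 0 ≤ Q / L := by positivity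
  obtain ⟨hFi, hFs⟩ := hF T hT2'
  -- the set of heights
  set J := Set.Icc (T + L) (2 * T - L - 1) with hJ
  set c : ℝ := K / (2 * (1 + Q ^ 2)) with hc
  have hc0 : 0 < c := by positivity
  set A1 : Set ℝ := {t ∈ J | |(NZ (t + h) : ℝ) - NZ t - r| ≤ K} with hA1
  set A2 : Set ℝ := {t | c ≤ |FF T t|} with hA2
  set A3 : Set ℝ := {t | c ≤ |FF T (t + h)|} with hA3
  set A : Set ℝ := (A1 ∪ (A2 ∪ A3)) ∩ J with hA
  have mA1' : MeasurableSet {t : ℝ | |(NZ (t + h) : ℝ) - NZ t - r| ≤ K} := by
    refine measurableSet_le ?_ measurable_const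
    have m1 : Measurable fun t : ℝ => (NZ (t + h) : ℝ) := NZ_meas.comp (measurable_id.add_const h)
    exact continuous_abs.measurable.comp ((m1.sub NZ_meas).sub_const _)
  have mA1 : MeasurableSet A1 := by
    have : A1 = J ∩ {t : ℝ | |(NZ (t + h) : ℝ) - NZ t - r| ≤ K} := rfl
    rw [this]
    exact measurableSet_Icc.inter mA1'
  have mA2 : MeasurableSet A2 :=
    measurableSet_le measurable_const (FF_cont T).abs.measurable
  have mA3 : MeasurableSet A3 :=
    measurableSet_le measurable_const ((FF_cont T).comp (continuous_id.add continuous_const)).abs.measurable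
  have mA : MeasurableSet A := (mA1.union (mA2.union mA3)).inter measurableSet_Icc
  have v1 : volume A1 ≤ ENNReal.ofReal (δ / 2 * T) := hTa T hTa'
  have v2 : volume A2 ≤ ENNReal.ofReal (C2 * T / c ^ 2) := cheb volume hFi hc0 hFs
  have v3 : volume A3 ≤ ENNReal.ofReal (C2 * T / c ^ 2) := by
    have : A3 = (fun t => t + h) ⁻¹' A2 := rfl
    rw [this, measure_preimage_add_right]
    exact v2
  have hvol : volume A ≤ ENNReal.ofReal (δ * T) := by
    have hx : C2 * T / c ^ 2 + C2 * T / c ^ 2 ≤ δ / 2 * T := by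
      have e : C2 * T / c ^ 2 + C2 * T / c ^ 2 = 2 * (C2 * (2 * (1 + Q ^ 2)) ^ 2) * T / K ^ 2 := by
        rw [hc]
        field_simp
        ring
      rw [e, div_le_iff₀ (by positivity)]
      rw [div_le_iff₀ (by positivity)] at hK
      calc 2 * (C2 * (2 * (1 + Q ^ 2)) ^ 2) * T ≤ K ^ 2 * (δ / 2) * T :=
            mul_le_mul_of_nonneg_right hK hTpos.le
        _ = _ := by ring
    calc volume A ≤ volume (A1 ∪ (A2 ∪ A3)) := measure_mono Set.inter_subset_left
      _ ≤ volume A1 + (volume A2 + volume A3) :=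
          (measure_union_le _ _).trans (add_le_add le_rfl (measure_union_le _ _))
      _ ≤ ENNReal.ofReal (δ / 2 * T) + (ENNReal.ofReal (C2 * T / c ^ 2) +
          ENNReal.ofReal (C2 * T / c ^ 2)) := by gcongr
      _ = ENNReal.ofReal (δ / 2 * T + (C2 * T / c ^ 2 + C2 * T / c ^ 2)) := by
          rw [ENNReal.ofReal_add (by positivity) (by positivity),
            ENNReal.ofReal_add (by positivity) (by positivity)]
      _ ≤ _ := by
          apply ENNReal.ofReal_le_ofReal
          linarith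
  have hcnt := count_idx hT10 (by linarith) A mA Set.inter_subset_right B (by
    intro n hn
    obtain ⟨hn1, hn2, hn3, hn4⟩ := hB n hn
    refine ⟨hn1, fun t ht1 ht2 => ?_⟩
    have hiL : 1 / L ≤ 1 := by rw [div_le_one hL0]; linarith
    have htJ : t ∈ J := ⟨by linarith, by linarith⟩
    refine ⟨?_, htJ⟩
    by_contra hcon
    rw [Set.mem_union, Set.mem_union, not_or, not_or] at hcon
    obtain ⟨c1, c2, c3⟩ := hcon
    have c1' : K < |(NZ (t + h) : ℝ) - NZ t - r| := by
      by_contra hcc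
      exact c1 ⟨htJ, not_lt.1 hcc⟩
    have c2' : FF T t < c := by
      have hx : ¬ c ≤ |FF T t| := c2
      have := not_le.1 hx
      rwa [abs_of_nonneg (FF_nonneg T t)] at this
    have c3' : FF T (t + h) < c := by
      have hx : ¬ c ≤ |FF T (t + h)| := c3
      have := not_le.1 hx
      rwa [abs_of_nonneg (FF_nonneg T (t + h))] at this
    have h3 := hup n r hn1 (by linarith) (by linarith)
    have h4 := bad_index hn1 hw0 (by linarith) (by linarith) (by linarith) (by linarith)
      (by linarith) hn4 ht1 ht2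
    have h5 := win_FF hT10 (t := t) hQ0 (by rw [← hLd]; linarith) (by rw [← hLd]; linarith)
    have h6 := win_FF hT10 (t := t + h) hQ0 (by rw [← hLd]; linarith) (by rw [← hLd]; linarith)
    rw [← hLd] at h5 h6
    have h7 : (1 + Q ^ 2) * FF T t < K / 2 := by
      have : (1 + Q ^ 2) * FF T t < (1 + Q ^ 2) * c := mul_lt_mul_of_pos_left c2' (by positivity)
      have e : (1 + Q ^ 2) * c = K / 2 := by rw [hc]; field_simp
      linarith
    have h8 : (1 + Q ^ 2) * FF T (t + h) < K / 2 := by
      have : (1 + Q ^ 2) * FF T (t + h) < (1 + Q ^ 2) * c :=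
        mul_lt_mul_of_pos_left c3' (by positivity)
      have e : (1 + Q ^ 2) * c = K / 2 := by rw [hc]; field_simp
      linarith
    rw [← hh, ← hLd, ← hQ] at h4
    linarith) lam δ C2 hlam0 hδ0.le hvol hFi hFs
  refine hcnt.trans (le_of_eq ?_)
  rw [hδ, hlam]
  field_simp
  ring

end Pool.Agent.V7H6.NR
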