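import Pool.Agent.V7H6.NR.Fin

/-! # No approximate linear recurrence for the ordinates -/

set_option autoImplicit false

namespace Pool.Agent.V7H6.NR

open Filter Topology MeasureTheory Set
open SP (RHs)
open SG (NZ ord)
open LG.CU (del)
open Pool.Agent.X112.GS (Anti Lln Tight inc Close card_shift)

/-- indices with a long gap nearby are rare -/
lemma tight_run (hRH : RHs) (F : ℕ) (θ : ℝ) (hθ : 0 < θ) : ∃ K : ℝ, 0 < K ∧ ∀ᶠ N : ℕ in atTop,
    (((Finset.Icc 1 N).filter (fun n => ∃ f ∈ Finset.range F, K < |del (n + f)|)).card : ℝ) ≤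
      θ * N := by
  obtain ⟨K, hK, h⟩ := tight_del hRH (θ / (2 * (F + 1))) (by positivity)
  refine ⟨K, hK, ?_⟩
  have hbig : ∀ᶠ N : ℕ in atTop, ((∑ f ∈ Finset.range F, f : ℕ) : ℝ) ≤ θ / 2 * N :=
    (tendsto_natCast_atTop_atTop.const_mul_atTop
      (show (0 : ℝ) < θ / 2 by positivity)).eventually_ge_atTop _
  filter_upwards [h, hbig] with N hN hb
  have h1 : (Finset.Icc 1 N).filter (fun n => ∃ f ∈ Finset.range F, K < |del (n + f)|) ⊆
      (Finset.range F).biUnion (fun f => (Finset.Icc 1 N).filter (fun n => K < |del (n + f)|)) := by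
    intro n hn
    rw [Finset.mem_filter] at hn
    obtain ⟨f, hf, h2⟩ := hn.2
    rw [Finset.mem_biUnion]
    exact ⟨f, hf, Finset.mem_filter.mpr ⟨hn.1, h2⟩⟩
  have h2 := (Finset.card_le_card h1).trans Finset.card_biUnion_le
  have h3 : ∑ f ∈ Finset.range F, ((Finset.Icc 1 N).filter (fun n => K < |del (n + f)|)).card ≤
      ∑ f ∈ Finset.range F, (((Finset.Icc 1 N).filter (fun n => K < |del n|)).card + f) :=
    Finset.sum_le_sum fun f _ => card_shift (fun n => K < |del n|) N f
  rw [Finset.sum_add_distrib, Finset.sum_const, smul_eq_mul, Finset.card_range] at h3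
  have h4 : (((Finset.Icc 1 N).filter
      (fun n => ∃ f ∈ Finset.range F, K < |del (n + f)|)).card : ℝ) ≤
      F * ((Finset.Icc 1 N).filter (fun n => K < |del n|)).card +
      ((∑ f ∈ Finset.range F, f : ℕ) : ℝ) := by
    exact_mod_cast h2.trans h3
  have h5 : (F : ℝ) * ((Finset.Icc 1 N).filter (fun n => K < |del n|)).card ≤ θ / 2 * N := by
    calc (F : ℝ) * ((Finset.Icc 1 N).filter (fun n => K < |del n|)).card ≤
        (F + 1) * (θ / (2 * (F + 1)) * N) :=
          mul_le_mul (by linarith) hN (Nat.cast_nonneg _) (by positivity)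
      _ = θ / 2 * N := by field_simp
  linarith

/-- sizes near a large index -/
lemma near (F : ℕ) (Λ : ℝ) : ∃ n1 : ℕ, ∀ n : ℕ, n1 ≤ n → 1 ≤ n ∧ ord n ≤ n ∧ 10 ≤ ord n ∧
    Λ ≤ Real.log (ord n / (2 * Real.pi)) ∧
    ∀ f : ℕ, f < F → ord (n + f) ≤ 2 * ord n ∧ ord n ≤ ord (n + f) := by
  obtain ⟨A0, hA0, hup⟩ := Pool.Agent.TH800.LD.ord_up
  obtain ⟨N0, hN01, hN0⟩ := Pool.Agent.TH800.LD.ord_le_self
  have hpi := Real.pi_pos
  have h1 : Tendsto (fun n : ℕ => Real.log (ord n / (2 * Real.pi))) atTop atTop :=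
    Real.tendsto_log_atTop.comp (SG.ord_tendsto.atTop_div_const (by positivity))
  have h2 : ∀ᶠ n : ℕ in atTop, 1 ≤ n ∧ ord n ≤ n ∧ 10 ≤ ord n ∧
      Λ ≤ Real.log (ord n / (2 * Real.pi)) ∧
      ∀ f : ℕ, f < F → ord (n + f) ≤ 2 * ord n ∧ ord n ≤ ord (n + f) := by
    filter_upwards [eventually_ge_atTop N0, h1.eventually_ge_atTop Λ,
      SG.ord_tendsto.eventually_ge_atTop (max A0 F)] with n hn h3 h4
    have hn1 : 1 ≤ n := hN01.trans hn
    have h5 : A0 ≤ ord n := (le_max_left _ _).trans h4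
    refine ⟨hn1, hN0 n hn, hA0.trans h5, h3, fun f hf => ⟨?_, SG.ord_mono hn1 (by omega)⟩⟩
    have h6 : (f : ℝ) ≤ ord n := by
      have : (f : ℝ) ≤ F := by exact_mod_cast hf.le
      exact this.trans ((le_max_right _ _).trans h4)
    have h7 := hup n f hn1 h5 h6
    have h8 : 0 < ord n := by linarith
    linarith
  exact h2.exists_forall_of_atTop

/-- the unfolded gap and the gap -/
lemma gap_near {n f : ℕ} {K Λ : ℝ} (hn : 1 ≤ n) (hΛ : 0 < Λ) (h10 : 10 ≤ ord n)
    (h1 : Λ ≤ Real.log (ord n / (2 * Real.pi)))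
    (h2 : ord (n + f) ≤ 2 * ord n) (h3 : ord n ≤ ord (n + f)) (h4 : |del (n + f)| ≤ K) :
    0 ≤ ord (n + f + 1) - ord (n + f) ∧
    (ord (n + f + 1) - ord (n + f)) * Real.log (ord n / (2 * Real.pi)) ≤ 2 * Real.pi * K ∧
    |Real.log (ord n) / (2 * Real.pi) * (ord (n + f + 1) - ord (n + f)) - del (n + f)| ≤
      3 * K / Λ := by
  have hpi := Real.pi_pos
  have hpi3 := Real.pi_gt_three
  have hpi4 := Real.pi_lt_four
  have h5 : ord (n + f) ≤ ord (n + f + 1) := SG.ord_mono (by omega) (by omega)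
  set g := ord (n + f + 1) - ord (n + f) with hg
  have hg0 : 0 ≤ g := by linarith
  have hp : 0 < ord n := by linarith
  have h6 : Real.log (ord n / (2 * Real.pi)) ≤ Real.log (ord (n + f) / (2 * Real.pi)) := by
    apply Real.log_le_log (by positivity)
    exact div_le_div_of_nonneg_right h3 (by positivity)
  have e1 : del (n + f) = g / (2 * Real.pi) * Real.log (ord (n + f) / (2 * Real.pi)) := rfl
  have h7 : 0 < Real.log (ord n / (2 * Real.pi)) := by linarith
  have h8 : g / (2 * Real.pi) * Real.log (ord n / (2 * Real.pi)) ≤ K := by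
    have h9 : g / (2 * Real.pi) * Real.log (ord n / (2 * Real.pi)) ≤ del (n + f) := by
      rw [e1]
      exact mul_le_mul_of_nonneg_left h6 (by positivity)
    exact h9.trans ((le_abs_self _).trans h4)
  have hK0 : 0 ≤ K := (abs_nonneg _).trans h4
  refine ⟨hg0, ?_, ?_⟩
  · have e : g * Real.log (ord n / (2 * Real.pi)) =
        2 * Real.pi * (g / (2 * Real.pi) * Real.log (ord n / (2 * Real.pi))) := by field_simp
    rw [e]
    exact mul_le_mul_of_nonneg_left h8 (by positivity)
  · have h9 : g / (2 * Real.pi) ≤ K / Λ := by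
      rw [le_div_iff₀ hΛ]
      exact (mul_le_mul_of_nonneg_left h1 (by positivity)).trans h8
    have e2 : Real.log (ord n) / (2 * Real.pi) * g - del (n + f) =
        g / (2 * Real.pi) * (Real.log (ord n) - Real.log (ord (n + f) / (2 * Real.pi))) := by
      rw [e1]; ring
    have h10 : |Real.log (ord n) - Real.log (ord (n + f) / (2 * Real.pi))| ≤ 3 := by
      rw [Real.log_div (by linarith) (by positivity)]
      have a1 : Real.log (ord n) ≤ Real.log (ord (n + f)) := Real.log_le_log hp h3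
      have a2 : Real.log (ord (n + f)) ≤ Real.log 2 + Real.log (ord n) := by
        rw [← Real.log_mul (by norm_num) hp.ne']
        exact Real.log_le_log (by linarith) h2
      have a3 : Real.log 2 ≤ 1 := by linarith [Real.log_two_lt_d9]
      have a4 : 0 ≤ Real.log (2 * Real.pi) := Real.log_nonneg (by linarith)
      have a5 : Real.log (2 * Real.pi) ≤ 3 := by
        have a6 : Real.log (2 * Real.pi) ≤ Real.log (2 ^ 3) := by
          apply Real.log_le_log (by positivity)
          norm_num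
          linarith
        rw [Real.log_pow] at a6
        push_cast at a6
        linarith
      rw [abs_le]
      constructor <;> linarith
    rw [e2, abs_mul, abs_of_nonneg (by positivity)]
    calc g / (2 * Real.pi) * |Real.log (ord n) - Real.log (ord (n + f) / (2 * Real.pi))| ≤
        K / Λ * 3 := mul_le_mul h9 h10 (abs_nonneg _) (by positivity)
      _ = _ := by ring

open Classical in
/-- **no approximate linear recurrence for the ordinates** -/
theorem main_ord (hRH : RHs) (k d : ℕ) (θ : ℝ) (hθ : 0 < θ) : ∃ (B : ℕ) (ε : ℝ), 0 < ε ∧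
    ∀ᶠ N : ℕ in atTop, (((Finset.Icc 1 N).filter (fun n => ∃ (c : ℕ → ℝ) (P : Polynomial ℝ),
      (∃ j ≤ k, 1 ≤ |c j|) ∧ P.natDegree ≤ d ∧
      ∀ i < B, |∑ j ∈ Finset.range (k + 1), c j * ord (n + i + j) - P.eval (i : ℝ)| <
        ε / Real.log N)).card : ℝ) ≤ θ * N := by
  obtain ⟨B0, ε0, hε0, hgap⟩ := main_gap hRH k d (θ / 3) (by positivity)
  set F : ℕ := B0 + k + 2 with hF
  obtain ⟨K, hK, htight⟩ := tight_run hRH F (θ / 3) (by positivity)
  obtain ⟨Λ, hΛd⟩ : ∃ Λ : ℝ, Λ = 6 * (k + 1) * K / ε0 + 1 := ⟨_, rfl⟩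
  have hΛ0 : 0 < Λ := by rw [hΛd]; positivity
  have hΛ1 : (k + 1) * (3 * K / Λ) ≤ ε0 / 2 := by
    rw [mul_div_assoc', div_le_iff₀ hΛ0, hΛd]
    have e : ε0 / 2 * (6 * (k + 1) * K / ε0 + 1) = (k + 1) * (3 * K) + ε0 / 2 := by
      field_simp
      ring
    rw [e]
    linarith
  obtain ⟨n1, hn1⟩ := near F Λ
  refine ⟨B0 + 1, ε0 / 4, by positivity, ?_⟩
  have hbig : ∀ᶠ N : ℕ in atTop, (n1 : ℝ) ≤ θ / 3 * N :=
    (tendsto_natCast_atTop_atTop.const_mul_atTop
      (show (0 : ℝ) < θ / 3 by positivity)).eventually_ge_atTop _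
  filter_upwards [hgap, htight, hbig, eventually_ge_atTop 3] with N hN1 hN2 hN3 hN4
  have hpi := Real.pi_pos
  have hpi3 := Real.pi_gt_three
  have hNR : (3 : ℝ) ≤ N := by exact_mod_cast hN4
  have hlogN : 0 < Real.log N := Real.log_pos (by linarith)
  have hsub : (Finset.Icc 1 N).filter (fun n => ∃ (c : ℕ → ℝ) (P : Polynomial ℝ),
      (∃ j ≤ k, 1 ≤ |c j|) ∧ P.natDegree ≤ d ∧
      ∀ i < B0 + 1, |∑ j ∈ Finset.range (k + 1), c j * ord (n + i + j) - P.eval (i : ℝ)| <
        ε0 / 4 / Real.log N) ⊆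
      (Finset.Icc 1 n1 ∪ (Finset.Icc 1 N).filter (fun n => ∃ (c : ℕ → ℝ) (P : Polynomial ℝ),
      (∃ j ≤ k, 1 ≤ |c j|) ∧ P.natDegree ≤ d ∧
      ∀ i < B0, |∑ j ∈ Finset.range (k + 1), c j * del (n + i + j) - P.eval (i : ℝ)| < ε0)) ∪
      (Finset.Icc 1 N).filter (fun n => ∃ f ∈ Finset.range F, K < |del (n + f)|) := by
    intro n hn
    rw [Finset.mem_filter, Finset.mem_Icc] at hn
    obtain ⟨⟨hna, hnb⟩, c, P, ⟨p, hp, h3⟩, hPd, h4⟩ := hn
    rw [Finset.mem_union, Finset.mem_union]
    by_contra hcon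
    rw [not_or, not_or] at hcon
    obtain ⟨⟨c1, c2⟩, c3⟩ := hcon
    have hnn : n1 ≤ n := by
      by_contra hc
      exact c1 (Finset.mem_Icc.2 ⟨hna, by omega⟩)
    obtain ⟨b1, b2, b3, b4, b5⟩ := hn1 n hnn
    have hdel : ∀ f < F, |del (n + f)| ≤ K := by
      intro f hf
      by_contra hc
      exact c3 (Finset.mem_filter.2 ⟨Finset.mem_Icc.2 ⟨hna, hnb⟩, f, Finset.mem_range.2 hf,
        not_le.1 hc⟩)
    -- normalisation
    obtain ⟨j0, hj0, hmax⟩ := Finset.exists_max_image (Finset.range (k + 1)) (fun j => |c j|)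
      ⟨0, Finset.mem_range.mpr (by omega)⟩
    rw [Finset.mem_range] at hj0
    obtain ⟨C, hCd⟩ : ∃ C : ℝ, C = |c j0| := ⟨_, rfl⟩
    have hC1 : 1 ≤ C := by
      rw [hCd]
      exact h3.trans (hmax p (Finset.mem_range.mpr (by omega)))
    have hC0 : 0 < C := by linarith
    have hcj : ∀ j ≤ k, |c j / C| ≤ 1 := by
      intro j hj
      rw [abs_div, abs_of_pos hC0, div_le_one hC0, hCd]
      exact hmax j (Finset.mem_range.mpr (by omega))
    obtain ⟨lam, hlamd⟩ : ∃ lam : ℝ, lam = Real.log (ord n) / (2 * Real.pi) := ⟨_, rfl⟩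
    have hlogn : 0 < Real.log (ord n) := Real.log_pos (by linarith)
    have hlam0 : 0 < lam := by rw [hlamd]; positivity
    apply c2
    rw [Finset.mem_filter]
    refine ⟨Finset.mem_Icc.2 ⟨hna, hnb⟩, fun j => c j / C,
      Polynomial.C (lam / C) * (P.comp (Polynomial.X + Polynomial.C 1) - P), ⟨j0, by omega, ?_⟩,
      ?_, ?_⟩
    · show 1 ≤ |c j0 / C|
      rw [abs_div, abs_of_pos hC0, ← hCd, div_self hC0.ne']
    · refine (Polynomial.natDegree_C_mul_le _ _).trans ((Polynomial.natDegree_sub_le _ _).trans ?_)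
      apply max_le _ hPd
      refine (Polynomial.natDegree_comp_le).trans ?_
      rw [Polynomial.natDegree_X_add_C, mul_one]
      exact hPd
    · intro i hi
      have hev : (Polynomial.C (lam / C) * (P.comp (Polynomial.X + Polynomial.C 1) - P)).eval
          (i : ℝ) = lam / C * (P.eval ((i : ℝ) + 1) - P.eval (i : ℝ)) := by
        simp [Polynomial.eval_comp]
      rw [hev]
      have e1 := h4 i (by omega)
      have e2 := h4 (i + 1) (by omega)
      push_cast at e2
      obtain ⟨S1, hS1⟩ : ∃ S1 : ℝ, S1 = ∑ j ∈ Finset.range (k + 1), c j * ord (n + i + j) :=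
        ⟨_, rfl⟩
      obtain ⟨S2, hS2⟩ : ∃ S2 : ℝ, S2 = ∑ j ∈ Finset.range (k + 1), c j * ord (n + (i + 1) + j) :=
        ⟨_, rfl⟩
      rw [← hS1] at e1
      rw [← hS2] at e2
      have e3 : |(S2 - S1) - (P.eval ((i : ℝ) + 1) - P.eval (i : ℝ))| < ε0 / 2 / Real.log N := by
        have e4 : (S2 - S1) - (P.eval ((i : ℝ) + 1) - P.eval (i : ℝ)) =
          (S2 - P.eval ((i : ℝ) + 1)) - (S1 - P.eval (i : ℝ)) := by ring
        rw [e4]
        have e5 : ε0 / 2 / Real.log N = ε0 / 4 / Real.log N + ε0 / 4 / Real.log N := by ring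
        rw [e5]
        exact (abs_sub _ _).trans_lt (add_lt_add e2 e1)
      have e4 : ∑ j ∈ Finset.range (k + 1), c j / C * (lam *
          (ord (n + (i + j) + 1) - ord (n + (i + j)))) = lam / C * (S2 - S1) := by
        rw [hS1, hS2, ← Finset.sum_sub_distrib, Finset.mul_sum]
        refine Finset.sum_congr rfl fun j _ => ?_
        rw [show n + (i + j) + 1 = n + (i + 1) + j by ring, show n + (i + j) = n + i + j by ring]
        ring
      have e5 : |lam / C * (S2 - S1) - lam / C * (P.eval ((i : ℝ) + 1) - P.eval (i : ℝ))| <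
          ε0 / 2 := by
        rw [← mul_sub, abs_mul, abs_of_pos (by positivity)]
        have e6 : lam / C * |S2 - S1 - (P.eval ((i : ℝ) + 1) - P.eval (i : ℝ))| <
            lam / C * (ε0 / 2 / Real.log N) := mul_lt_mul_of_pos_left e3 (by positivity)
        refine e6.trans_le ?_
        have e7 : lam / C ≤ Real.log N := by
          rw [div_le_iff₀ hC0]
          have e8 : lam ≤ Real.log N := by
            have e9 : Real.log (ord n) ≤ Real.log N := by
              apply Real.log_le_log (by linarith)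
              have : (n : ℝ) ≤ N := by exact_mod_cast hnb
              linarith
            rw [hlamd, div_le_iff₀ (by positivity)]
            nlinarith
          nlinarith
        calc lam / C * (ε0 / 2 / Real.log N) ≤ Real.log N * (ε0 / 2 / Real.log N) :=
              mul_le_mul_of_nonneg_right e7 (by positivity)
          _ = ε0 / 2 := by field_simp
      have e6 : |∑ j ∈ Finset.range (k + 1), c j / C * del (n + i + j) - ∑ j ∈ Finset.range (k + 1),
          c j / C * (lam * (ord (n + (i + j) + 1) - ord (n + (i + j))))| ≤ ε0 / 2 := by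
        rw [← Finset.sum_sub_distrib]
        refine (Finset.abs_sum_le_sum_abs _ _).trans ?_
        have e7 : ∀ j ∈ Finset.range (k + 1), |c j / C * del (n + i + j) -
            c j / C * (lam * (ord (n + (i + j) + 1) - ord (n + (i + j))))| ≤ 3 * K / Λ := by
          intro j hj
          rw [Finset.mem_range] at hj
          have hf : i + j < F := by omega
          have e8 := gap_near b1 hΛ0 b3 b4 (b5 (i + j) hf).1 (b5 (i + j) hf).2 (hdel (i + j) hf)
          rw [← mul_sub, abs_mul, abs_sub_comm, show n + i + j = n + (i + j) by ring]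
          have e9 := e8.2.2
          rw [← hlamd] at e9
          calc |c j / C| * |lam * (ord (n + (i + j) + 1) - ord (n + (i + j))) - del (n + (i + j))|
              ≤ 1 * (3 * K / Λ) := mul_le_mul (hcj j (by omega)) e9 (abs_nonneg _) zero_le_one
            _ = _ := one_mul _
        refine (Finset.sum_le_sum e7).trans ?_
        rw [Finset.sum_const, Finset.card_range, nsmul_eq_mul]
        push_cast
        exact hΛ1
      rw [e4] at e6
      have e7 : |∑ j ∈ Finset.range (k + 1), c j / C * del (n + i + j) -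
          lam / C * (P.eval ((i : ℝ) + 1) - P.eval (i : ℝ))| ≤
          |∑ j ∈ Finset.range (k + 1), c j / C * del (n + i + j) - lam / C * (S2 - S1)| +
          |lam / C * (S2 - S1) - lam / C * (P.eval ((i : ℝ) + 1) - P.eval (i : ℝ))| :=
        abs_sub_le _ _ _
      exact e7.trans_lt (by linarith)
  have h1 := (Finset.card_le_card hsub).trans (Finset.card_union_le _ _)
  have h2 := Finset.card_union_le (Finset.Icc 1 n1) ((Finset.Icc 1 N).filter (fun n =>
    ∃ (c : ℕ → ℝ) (P : Polynomial ℝ), (∃ j ≤ k, 1 ≤ |c j|) ∧ P.natDegree ≤ d ∧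
      ∀ i < B0, |∑ j ∈ Finset.range (k + 1), c j * del (n + i + j) - P.eval (i : ℝ)| < ε0))
  rw [Nat.card_Icc, Nat.add_sub_cancel] at h2
  have h3 := h1.trans (Nat.add_le_add_right h2 _)
  have h4 : (((Finset.Icc 1 N).filter (fun n => ∃ (c : ℕ → ℝ) (P : Polynomial ℝ),
      (∃ j ≤ k, 1 ≤ |c j|) ∧ P.natDegree ≤ d ∧
      ∀ i < B0 + 1, |∑ j ∈ Finset.range (k + 1), c j * ord (n + i + j) - P.eval (i : ℝ)| <
        ε0 / 4 / Real.log N)).card : ℝ) ≤ n1 + ((Finset.Icc 1 N).filter (fun n =>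
        ∃ (c : ℕ → ℝ) (P : Polynomial ℝ), (∃ j ≤ k, 1 ≤ |c j|) ∧ P.natDegree ≤ d ∧
      ∀ i < B0, |∑ j ∈ Finset.range (k + 1), c j * del (n + i + j) - P.eval (i : ℝ)| < ε0)).card +
      ((Finset.Icc 1 N).filter (fun n => ∃ f ∈ Finset.range F, K < |del (n + f)|)).card := by
    exact_mod_cast h3
  linarith

end Pool.Agent.V7H6.NR
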