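import Mathlib

/-! # Polynomials are nearly constant on short windows away from their roots -/

set_option autoImplicit false

namespace Pool.Agent.V7H6.NR

open Polynomial

/-- perturbation of a product -/
lemma prod_pert (η : ℝ) (hη : 0 ≤ η) (w : ℂ) (s : Multiset ℂ) (hs : ∀ z ∈ s, ‖w‖ ≤ η * ‖z‖) :
    ‖(s.map fun z => z + w).prod - (s.map fun z => z).prod‖ ≤
      ((1 + η) ^ Multiset.card s - 1) * (s.map fun z => ‖z‖).prod := by
  induction s using Multiset.induction_on with
  | empty => simp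
  | cons a s ih =>
    have ih' := ih fun z hz => hs z (Multiset.mem_cons_of_mem hz)
    have ha := hs a (Multiset.mem_cons_self a s)
    simp only [Multiset.map_cons, Multiset.prod_cons, Multiset.card_cons]
    set A := (s.map fun z => z + w).prod with hA
    set B := (s.map fun z => z).prod with hB
    set C := (s.map fun z => ‖z‖).prod with hC
    have hC0 : 0 ≤ C := by
      rw [hC]
      apply Multiset.prod_nonneg
      intro x hx
      obtain ⟨z, _, rfl⟩ := Multiset.mem_map.1 hx
      exact norm_nonneg _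
    have hBC : ‖B‖ = C := by
      rw [hB, hC]
      simp only [Multiset.map_id']
      have := map_multiset_prod (normHom (α := ℂ)) s
      simpa using this
    have e : (a + w) * A - a * B = (a + w) * (A - B) + w * B := by ring
    rw [e]
    have h1 : ‖a + w‖ ≤ (1 + η) * ‖a‖ := by
      refine (norm_add_le _ _).trans ?_
      linarith
    have h2 : 0 ≤ (1 + η) ^ Multiset.card s - 1 := by
      have : (1 : ℝ) ≤ (1 + η) ^ Multiset.card s := one_le_pow₀ (by linarith)
      linarith
    have h3 : ‖(a + w) * (A - B)‖ ≤ ((1 + η) * ‖a‖) * (((1 + η) ^ Multiset.card s - 1) * C) := by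
      rw [norm_mul]
      exact mul_le_mul h1 ih' (norm_nonneg _) (by positivity)
    have h4 : ‖w * B‖ ≤ (η * ‖a‖) * C := by
      rw [norm_mul, hBC]
      exact mul_le_mul_of_nonneg_right ha hC0
    refine (norm_add_le _ _).trans ((add_le_add h3 h4).trans (le_of_eq ?_))
    rw [pow_succ]
    ring

/-- few integers are close to a point -/
lemma near_card (x R : ℝ) (N : ℕ) : ((Finset.Icc 1 N).filter (fun n : ℕ => |(n : ℝ) - x| < R)).card ≤
    ⌈2 * R⌉₊ + 1 := by
  classical
  set S := (Finset.Icc 1 N).filter (fun n : ℕ => |(n : ℝ) - x| < R) with hS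
  rcases S.eq_empty_or_nonempty with h | h
  · rw [h]; simp
  · obtain ⟨m, hm, hmin⟩ := Finset.exists_min_image S id h
    have hsub : S ⊆ Finset.Icc m (m + ⌈2 * R⌉₊) := by
      intro n hn
      have h1 := hmin n hn
      simp only [id] at h1
      rw [Finset.mem_Icc]
      refine ⟨h1, ?_⟩
      have h2 := (Finset.mem_filter.1 hn).2
      have h3 := (Finset.mem_filter.1 hm).2
      rw [abs_lt] at h2 h3
      have h4 : (n : ℝ) < m + 2 * R := by linarith [h2.2, h3.1]
      have h5 : (n : ℝ) < m + (⌈2 * R⌉₊ : ℕ) := h4.trans_le (by linarith [Nat.le_ceil (2 * R)])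
      exact_mod_cast h5.le
    refine (Finset.card_le_card hsub).trans ?_
    rw [Nat.card_Icc]
    omega

/-- **polynomials are nearly constant on short windows away from their roots** -/
lemma poly_stable (d B : ℕ) (δ : ℝ) (hδ : 0 < δ) : ∃ M : ℕ, ∀ P : ℝ[X], P ≠ 0 → P.natDegree ≤ d →
    ∀ N : ℕ, ((Finset.Icc 1 N).filter (fun n : ℕ => P.eval (n : ℝ) = 0 ∨
      ∃ i ∈ Finset.range B, δ * |P.eval (n : ℝ)| < |P.eval ((n : ℝ) + i) - P.eval (n : ℝ)|)).card ≤
      M := by
  classical
  -- the parameter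
  obtain ⟨η, hη0, hη⟩ : ∃ η : ℝ, 0 < η ∧ (1 + η) ^ d - 1 ≤ δ := by
    have hc : Filter.Tendsto (fun η : ℝ => (1 + η) ^ d - 1) (nhds 0) (nhds 0) := by
      have : Continuous fun η : ℝ => (1 + η) ^ d - 1 := by fun_prop
      have h := this.tendsto 0
      simpa using h
    have h1 := hc.eventually_lt_const hδ
    rw [Metric.eventually_nhds_iff] at h1
    obtain ⟨ε, hε, h2⟩ := h1
    refine ⟨ε / 2, by positivity, (h2 ?_).le⟩
    rw [Real.dist_eq, sub_zero, abs_of_pos (by positivity)]
    linarith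
  obtain ⟨R, hR⟩ : ∃ R : ℝ, R = B / η + 1 := ⟨_, rfl⟩
  have hR0 : 0 < R := by rw [hR]; positivity
  refine ⟨d * (⌈2 * R⌉₊ + 1), fun P hP hd N => ?_⟩
  set Q : ℂ[X] := P.map (algebraMap ℝ ℂ) with hQ
  have hQ0 : Q ≠ 0 := (Polynomial.map_ne_zero_iff (algebraMap ℝ ℂ).injective).2 hP
  have hcard : Multiset.card Q.roots ≤ d := by
    refine (Polynomial.card_roots' Q).trans ?_
    rw [hQ, Polynomial.natDegree_map]
    exact hd
  have heval : ∀ x : ℝ, ((P.eval x : ℝ) : ℂ) = Q.leadingCoeff *
      (Q.roots.map fun ρ => (x : ℂ) - ρ).prod := by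
    intro x
    have h1 : Q.Splits := IsAlgClosed.splits Q
    have h2 := h1.eval_eq_prod_roots (x : ℂ)
    rw [← h2, hQ]
    have : ((P.eval x : ℝ) : ℂ) = (P.map (algebraMap ℝ ℂ)).eval (algebraMap ℝ ℂ x) := by
      rw [Polynomial.eval_map_apply]
      rfl
    rw [this]
    rfl
  have hsub : (Finset.Icc 1 N).filter (fun n : ℕ => P.eval (n : ℝ) = 0 ∨
      ∃ i ∈ Finset.range B, δ * |P.eval (n : ℝ)| < |P.eval ((n : ℝ) + i) - P.eval (n : ℝ)|) ⊆
      Q.roots.toFinset.biUnion (fun ρ => (Finset.Icc 1 N).filter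
        (fun n : ℕ => |(n : ℝ) - ρ.re| < R)) := by
    intro n hn
    rw [Finset.mem_filter] at hn
    rw [Finset.mem_biUnion]
    by_contra hcon
    push Not at hcon
    have hfar : ∀ ρ ∈ Q.roots, R ≤ ‖(n : ℂ) - ρ‖ := by
      intro ρ hρ
      have h1 := hcon ρ (Multiset.mem_toFinset.2 hρ)
      rw [Finset.mem_filter, not_and, not_lt] at h1
      have h2 := h1 hn.1
      have h3 : |((n : ℂ) - ρ).re| ≤ ‖(n : ℂ) - ρ‖ := Complex.abs_re_le_norm _
      have h4 : ((n : ℂ) - ρ).re = (n : ℝ) - ρ.re := by simp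
      rw [h4] at h3
      exact h2.trans h3
    rcases hn.2 with h0 | ⟨i, hi, hlt⟩
    · have h1 := heval n
      rw [h0, Complex.ofReal_zero] at h1
      have h2 := mul_eq_zero.1 h1.symm
      rcases h2 with h2 | h2
      · exact hQ0 (Polynomial.leadingCoeff_eq_zero.1 h2)
      · rw [Multiset.prod_eq_zero_iff, Multiset.mem_map] at h2
        obtain ⟨ρ, hρ, h3⟩ := h2
        have h4 := hfar ρ hρ
        rw [Complex.ofReal_natCast] at h3
        rw [h3, norm_zero] at h4
        linarith
    · rw [Finset.mem_range] at hi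
      have e1 := heval n
      have e2 := heval ((n : ℝ) + i)
      have h1 := prod_pert η hη0.le (i : ℂ) (Q.roots.map fun ρ => ((n : ℂ)) - ρ) (by
        intro z hz
        obtain ⟨ρ, hρ, rfl⟩ := Multiset.mem_map.1 hz
        have h2 := hfar ρ hρ
        rw [Complex.norm_natCast]
        have h3 : (i : ℝ) ≤ B := by exact_mod_cast hi.le
        have h4 : (B : ℝ) ≤ η * R := by
          rw [hR]
          have : η * (B / η + 1) = B + η := by field_simp
          rw [this]; linarith
        calc (i : ℝ) ≤ η * R := h3.trans h4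
          _ ≤ η * ‖(n : ℂ) - ρ‖ := mul_le_mul_of_nonneg_left h2 hη0.le)
      rw [Multiset.map_map, Multiset.map_map, Multiset.map_map, Multiset.card_map] at h1
      have e3 : (Q.roots.map ((fun z => z + (i : ℂ)) ∘ fun ρ => (n : ℂ) - ρ)).prod =
          (Q.roots.map fun ρ => (((n : ℝ) + i : ℝ) : ℂ) - ρ).prod := by
        congr 1
        apply Multiset.map_congr rfl
        intro ρ _
        simp only [Function.comp]
        push_cast
        ring
      have e4 : (Q.roots.map ((fun z => z) ∘ fun ρ => (n : ℂ) - ρ)).prod =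
          (Q.roots.map fun ρ => ((n : ℝ) : ℂ) - ρ).prod := by
        congr 1
      have e5 : (Q.roots.map ((fun z => ‖z‖) ∘ fun ρ => (n : ℂ) - ρ)).prod =
          ‖(Q.roots.map fun ρ => ((n : ℝ) : ℂ) - ρ).prod‖ := by
        have := map_multiset_prod (normHom (α := ℂ)) (Q.roots.map fun ρ => ((n : ℝ) : ℂ) - ρ)
        rw [Multiset.map_map] at this
        exact this.symm
      rw [e3, e4, e5] at h1
      have h2 : |P.eval ((n : ℝ) + i) - P.eval (n : ℝ)| ≤ δ * |P.eval (n : ℝ)| := by
        have h3 : |P.eval ((n : ℝ) + i) - P.eval (n : ℝ)| =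
            ‖((P.eval ((n : ℝ) + i) : ℝ) : ℂ) - ((P.eval (n : ℝ) : ℝ) : ℂ)‖ := by
          rw [← Complex.ofReal_sub, Complex.norm_real, Real.norm_eq_abs]
        have h4 : |P.eval (n : ℝ)| = ‖((P.eval (n : ℝ) : ℝ) : ℂ)‖ := by
          rw [Complex.norm_real, Real.norm_eq_abs]
        rw [h3, h4, e1, e2, ← mul_sub, norm_mul, norm_mul]
        have h5 : (1 + η) ^ Multiset.card Q.roots - 1 ≤ δ := by
          have : (1 + η) ^ Multiset.card Q.roots ≤ (1 + η) ^ d :=
            pow_le_pow_right₀ (by linarith) hcard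
          linarith
        calc ‖Q.leadingCoeff‖ * ‖(Q.roots.map fun ρ => (((n : ℝ) + i : ℝ) : ℂ) - ρ).prod -
              (Q.roots.map fun ρ => ((n : ℝ) : ℂ) - ρ).prod‖ ≤
              ‖Q.leadingCoeff‖ * (((1 + η) ^ Multiset.card Q.roots - 1) *
              ‖(Q.roots.map fun ρ => ((n : ℝ) : ℂ) - ρ).prod‖) :=
                mul_le_mul_of_nonneg_left h1 (norm_nonneg _)
          _ ≤ ‖Q.leadingCoeff‖ * (δ * ‖(Q.roots.map fun ρ => ((n : ℝ) : ℂ) - ρ).prod‖) := by
              gcongr
          _ = _ := by ring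
      linarith
  refine (Finset.card_le_card hsub).trans (Finset.card_biUnion_le.trans ?_)
  refine (Finset.sum_le_sum fun ρ _ => near_card ρ.re R N).trans ?_
  rw [Finset.sum_const, smul_eq_mul]
  apply Nat.mul_le_mul_right
  exact (Multiset.toFinset_card_le _).trans hcard

end Pool.Agent.V7H6.NR
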