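import Pool.Agent.V7H6.NR.Ord
import Pool.Agent.V7H6.NR.Roots

/-! # Relations with polynomial coefficients among consecutive ordinates -/

set_option autoImplicit false

namespace Pool.Agent.V7H6.NR

open Filter Topology MeasureTheory Set Polynomial
open SP (RHs)
open SG (NZ ord)
open LG.CU (del)

/-- lower bound for the logarithms of most ordinates -/
lemma log_low (θ : ℝ) (hθ : 0 < θ) : ∃ n2 : ℕ, ∀ᶠ N : ℕ in atTop, (Nat.sqrt N + n2 : ℝ) ≤ θ * N ∧
    ∀ n : ℕ, Nat.sqrt N + n2 ≤ n → Real.log N / 12 ≤ Real.log (ord n / (2 * Real.pi)) := by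
  obtain ⟨A, hA, hcube⟩ := Pool.Agent.TH800.LD.n_le_cube
  obtain ⟨n2, hn2⟩ := (SG.ord_tendsto.eventually_ge_atTop A).exists_forall_of_atTop
  refine ⟨n2 + 1, ?_⟩
  have hpi := Real.pi_pos
  have hpi4 := Real.pi_lt_four
  have h1 : ∀ᶠ N : ℕ in atTop, (n2 : ℝ) + 1 ≤ θ / 2 * N :=
    (tendsto_natCast_atTop_atTop.const_mul_atTop
      (show (0 : ℝ) < θ / 2 by positivity)).eventually_ge_atTop _
  have h2 : ∀ᶠ N : ℕ in atTop, 4 / θ ^ 2 ≤ (N : ℝ) := tendsto_natCast_atTop_atTop.eventually_ge_atTop _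
  have h3 : ∀ᶠ N : ℕ in atTop, (36 : ℝ) ≤ Real.log N :=
    (Real.tendsto_log_atTop.comp tendsto_natCast_atTop_atTop).eventually_ge_atTop _
  filter_upwards [h1, h2, h3, eventually_ge_atTop 1] with N a1 a2 a3 a4
  have hN1 : (1 : ℝ) ≤ N := by exact_mod_cast a4
  constructor
  · have h4 : (Nat.sqrt N : ℝ) ≤ Real.sqrt N := Real.nat_sqrt_le_real_sqrt
    have h5 : Real.sqrt N ≤ θ / 2 * N := by
      rw [Real.sqrt_le_left (by positivity)]
      rw [div_le_iff₀ (by positivity)] at a2
      nlinarith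
    push_cast
    linarith
  · intro n hn
    have hn1 : 1 ≤ n := by omega
    have h4 : A ≤ ord n := hn2 n (by omega)
    have h5 := hcube n hn1 h4
    have hpos : 0 < ord n := by linarith
    have h6 : (N : ℝ) ≤ (n : ℝ) ^ 2 := by
      have h7 : N < (Nat.sqrt N + 1) * (Nat.sqrt N + 1) := Nat.lt_succ_sqrt N
      have h8 : Nat.sqrt N + 1 ≤ n := by omega
      have h9 : N ≤ n ^ 2 := by nlinarith
      exact_mod_cast h9
    have h7 : (N : ℝ) ≤ ord n ^ 6 := by
      have h8 : (0 : ℝ) ≤ n := Nat.cast_nonneg n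
      calc (N : ℝ) ≤ (n : ℝ) ^ 2 := h6
        _ ≤ (ord n ^ 3) ^ 2 := pow_le_pow_left₀ h8 h5 2
        _ = _ := by ring
    have h8 := Real.log_le_log (by linarith) h7
    rw [Real.log_pow] at h8
    push_cast at h8
    rw [Real.log_div hpos.ne' (by positivity)]
    have h9 : Real.log (2 * Real.pi) ≤ 3 := by
      have a6 : Real.log (2 * Real.pi) ≤ Real.log (2 ^ 3) := by
        apply Real.log_le_log (by positivity)
        norm_num
        linarith
      rw [Real.log_pow] at a6
      push_cast at a6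
      linarith [Real.log_two_lt_d9]
    linarith

open Classical in
/-- **relations with polynomial coefficients** -/
theorem main_poly (hRH : RHs) (k d : ℕ) (θ : ℝ) (hθ : 0 < θ) : ∃ (B : ℕ) (ε : ℝ), 0 < ε ∧
    ∀ᶠ N : ℕ in atTop, ∀ (p : ℕ → ℝ[X]) (q : ℝ[X]), (∀ j ≤ k, (p j).natDegree ≤ d) →
      q.natDegree ≤ d → (∃ j ≤ k, p j ≠ 0) →
      (((Finset.Icc 1 N).filter (fun n => ∀ i < B,
        |∑ j ∈ Finset.range (k + 1), (p j).eval ((n + i : ℕ) : ℝ) * ord (n + i + j) -
          q.eval ((n + i : ℕ) : ℝ)| < ε / Real.log N *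
            ∑ j ∈ Finset.range (k + 1), |(p j).eval ((n + i : ℕ) : ℝ)|)).card : ℝ) ≤ θ * N := by
  obtain ⟨B, ε, hε, hord⟩ := main_ord hRH k d (θ / 5) (by positivity)
  set F : ℕ := B + k + 1 with hF
  obtain ⟨K, hK, htight⟩ := tight_run hRH F (θ / 5) (by positivity)
  obtain ⟨n1, hn1⟩ := near F 1
  obtain ⟨n2, hlow⟩ := log_low (θ / 5) (by positivity)
  have hpi := Real.pi_pos
  obtain ⟨G, hG⟩ : ∃ G : ℝ, G = F * (24 * Real.pi * K) := ⟨_, rfl⟩
  have hG0 : 0 ≤ G := by rw [hG]; positivity
  obtain ⟨δ, hδ0, hδ1, hδ2⟩ : ∃ δ : ℝ, 0 < δ ∧ δ ≤ 1 ∧ (k + 1) * (δ * G) ≤ ε / 4 := by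
    refine ⟨min 1 (ε / 4 / ((k + 1) * (G + 1))), lt_min one_pos (by positivity), min_le_left _ _, ?_⟩
    have h1 : min 1 (ε / 4 / ((k + 1) * (G + 1))) ≤ ε / 4 / ((k + 1) * (G + 1)) := min_le_right _ _
    calc (k + 1) * (min 1 (ε / 4 / ((k + 1) * (G + 1))) * G) ≤
        (k + 1) * (ε / 4 / ((k + 1) * (G + 1)) * (G + 1)) := by
          apply mul_le_mul_of_nonneg_left _ (by positivity)
          exact mul_le_mul h1 (by linarith) hG0 (by positivity)
      _ = ε / 4 := by field_simp
  obtain ⟨M, hM⟩ := poly_stable d B δ hδ0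
  refine ⟨B, ε / (4 * (k + 1)), by positivity, ?_⟩
  have hbig : ∀ᶠ N : ℕ in atTop, (n1 : ℝ) ≤ θ / 10 * N :=
    (tendsto_natCast_atTop_atTop.const_mul_atTop
      (show (0 : ℝ) < θ / 10 by positivity)).eventually_ge_atTop _
  have hbig2 : ∀ᶠ N : ℕ in atTop, (((k + 1) * M : ℕ) : ℝ) ≤ θ / 10 * N :=
    (tendsto_natCast_atTop_atTop.const_mul_atTop
      (show (0 : ℝ) < θ / 10 by positivity)).eventually_ge_atTop _
  filter_upwards [hord, htight, hbig, hbig2, hlow, eventually_ge_atTop 3] with N hN1 hN2 hN3 hN4 hN5 hN6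
  intro p q hp hq hne
  have hNR : (3 : ℝ) ≤ N := by exact_mod_cast hN6
  have hlogN : 0 < Real.log N := Real.log_pos (by linarith)
  set E1 := (Finset.Icc 1 N).filter (fun n => ∃ (c : ℕ → ℝ) (P : Polynomial ℝ),
      (∃ j ≤ k, 1 ≤ |c j|) ∧ P.natDegree ≤ d ∧
      ∀ i < B, |∑ j ∈ Finset.range (k + 1), c j * ord (n + i + j) - P.eval (i : ℝ)| <
        ε / Real.log N) with hE1
  set E2 := (Finset.Icc 1 N).filter (fun n => ∃ f ∈ Finset.range F, K < |del (n + f)|) with hE2
  set E3 := ((Finset.range (k + 1)).filter (fun j => p j ≠ 0)).biUnion (fun j =>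
    (Finset.Icc 1 N).filter (fun n : ℕ => (p j).eval (n : ℝ) = 0 ∨
      ∃ i ∈ Finset.range B, δ * |(p j).eval (n : ℝ)| <
        |(p j).eval ((n : ℝ) + i) - (p j).eval (n : ℝ)|)) with hE3
  have hcard3 : E3.card ≤ (k + 1) * M := by
    refine Finset.card_biUnion_le.trans ?_
    refine (Finset.sum_le_sum (g := fun _ => M) fun j hj => ?_).trans ?_
    · rw [Finset.mem_filter, Finset.mem_range] at hj
      exact hM (p j) hj.2 (hp j (by omega)) N
    · rw [Finset.sum_const, smul_eq_mul]
      apply Nat.mul_le_mul_right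
      exact (Finset.card_filter_le _ _).trans (by rw [Finset.card_range])
  have hsub : (Finset.Icc 1 N).filter (fun n => ∀ i < B,
        |∑ j ∈ Finset.range (k + 1), (p j).eval ((n + i : ℕ) : ℝ) * ord (n + i + j) -
          q.eval ((n + i : ℕ) : ℝ)| < ε / (4 * (k + 1)) / Real.log N *
            ∑ j ∈ Finset.range (k + 1), |(p j).eval ((n + i : ℕ) : ℝ)|) ⊆
      (Finset.Icc 1 (max n1 (Nat.sqrt N + n2)) ∪ E1) ∪ (E2 ∪ E3) := by
    intro n hn
    rw [Finset.mem_filter] at hn
    obtain ⟨hnI, hbad⟩ := hn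
    rw [Finset.mem_union, Finset.mem_union, Finset.mem_union]
    by_contra hcon
    rw [not_or, not_or, not_or] at hcon
    obtain ⟨⟨c1, c2⟩, c3, c4⟩ := hcon
    have hnI' := Finset.mem_Icc.1 hnI
    have hnn : max n1 (Nat.sqrt N + n2) ≤ n := by
      by_contra hc
      exact c1 (Finset.mem_Icc.2 ⟨hnI'.1, by omega⟩)
    obtain ⟨b1, b2, b3, b4, b5⟩ := hn1 n ((le_max_left _ _).trans hnn)
    have hlogn := hN5.2 n ((le_max_right _ _).trans hnn)
    have hdel : ∀ f < F, |del (n + f)| ≤ K := by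
      intro f hf
      by_contra hc
      exact c3 (Finset.mem_filter.2 ⟨hnI, f, Finset.mem_range.2 hf, not_le.1 hc⟩)
    -- the gaps
    have hgap : ∀ f ≤ F, 0 ≤ ord (n + f) - ord n ∧ ord (n + f) - ord n ≤
        f * (24 * Real.pi * K / Real.log N) := by
      intro f
      induction f with
      | zero => intro _; simp
      | succ f ih =>
        intro hf
        obtain ⟨i1, i2⟩ := ih (by omega)
        have hfF : f < F := by omega
        have h1 := gap_near b1 one_pos b3 b4 (b5 f hfF).1 (b5 f hfF).2 (hdel f hfF)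
        have h2 : (ord (n + f + 1) - ord (n + f)) * (Real.log N / 12) ≤ 2 * Real.pi * K :=
          (mul_le_mul_of_nonneg_left hlogn h1.1).trans h1.2.1
        have h3 : ord (n + f + 1) - ord (n + f) ≤ 24 * Real.pi * K / Real.log N := by
          rw [le_div_iff₀ hlogN]
          linarith
        rw [show n + (f + 1) = n + f + 1 by ring]
        push_cast
        constructor
        · linarith [h1.1]
        · linarith
    have hgapG : ∀ f ≤ F, |ord (n + f) - ord n| ≤ G / Real.log N := by
      intro f hf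
      obtain ⟨i1, i2⟩ := hgap f hf
      rw [abs_of_nonneg i1]
      refine i2.trans ?_
      have h1 : (f : ℝ) ≤ F := by exact_mod_cast hf
      calc (f : ℝ) * (24 * Real.pi * K / Real.log N) ≤ F * (24 * Real.pi * K / Real.log N) :=
            mul_le_mul_of_nonneg_right h1 (by positivity)
        _ = G / Real.log N := by rw [hG]; ring
    -- the coefficients
    have hst : ∀ j ≤ k, ∀ i < B, |(p j).eval ((n : ℝ) + i) - (p j).eval (n : ℝ)| ≤
        δ * |(p j).eval (n : ℝ)| := by
      intro j hj i hi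
      by_cases hpj : p j = 0
      · rw [hpj]; simp
      · by_contra hc
        apply c4
        rw [hE3, Finset.mem_biUnion]
        refine ⟨j, Finset.mem_filter.2 ⟨Finset.mem_range.2 (by omega), hpj⟩,
          Finset.mem_filter.2 ⟨hnI, Or.inr ⟨i, Finset.mem_range.2 hi, not_le.1 hc⟩⟩⟩
    obtain ⟨js, hjs, hpjs⟩ := hne
    have hnz : (p js).eval (n : ℝ) ≠ 0 := by
      intro h0
      apply c4
      rw [hE3, Finset.mem_biUnion]
      exact ⟨js, Finset.mem_filter.2 ⟨Finset.mem_range.2 (by omega), hpjs⟩,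
        Finset.mem_filter.2 ⟨hnI, Or.inl h0⟩⟩
    obtain ⟨j0, hj0, hmax⟩ := Finset.exists_max_image (Finset.range (k + 1))
      (fun j => |(p j).eval (n : ℝ)|) ⟨0, Finset.mem_range.mpr (by omega)⟩
    rw [Finset.mem_range] at hj0
    obtain ⟨C, hCd⟩ : ∃ C : ℝ, C = |(p j0).eval (n : ℝ)| := ⟨_, rfl⟩
    have hC0 : 0 < C := by
      rw [hCd]
      exact (abs_pos.2 hnz).trans_le (hmax js (Finset.mem_range.mpr (by omega)))
    have hCj : ∀ j ≤ k, |(p j).eval (n : ℝ)| ≤ C := fun j hj => by
      rw [hCd]; exact hmax j (Finset.mem_range.mpr (by omega))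
    apply c2
    rw [hE1, Finset.mem_filter]
    refine ⟨hnI, fun j => (p j).eval (n : ℝ) / C, Polynomial.C (1 / C) *
      (q.comp (X + Polynomial.C (n : ℝ)) - Polynomial.C (ord n) *
        ∑ j ∈ Finset.range (k + 1), ((p j).comp (X + Polynomial.C (n : ℝ)) -
          Polynomial.C ((p j).eval (n : ℝ)))), ⟨j0, by omega, ?_⟩, ?_, ?_⟩
    · show 1 ≤ |(p j0).eval (n : ℝ) / C|
      rw [abs_div, abs_of_pos hC0, ← hCd, div_self hC0.ne']
    · have hcomp : ∀ r : ℝ[X], r.natDegree ≤ d → (r.comp (X + Polynomial.C (n : ℝ))).natDegree ≤ d := by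
        intro r hr
        refine (Polynomial.natDegree_comp_le).trans ?_
        rw [Polynomial.natDegree_X_add_C, mul_one]
        exact hr
      refine (Polynomial.natDegree_C_mul_le _ _).trans ((Polynomial.natDegree_sub_le _ _).trans ?_)
      apply max_le (hcomp q hq)
      refine (Polynomial.natDegree_C_mul_le _ _).trans ?_
      apply Polynomial.natDegree_sum_le_of_forall_le
      intro j hj
      rw [Finset.mem_range] at hj
      refine (Polynomial.natDegree_sub_le _ _).trans (max_le (hcomp _ (hp j (by omega))) ?_)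
      rw [Polynomial.natDegree_C]
      omega
    · intro i hi
      have hb := hbad i hi
      have hcast : ((n + i : ℕ) : ℝ) = (n : ℝ) + i := by push_cast; ring
      rw [hcast] at hb
      have hev : (Polynomial.C (1 / C) * (q.comp (X + Polynomial.C (n : ℝ)) - Polynomial.C (ord n) *
          ∑ j ∈ Finset.range (k + 1), ((p j).comp (X + Polynomial.C (n : ℝ)) -
          Polynomial.C ((p j).eval (n : ℝ))))).eval (i : ℝ) = 1 / C * (q.eval ((n : ℝ) + i) -
          ord n * ∑ j ∈ Finset.range (k + 1), ((p j).eval ((n : ℝ) + i) - (p j).eval (n : ℝ))) := by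
        simp only [Polynomial.eval_mul, Polynomial.eval_C, Polynomial.eval_sub,
          Polynomial.eval_comp, Polynomial.eval_add, Polynomial.eval_X, Polynomial.eval_finsetSum]
        rw [add_comm (i : ℝ) (n : ℝ)]
      rw [hev]
      have e1 : ∑ j ∈ Finset.range (k + 1), (p j).eval (n : ℝ) / C * ord (n + i + j) -
          1 / C * (q.eval ((n : ℝ) + i) - ord n * ∑ j ∈ Finset.range (k + 1),
            ((p j).eval ((n : ℝ) + i) - (p j).eval (n : ℝ))) =
          1 / C * ((∑ j ∈ Finset.range (k + 1), (p j).eval ((n : ℝ) + i) * ord (n + i + j) -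
            q.eval ((n : ℝ) + i)) - ∑ j ∈ Finset.range (k + 1),
            ((p j).eval ((n : ℝ) + i) - (p j).eval (n : ℝ)) * (ord (n + i + j) - ord n)) := by
        have e2 : ∑ j ∈ Finset.range (k + 1), (p j).eval (n : ℝ) / C * ord (n + i + j) =
            1 / C * ∑ j ∈ Finset.range (k + 1), (p j).eval (n : ℝ) * ord (n + i + j) := by
          rw [Finset.mul_sum]
          refine Finset.sum_congr rfl fun j _ => by ring
        have e3 : ∑ j ∈ Finset.range (k + 1),
            ((p j).eval ((n : ℝ) + i) - (p j).eval (n : ℝ)) * (ord (n + i + j) - ord n) =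
            ∑ j ∈ Finset.range (k + 1), (p j).eval ((n : ℝ) + i) * ord (n + i + j) -
            ∑ j ∈ Finset.range (k + 1), (p j).eval (n : ℝ) * ord (n + i + j) -
            ord n * ∑ j ∈ Finset.range (k + 1),
              ((p j).eval ((n : ℝ) + i) - (p j).eval (n : ℝ)) := by
          rw [Finset.mul_sum, ← Finset.sum_sub_distrib, ← Finset.sum_sub_distrib]
          refine Finset.sum_congr rfl fun j _ => by ring
        rw [e2, e3]
        ring
      rw [e1, abs_mul, abs_of_pos (by positivity)]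
      have h1 : ∑ j ∈ Finset.range (k + 1), |(p j).eval ((n : ℝ) + i)| ≤ (k + 1) * (2 * C) := by
        have h2 : ∀ j ∈ Finset.range (k + 1), |(p j).eval ((n : ℝ) + i)| ≤ 2 * C := by
          intro j hj
          rw [Finset.mem_range] at hj
          have h3 := hst j (by omega) i hi
          have h4 := hCj j (by omega)
          have h5 : |(p j).eval ((n : ℝ) + i)| ≤ |(p j).eval ((n : ℝ) + i) - (p j).eval (n : ℝ)| +
            |(p j).eval (n : ℝ)| := by
            have := abs_add_le ((p j).eval ((n : ℝ) + i) - (p j).eval (n : ℝ)) ((p j).eval (n : ℝ))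
            rwa [sub_add_cancel] at this
          have h6 : δ * |(p j).eval (n : ℝ)| ≤ 1 * C :=
            mul_le_mul hδ1 h4 (abs_nonneg _) zero_le_one
          linarith
        refine (Finset.sum_le_sum h2).trans (le_of_eq ?_)
        rw [Finset.sum_const, Finset.card_range, nsmul_eq_mul]
        push_cast
        ring
      have h2 : |∑ j ∈ Finset.range (k + 1),
            ((p j).eval ((n : ℝ) + i) - (p j).eval (n : ℝ)) * (ord (n + i + j) - ord n)| ≤
          (k + 1) * (δ * C * (G / Real.log N)) := by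
        refine (Finset.abs_sum_le_sum_abs _ _).trans ?_
        have h3 : ∀ j ∈ Finset.range (k + 1), |((p j).eval ((n : ℝ) + i) - (p j).eval (n : ℝ)) *
            (ord (n + i + j) - ord n)| ≤ δ * C * (G / Real.log N) := by
          intro j hj
          rw [Finset.mem_range] at hj
          rw [abs_mul, add_assoc]
          have h4 := hst j (by omega) i hi
          have h5 := hgapG (i + j) (by omega)
          apply mul_le_mul (h4.trans (mul_le_mul_of_nonneg_left (hCj j (by omega)) hδ0.le)) h5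
            (abs_nonneg _) (by positivity)
        refine (Finset.sum_le_sum h3).trans (le_of_eq ?_)
        rw [Finset.sum_const, Finset.card_range, nsmul_eq_mul]
        push_cast
        ring
      have h3 : |∑ j ∈ Finset.range (k + 1), (p j).eval ((n : ℝ) + i) * ord (n + i + j) -
            q.eval ((n : ℝ) + i)| ≤ ε / 2 / Real.log N * C := by
        refine hb.le.trans ?_
        calc ε / (4 * (k + 1)) / Real.log N *
            ∑ j ∈ Finset.range (k + 1), |(p j).eval ((n : ℝ) + i)| ≤
            ε / (4 * (k + 1)) / Real.log N * ((k + 1) * (2 * C)) :=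
              mul_le_mul_of_nonneg_left h1 (by positivity)
          _ = ε / 2 / Real.log N * C := by field_simp; ring
      have h4 : (k + 1) * (δ * C * (G / Real.log N)) ≤ ε / 4 / Real.log N * C := by
        have e : (k + 1) * (δ * C * (G / Real.log N)) = ((k + 1) * (δ * G)) / Real.log N * C := by
          ring
        rw [e]
        gcongr
      calc 1 / C * |(∑ j ∈ Finset.range (k + 1), (p j).eval ((n : ℝ) + i) * ord (n + i + j) -
            q.eval ((n : ℝ) + i)) - ∑ j ∈ Finset.range (k + 1),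
            ((p j).eval ((n : ℝ) + i) - (p j).eval (n : ℝ)) * (ord (n + i + j) - ord n)| ≤
            1 / C * (ε / 2 / Real.log N * C + ε / 4 / Real.log N * C) := by
              apply mul_le_mul_of_nonneg_left _ (by positivity)
              exact (abs_sub _ _).trans (add_le_add h3 (h2.trans h4))
        _ = 3 / 4 * (ε / Real.log N) := by field_simp; ring
        _ < ε / Real.log N := by
            have : 0 < ε / Real.log N := by positivity
            linarith
  have h1 := (Finset.card_le_card hsub).trans (Finset.card_union_le _ _)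
  have h2 := Finset.card_union_le (Finset.Icc 1 (max n1 (Nat.sqrt N + n2))) E1
  have h3 := Finset.card_union_le E2 E3
  rw [Nat.card_Icc, Nat.add_sub_cancel] at h2
  have h4 : max n1 (Nat.sqrt N + n2) ≤ n1 + (Nat.sqrt N + n2) := by omega
  have h5 : (((Finset.Icc 1 N).filter (fun n => ∀ i < B,
        |∑ j ∈ Finset.range (k + 1), (p j).eval ((n + i : ℕ) : ℝ) * ord (n + i + j) -
          q.eval ((n + i : ℕ) : ℝ)| < ε / (4 * (k + 1)) / Real.log N *
            ∑ j ∈ Finset.range (k + 1), |(p j).eval ((n + i : ℕ) : ℝ)|)).card) ≤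
      n1 + (Nat.sqrt N + n2) + E1.card + (E2.card + (k + 1) * M) := by
    omega
  have h6 : ((((Finset.Icc 1 N).filter (fun n => ∀ i < B,
        |∑ j ∈ Finset.range (k + 1), (p j).eval ((n + i : ℕ) : ℝ) * ord (n + i + j) -
          q.eval ((n + i : ℕ) : ℝ)| < ε / (4 * (k + 1)) / Real.log N *
            ∑ j ∈ Finset.range (k + 1), |(p j).eval ((n + i : ℕ) : ℝ)|)).card : ℕ) : ℝ) ≤
      n1 + (Nat.sqrt N + n2) + E1.card + (E2.card + (((k + 1) * M : ℕ) : ℝ)) := by
    exact_mod_cast h5
  linarith [hN5.1]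

open Classical in
/-- **a positive proportion of the indices** -/
theorem main_prop (hRH : RHs) (k d : ℕ) : ∃ (ρ ε : ℝ), 0 < ρ ∧ 0 < ε ∧
    ∀ᶠ N : ℕ in atTop, ∀ (p : ℕ → ℝ[X]) (q : ℝ[X]), (∀ j ≤ k, (p j).natDegree ≤ d) →
      q.natDegree ≤ d → (∃ j ≤ k, p j ≠ 0) →
      ρ * N ≤ (((Finset.Icc 1 N).filter (fun n : ℕ => ε / Real.log N *
        ∑ j ∈ Finset.range (k + 1), |(p j).eval (n : ℝ)| ≤
          |∑ j ∈ Finset.range (k + 1), (p j).eval (n : ℝ) * ord (n + j) - q.eval (n : ℝ)|)).card : ℝ) := by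
  obtain ⟨B, ε, hε, h⟩ := main_poly hRH k d (1 / 2) (by norm_num)
  refine ⟨1 / (4 * (B + 1)), ε, by positivity, hε, ?_⟩
  filter_upwards [h, eventually_ge_atTop (4 * B + 4)] with N hN hNB
  intro p q hp hq hne
  have h1 := hN p q hp hq hne
  set Bad := (Finset.Icc 1 N).filter (fun n => ∀ i < B,
        |∑ j ∈ Finset.range (k + 1), (p j).eval ((n + i : ℕ) : ℝ) * ord (n + i + j) -
          q.eval ((n + i : ℕ) : ℝ)| < ε / Real.log N *
            ∑ j ∈ Finset.range (k + 1), |(p j).eval ((n + i : ℕ) : ℝ)|) with hBad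
  set Good := (Finset.Icc 1 N).filter (fun n : ℕ => ε / Real.log N *
        ∑ j ∈ Finset.range (k + 1), |(p j).eval (n : ℝ)| ≤
          |∑ j ∈ Finset.range (k + 1), (p j).eval (n : ℝ) * ord (n + j) - q.eval (n : ℝ)|) with hGood
  have hsub : Finset.Icc 1 (N - B) ⊆ Bad ∪ (Finset.range B).biUnion (fun i =>
      (Finset.Icc 1 (N - B)).filter (fun n => n + i ∈ Good)) := by
    intro n hn
    have hn' := Finset.mem_Icc.1 hn
    rw [Finset.mem_union]
    by_cases hb : n ∈ Bad
    · exact Or.inl hb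
    · right
      rw [hBad, Finset.mem_filter, not_and] at hb
      have h2 := hb (Finset.mem_Icc.2 ⟨hn'.1, by omega⟩)
      push Not at h2
      obtain ⟨i, hi, h3⟩ := h2
      rw [Finset.mem_biUnion]
      refine ⟨i, Finset.mem_range.2 hi, Finset.mem_filter.2 ⟨hn, ?_⟩⟩
      rw [hGood, Finset.mem_filter, Finset.mem_Icc]
      exact ⟨⟨by omega, by omega⟩, h3⟩
  have h2 := (Finset.card_le_card hsub).trans (Finset.card_union_le _ _)
  rw [Nat.card_Icc, Nat.add_sub_cancel] at h2
  have h3 : ((Finset.range B).biUnion (fun i =>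
      (Finset.Icc 1 (N - B)).filter (fun n => n + i ∈ Good))).card ≤ B * Good.card := by
    refine Finset.card_biUnion_le.trans ?_
    refine (Finset.sum_le_sum (g := fun _ => Good.card) fun i _ => ?_).trans ?_
    · apply Finset.card_le_card_of_injOn (fun n => n + i)
      · intro n hn
        exact (Finset.mem_filter.1 hn).2
      · intro a _ b _ hab
        exact Nat.add_right_cancel hab
    · rw [Finset.sum_const, smul_eq_mul, Finset.card_range]
  have h4 : N ≤ B + Bad.card + B * Good.card := by omega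
  have h5 : (N : ℝ) ≤ B + Bad.card + B * Good.card := by exact_mod_cast h4
  have h6 : (4 * B + 4 : ℝ) ≤ N := by exact_mod_cast hNB
  have hG : (0 : ℝ) ≤ Good.card := Nat.cast_nonneg _
  rw [one_div_mul_eq_div, div_le_iff₀ (by positivity)]
  nlinarith

end Pool.Agent.V7H6.NR
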