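import Pool.Agent.TH850.UV.Kern

/-! # The smooth and the sharp count of points in a window -/

set_option autoImplicit false

namespace Pool.Agent.V7H6.NR

open MeasureTheory Set Pool.Agent.TH850.UV

lemma qk_cont0 : Continuous (qk 0) := by
  exact KernAux.cont_y 0

/-- the integral of the kernel over a window -/
lemma win_int {b : ℝ} (hb : 0 < b) (x h : ℝ) :
    ∫ τ in (0 : ℝ)..h, b * qk 0 ((x - τ) * b) = Qk 0 (x * b) - Qk 0 ((x - h) * b) := by
  have h1 := intervalIntegral.integral_comp_sub_mul (a := 0) (b := h) (fun y => qk 0 y) hb.ne'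
    (x * b)
  have h2 : ∀ τ : ℝ, (x - τ) * b = x * b - b * τ := fun τ => by ring
  simp_rw [intervalIntegral.integral_const_mul, h2]
  rw [h1, smul_eq_mul, ← mul_assoc, mul_inv_cancel₀ hb.ne', one_mul]
  unfold Qk
  have i := fun a c : ℝ => qk_cont0.intervalIntegrable (μ := volume) a c
  have h3 := intervalIntegral.integral_interval_sub_left (i 0 (x * b)) (i 0 (x * b - b * h))
  rw [mul_zero, sub_zero]
  linarith

/-- comparison for one point -/
theorem sharp : ∃ C : ℝ, 0 < C ∧ ∀ b : ℝ, 0 < b → ∀ x h : ℝ, 0 ≤ h →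
    h / b * (2 + 2 * (h * b) ^ 2) ≤ 1 →
    |(∫ τ in (0 : ℝ)..h, b * (Real.exp (-(x - τ) ^ 2 / 2) * qk 0 ((x - τ) * b))) -
      (if 0 < x ∧ x ≤ h then 1 else 0)| ≤
      C * (1 / (1 + (x * b) ^ 2) + 1 / (1 + ((x - h) * b) ^ 2)) := by
  obtain ⟨C1, hC1, hJ⟩ := Jk_le
  obtain ⟨C2, hC2, hq⟩ := qk_decay
  refine ⟨C1 + C2, by positivity, fun b hb x h hh hsm => ?_⟩
  have hJ' : ∀ y : ℝ, |Jk 0 y| ≤ C1 * (1 / (1 + y ^ 2)) := by
    intro y
    have := hJ 0 y
    simp only [abs_zero, mul_zero, Real.exp_zero, mul_one] at this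
    rw [mul_one_div]
    exact this
  have hq' : ∀ y : ℝ, |qk 0 y| ≤ C2 * (1 / (1 + y ^ 2) ^ 2) := by
    intro y
    have := hq 0 y
    simp only [abs_zero, mul_zero, Real.exp_zero, mul_one] at this
    rw [mul_one_div]
    exact this
  have hc1 : Continuous fun τ : ℝ => b * (Real.exp (-(x - τ) ^ 2 / 2) * qk 0 ((x - τ) * b)) := by
    have := qk_cont0
    fun_prop
  have hc2 : Continuous fun τ : ℝ => b * qk 0 ((x - τ) * b) := by
    have := qk_cont0
    fun_prop
  have hx0 : 0 < 1 + (x * b) ^ 2 := by positivity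
  -- the Gaussian factor
  have e1 : |(∫ τ in (0 : ℝ)..h, b * (Real.exp (-(x - τ) ^ 2 / 2) * qk 0 ((x - τ) * b))) -
      ∫ τ in (0 : ℝ)..h, b * qk 0 ((x - τ) * b)| ≤ C2 * (1 / (1 + (x * b) ^ 2)) := by
    rw [← intervalIntegral.integral_sub (hc1.intervalIntegrable _ _) (hc2.intervalIntegrable _ _)]
    have hpt : ∀ τ ∈ Set.uIoc 0 h, ‖b * (Real.exp (-(x - τ) ^ 2 / 2) * qk 0 ((x - τ) * b)) -
        b * qk 0 ((x - τ) * b)‖ ≤ C2 / b * ((2 + 2 * (h * b) ^ 2) * (1 / (1 + (x * b) ^ 2))) := by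
      intro τ hτ
      rw [Set.uIoc_of_le hh] at hτ
      obtain ⟨u, hu⟩ : ∃ u, u = x - τ := ⟨_, rfl⟩
      rw [← hu, Real.norm_eq_abs]
      have h1 : b * (Real.exp (-u ^ 2 / 2) * qk 0 (u * b)) - b * qk 0 (u * b) =
          -(b * (1 - Real.exp (-u ^ 2 / 2)) * qk 0 (u * b)) := by ring
      have h2 : 0 ≤ 1 - Real.exp (-u ^ 2 / 2) := by
        have : Real.exp (-u ^ 2 / 2) ≤ 1 := Real.exp_le_one_iff.2 (by nlinarith [sq_nonneg u])
        linarith
      have h3 : 1 - Real.exp (-u ^ 2 / 2) ≤ u ^ 2 / 2 := by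
        have := Real.add_one_le_exp (-u ^ 2 / 2)
        linarith
      rw [h1, abs_neg, abs_mul, abs_of_nonneg (mul_nonneg hb.le h2)]
      have hub0 : 0 < 1 + (u * b) ^ 2 := by positivity
      have h4 : b * (1 - Real.exp (-u ^ 2 / 2)) * |qk 0 (u * b)| ≤
          b * (u ^ 2 / 2) * (C2 * (1 / (1 + (u * b) ^ 2) ^ 2)) := by
        apply mul_le_mul (mul_le_mul_of_nonneg_left h3 hb.le) (hq' _) (abs_nonneg _)
        positivity
      refine h4.trans ?_
      have h5 : b * (u ^ 2 / 2) * (C2 * (1 / (1 + (u * b) ^ 2) ^ 2)) ≤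
          C2 / b * (1 / (1 + (u * b) ^ 2)) := by
        have e : b * (u ^ 2 / 2) * (C2 * (1 / (1 + (u * b) ^ 2) ^ 2)) =
            C2 / b * ((u * b) ^ 2 / 2 / (1 + (u * b) ^ 2) ^ 2) := by
          field_simp
        rw [e]
        apply mul_le_mul_of_nonneg_left _ (by positivity)
        rw [div_le_div_iff₀ (by positivity) hub0]
        nlinarith [sq_nonneg (u * b), sq_nonneg ((u * b) ^ 2)]
      refine h5.trans ?_
      apply mul_le_mul_of_nonneg_left _ (by positivity)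
      rw [mul_one_div, div_le_div_iff₀ hub0 hx0, one_mul]
      have h6 : (x * b) ^ 2 ≤ 2 * (u * b) ^ 2 + 2 * (h * b) ^ 2 := by
        have h7 : x = u + τ := by rw [hu]; ring
        have h8 : τ ^ 2 ≤ h ^ 2 := pow_le_pow_left₀ hτ.1.le hτ.2 2
        have h9 : (u + τ) ^ 2 ≤ 2 * u ^ 2 + 2 * h ^ 2 := by nlinarith [sq_nonneg (u - τ)]
        rw [h7]
        calc ((u + τ) * b) ^ 2 = (u + τ) ^ 2 * b ^ 2 := by ring
          _ ≤ (2 * u ^ 2 + 2 * h ^ 2) * b ^ 2 := mul_le_mul_of_nonneg_right h9 (sq_nonneg b)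
          _ = _ := by ring
      nlinarith [sq_nonneg (u * b), sq_nonneg (h * b), mul_nonneg (sq_nonneg (h * b))
        (sq_nonneg (u * b))]
    have h7 := intervalIntegral.norm_integral_le_of_norm_le_const hpt
    rw [Real.norm_eq_abs, sub_zero, abs_of_nonneg hh] at h7
    refine h7.trans ?_
    calc C2 / b * ((2 + 2 * (h * b) ^ 2) * (1 / (1 + (x * b) ^ 2))) * h
        = (h / b * (2 + 2 * (h * b) ^ 2)) * (C2 * (1 / (1 + (x * b) ^ 2))) := by ring
      _ ≤ 1 * (C2 * (1 / (1 + (x * b) ^ 2))) := by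
          apply mul_le_mul_of_nonneg_right hsm
          positivity
      _ = _ := one_mul _
  -- the kernel
  have e2 : |(∫ τ in (0 : ℝ)..h, b * qk 0 ((x - τ) * b)) - (if 0 < x ∧ x ≤ h then 1 else 0)| ≤
      C1 * (1 / (1 + (x * b) ^ 2)) + C1 * (1 / (1 + ((x - h) * b) ^ 2)) := by
    rw [win_int hb]
    have h1 : Qk 0 (x * b) = Jk 0 (x * b) + if 0 < x then 1 else 0 := by
      unfold Jk
      have : (0 < x * b) ↔ 0 < x := by
        constructor
        · intro hx1; exact (mul_pos_iff_of_pos_right hb).1 hx1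
        · intro hx1; positivity
      simp only [this]
      ring
    have h2 : Qk 0 ((x - h) * b) = Jk 0 ((x - h) * b) + if h < x then 1 else 0 := by
      unfold Jk
      have : (0 < (x - h) * b) ↔ h < x := by
        constructor
        · intro hx1
          have := (mul_pos_iff_of_pos_right hb).1 hx1
          linarith
        · intro hx1
          have : 0 < x - h := by linarith
          positivity
      simp only [this]
      ring
    have h3 : (if 0 < x then (1 : ℝ) else 0) - (if h < x then 1 else 0) =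
        if 0 < x ∧ x ≤ h then 1 else 0 := by
      by_cases hx : 0 < x
      · by_cases hxh : h < x
        · rw [if_pos hx, if_pos hxh, if_neg (by rintro ⟨_, h2⟩; linarith)]; ring
        · rw [if_pos hx, if_neg hxh, if_pos ⟨hx, not_lt.1 hxh⟩]; ring
      · rw [if_neg hx, if_neg (by intro h2; linarith), if_neg (by rintro ⟨h2, _⟩; exact hx h2)]
        ring
    rw [h1, h2, ← h3]
    have h4 := hJ' (x * b)
    have h5 := hJ' ((x - h) * b)
    have e : Jk 0 (x * b) + (if 0 < x then (1 : ℝ) else 0) -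
        (Jk 0 ((x - h) * b) + if h < x then 1 else 0) -
        ((if 0 < x then 1 else 0) - if h < x then 1 else 0) =
        Jk 0 (x * b) - Jk 0 ((x - h) * b) := by ring
    rw [e]
    exact (abs_sub _ _).trans (add_le_add h4 h5)
  have e3 : 0 ≤ C2 * (1 / (1 + ((x - h) * b) ^ 2)) := by positivity
  calc _ ≤ |(∫ τ in (0 : ℝ)..h, b * (Real.exp (-(x - τ) ^ 2 / 2) * qk 0 ((x - τ) * b))) -
      ∫ τ in (0 : ℝ)..h, b * qk 0 ((x - τ) * b)| +
      |(∫ τ in (0 : ℝ)..h, b * qk 0 ((x - τ) * b)) - (if 0 < x ∧ x ≤ h then 1 else 0)| :=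
        abs_sub_le _ _ _
    _ ≤ _ := by
        have := add_le_add e1 e2
        refine this.trans ?_
        have e4 : (C1 + C2) * (1 / (1 + (x * b) ^ 2) + 1 / (1 + ((x - h) * b) ^ 2)) =
          C2 * (1 / (1 + (x * b) ^ 2)) + (C1 * (1 / (1 + (x * b) ^ 2)) +
            C1 * (1 / (1 + ((x - h) * b) ^ 2))) + C2 * (1 / (1 + ((x - h) * b) ^ 2)) := by ring
        rw [e4]
        linarith

/-- comparison for a finite weighted set of points -/
theorem sharp_sum : ∃ C : ℝ, 0 < C ∧ ∀ (S : Finset ℂ) (w : ℂ → ℝ), (∀ s, 0 ≤ w s) → ∀ b : ℝ,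
    0 < b → ∀ t h : ℝ, 0 ≤ h → h / b * (2 + 2 * (h * b) ^ 2) ≤ 1 →
    |(∫ τ in t..(t + h), b * ∑ s ∈ S, w s * (Real.exp (-(s.im - τ) ^ 2 / 2) *
      qk 0 ((s.im - τ) * b))) - ∑ s ∈ S with t < s.im ∧ s.im ≤ t + h, w s| ≤
      C * ((∑ s ∈ S, w s / (1 + ((s.im - t) * b) ^ 2)) +
        ∑ s ∈ S, w s / (1 + ((s.im - (t + h)) * b) ^ 2)) := by
  obtain ⟨C, hC, hs⟩ := sharp
  refine ⟨C, hC, fun S w hw b hb t h hh hsm => ?_⟩
  have h1 : ∫ τ in t..(t + h), b * ∑ s ∈ S, w s * (Real.exp (-(s.im - τ) ^ 2 / 2) *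
      qk 0 ((s.im - τ) * b)) = ∑ s ∈ S, w s * ∫ τ in (0 : ℝ)..h, b *
        (Real.exp (-((s.im - t) - τ) ^ 2 / 2) * qk 0 (((s.im - t) - τ) * b)) := by
    have h2 : ∀ τ : ℝ, b * ∑ s ∈ S, w s * (Real.exp (-(s.im - τ) ^ 2 / 2) *
      qk 0 ((s.im - τ) * b)) = ∑ s ∈ S, w s * (b * (Real.exp (-(s.im - τ) ^ 2 / 2) *
      qk 0 ((s.im - τ) * b))) := by
      intro τ
      rw [Finset.mul_sum]
      refine Finset.sum_congr rfl fun s _ => ?_
      ring
    simp_rw [h2]
    have hcs : ∀ s : ℂ, Continuous fun τ : ℝ => b * (Real.exp (-(s.im - τ) ^ 2 / 2) *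
        qk 0 ((s.im - τ) * b)) := by
      intro s
      have := qk_cont0
      fun_prop
    rw [intervalIntegral.integral_finsetSum fun s _ =>
      ((hcs s).const_mul (w s)).intervalIntegrable _ _]
    refine Finset.sum_congr rfl fun s _ => ?_
    rw [intervalIntegral.integral_const_mul]
    congr 1
    have h3 := intervalIntegral.integral_comp_add_left (a := 0) (b := h) (fun τ => b *
      (Real.exp (-(s.im - τ) ^ 2 / 2) * qk 0 ((s.im - τ) * b))) t
    rw [add_zero] at h3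
    rw [← h3]
    refine intervalIntegral.integral_congr fun τ _ => ?_
    show b * (Real.exp (-(s.im - (t + τ)) ^ 2 / 2) * qk 0 ((s.im - (t + τ)) * b)) = _
    rw [show s.im - (t + τ) = s.im - t - τ by ring]
  rw [h1, Finset.sum_filter, ← Finset.sum_sub_distrib, ← Finset.sum_add_distrib, Finset.mul_sum]
  refine (Finset.abs_sum_le_sum_abs _ _).trans (Finset.sum_le_sum fun s _ => ?_)
  have h2 := hs b hb (s.im - t) h hh hsm
  have h3 : (if t < s.im ∧ s.im ≤ t + h then w s else 0) = w s *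
      (if 0 < s.im - t ∧ s.im - t ≤ h then 1 else 0) := by
    by_cases hc : t < s.im ∧ s.im ≤ t + h
    · rw [if_pos hc, if_pos ⟨by linarith [hc.1], by linarith [hc.2]⟩, mul_one]
    · rw [if_neg hc, if_neg (by rintro ⟨h1, h2⟩; exact hc ⟨by linarith, by linarith⟩), mul_zero]
  rw [h3, ← mul_sub, abs_mul, abs_of_nonneg (hw s)]
  refine (mul_le_mul_of_nonneg_left h2 (hw s)).trans (le_of_eq ?_)
  rw [show s.im - (t + h) = s.im - t - h by ring]
  ring

end Pool.Agent.V7H6.NR
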