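import Pool.Agent.V7H6.NR.Anc

/-! # The number of zeros in a window is not concentrated -/

set_option autoImplicit false

namespace Pool.Agent.V7H6.NR

open Complex Filter Topology MeasureTheory Set
open Pool.Agent.TH850.UV
open SP (RHs)
open SG (NZ)

/-- Chebyshev's inequality -/
lemma cheb (μ : Measure ℝ) {f : ℝ → ℝ} (hf : Integrable (fun t => f t ^ 2) μ) {c A : ℝ} (hc : 0 < c)
    (hA : ∫ t, f t ^ 2 ∂μ ≤ A) : μ {t | c ≤ |f t|} ≤ ENNReal.ofReal (A / c ^ 2) := by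
  have h1 := mul_meas_ge_le_integral_of_nonneg (μ := μ) (f := fun t => f t ^ 2)
    (Eventually.of_forall fun t => sq_nonneg _) hf (c ^ 2)
  have hset : {t | c ≤ |f t|} = {t | c ^ 2 ≤ f t ^ 2} := by
    ext t
    simp only [Set.mem_ofPred_eq]
    rw [← sq_abs (f t)]
    exact (pow_le_pow_iff_left₀ hc.le (abs_nonneg _) (by norm_num)).symm
  rw [hset]
  have hfin : μ {t | c ^ 2 ≤ f t ^ 2} ≠ ⊤ := by
    have h2 := meas_ge_le_lintegral_div (μ := μ) (f := fun t => ENNReal.ofReal (f t ^ 2))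
      (hf.aestronglyMeasurable.aemeasurable.ennreal_ofReal)
      (ε := ENNReal.ofReal (c ^ 2)) (by simp [hc.ne']) ENNReal.ofReal_ne_top
    have h3 : {t | ENNReal.ofReal (c ^ 2) ≤ ENNReal.ofReal (f t ^ 2)} = {t | c ^ 2 ≤ f t ^ 2} := by
      ext t
      simp only [Set.mem_ofPred_eq]
      exact ENNReal.ofReal_le_ofReal_iff (sq_nonneg _)
    rw [h3] at h2
    refine (h2.trans_lt ?_).ne
    apply ENNReal.div_lt_top _ (by simp [hc.ne'])
    have h4 := hf.lintegral_lt_top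
    exact h4.ne
  rw [← ENNReal.ofReal_toReal hfin]
  apply ENNReal.ofReal_le_ofReal
  rw [le_div_iff₀ (by positivity), mul_comm]
  exact h1.trans hA

/-- the remainder of the prime sum -/
noncomputable def Pr0 (r : ℕ) (T t : ℝ) : ℝ := (∑ n ∈ Finset.Icc 2 (XT T),
  kr (Real.log T / 16) (hw r T) (Xr r T) n * (n : ℂ) ^ (-(t : ℂ) * I)).re

lemma Pr0_cont (r : ℕ) (T : ℝ) : Continuous (Pr0 r T) := by
  unfold Pr0
  refine Complex.continuous_re.comp (continuous_finsetSum _ fun n hn => ?_)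
  have hn0 : (n : ℂ) ≠ 0 := by
    exact_mod_cast (by have := (Finset.mem_Icc.1 hn).1; omega : n ≠ 0)
  exact continuous_const.mul (Continuous.const_cpow (by fun_prop) (Or.inl hn0))

lemma kr_norm {l : ℝ} (hl : 0 < l) (h : ℝ) (X n : ℕ) (hn : 2 ≤ n) : ‖kr l h X n‖ ≤ 1 := by
  unfold kr
  split_ifs
  · simp
  · exact kap_le hl h n hn

/-- the mean square of the remainder -/
lemma Pr0_sq : ∃ C : ℝ, 0 < C ∧ ∀ r : ℕ, 16 ≤ r → ∃ T0 : ℝ, 10 ≤ T0 ∧ ∀ T : ℝ, T0 ≤ T →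
    ∀ V1 V2 : ℝ, T ≤ V1 → V1 ≤ V2 → V2 ≤ 2 * T →
    ∫ t in V1..V2, Pr0 r T t ^ 2 ≤ C * (1 + Real.log (mur r)) * T := by
  obtain ⟨C, hC, hsz⟩ := sizes
  refine ⟨C + 5, by positivity, fun r hr => ?_⟩
  obtain ⟨T0, hT0, h⟩ := hsz r hr
  refine ⟨T0, hT0, fun T hT V1 V2 hV1 hV hV2 => ?_⟩
  obtain ⟨h1, h2, h3, h4⟩ := h T hT
  have hT10 := hT0.trans hT
  have hTpos : 0 < T := by linarith
  have hl : 0 < Real.log T / 16 := div_pos (Real.log_pos (by linarith)) (by norm_num)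
  have hmu1 : 0 ≤ Real.log (mur r) := by
    apply Real.log_nonneg
    have := mur_ge (r := r) (by omega)
    linarith
  have hd := dpm (XT T) (kr (Real.log T / 16) (hw r T) (Xr r T)) V1 V2 hV
  have hXle : (XT T : ℝ) ≤ T ^ (1 / 8 : ℝ) := Nat.floor_le (by positivity)
  have hl1 : ∑ n ∈ Finset.Icc 2 (XT T), ‖kr (Real.log T / 16) (hw r T) (Xr r T) n‖ ≤ XT T := by
    calc ∑ n ∈ Finset.Icc 2 (XT T), ‖kr (Real.log T / 16) (hw r T) (Xr r T) n‖ ≤
        ∑ n ∈ Finset.Icc 2 (XT T), (1 : ℝ) :=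
          Finset.sum_le_sum fun n hn => kr_norm hl _ _ n (Finset.mem_Icc.1 hn).1
      _ ≤ XT T := by
          rw [Finset.sum_const, nsmul_eq_mul, mul_one, Nat.card_Icc]
          exact_mod_cast (by omega : XT T + 1 - 2 ≤ XT T)
  have hl10 : 0 ≤ ∑ n ∈ Finset.Icc 2 (XT T), ‖kr (Real.log T / 16) (hw r T) (Xr r T) n‖ :=
    Finset.sum_nonneg fun n _ => norm_nonneg _
  have herr : 4 * (XT T : ℝ) *
      (∑ n ∈ Finset.Icc 2 (XT T), ‖kr (Real.log T / 16) (hw r T) (Xr r T) n‖) ^ 2 ≤ 4 * T := by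
    have hX0 : (0 : ℝ) ≤ XT T := Nat.cast_nonneg _
    calc 4 * (XT T : ℝ) *
      (∑ n ∈ Finset.Icc 2 (XT T), ‖kr (Real.log T / 16) (hw r T) (Xr r T) n‖) ^ 2 ≤
          4 * (XT T : ℝ) * (XT T : ℝ) ^ 2 := by gcongr
      _ = 4 * (XT T : ℝ) ^ 3 := by ring
      _ ≤ 4 * (T ^ (1 / 8 : ℝ)) ^ 3 := by gcongr
      _ = 4 * T ^ (3 / 8 : ℝ) := by
          rw [← Real.rpow_natCast, ← Real.rpow_mul hTpos.le]; norm_num
      _ ≤ 4 * T ^ (1 : ℝ) := by
          apply mul_le_mul_of_nonneg_left _ (by norm_num)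
          exact Real.rpow_le_rpow_of_exponent_le (by linarith) (by norm_num)
      _ = 4 * T := by rw [Real.rpow_one]
  have hd2 := (abs_le.1 (hd.trans herr)).2
  have hS0 : 0 ≤ ∑ n ∈ Finset.Icc 2 (XT T), ‖kr (Real.log T / 16) (hw r T) (Xr r T) n‖ ^ 2 :=
    Finset.sum_nonneg fun n _ => sq_nonneg _
  have h5 : (V2 - V1) / 2 * ∑ n ∈ Finset.Icc 2 (XT T),
      ‖kr (Real.log T / 16) (hw r T) (Xr r T) n‖ ^ 2 ≤ T * (Real.log (mur r) + C) := by
    apply mul_le_mul (by linarith) h3 hS0 hTpos.le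
  have h6 : ∫ t in V1..V2, Pr0 r T t ^ 2 = ∫ t in V1..V2, ((∑ n ∈ Finset.Icc 2 (XT T),
      kr (Real.log T / 16) (hw r T) (Xr r T) n * (n : ℂ) ^ (-(t : ℂ) * I)).re) ^ 2 := rfl
  rw [h6]
  have h7 : 0 ≤ C * Real.log (mur r) * T := by positivity
  have h8 : 0 ≤ Real.log (mur r) * T := by positivity
  nlinarith

/-- **the number of zeros in a window is not concentrated** -/
theorem blockT (hRH : RHs) (K θ : ℝ) (hK : 0 ≤ K) (hθ : 0 < θ) : ∃ R0 : ℕ, ∀ r : ℕ, R0 ≤ r →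
    ∃ T0 : ℝ, 10 ≤ T0 ∧ ∀ T : ℝ, T0 ≤ T →
      volume {t ∈ Set.Icc (T + Real.log T) (2 * T - Real.log T - 1) |
        |(NZ (t + hw r T) : ℝ) - NZ t - r| ≤ K} ≤ ENNReal.ofReal (θ * T) := by
  obtain ⟨C1, hC1, hpw⟩ := pointwise hRH
  obtain ⟨C2, T2, hC2, hT2, hF⟩ := FF_sq hRH
  obtain ⟨C3, hC3, hP⟩ := Pr0_sq
  -- the parameter `M`
  obtain ⟨M, hM0, hM1, hM2⟩ : ∃ M : ℝ, 0 < M ∧ 4 * (K + 1) ≤ M ∧
      16 * (2 * C1 ^ 2 * C2 + C3) / (θ / 2) ≤ M ^ 2 := by
    obtain ⟨M, hM⟩ : ∃ M : ℝ, max (max 1 (4 * (K + 1)))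
      (16 * (2 * C1 ^ 2 * C2 + C3) / (θ / 2)) ≤ M := ⟨_, le_rfl⟩
    have h1 : 1 ≤ M := ((le_max_left _ _).trans (le_max_left _ _)).trans hM
    have h2 : 4 * (K + 1) ≤ M := ((le_max_right _ _).trans (le_max_left _ _)).trans hM
    have h3 := (le_max_right _ _).trans hM
    exact ⟨M, by linarith, h2, by nlinarith⟩
  obtain ⟨R0, hG⟩ := anti_G M (θ / 2) hM0 (by positivity)
  refine ⟨max R0 16, fun r hr => ?_⟩
  have hr16 : 16 ≤ r := (le_max_right _ _).trans hr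
  obtain ⟨Ta, hTa⟩ := hG r ((le_max_left _ _).trans hr)
  obtain ⟨Tb, hTb10, hTb⟩ := hpw r
  obtain ⟨Tc, hTc10, hTc⟩ := hP r hr16
  obtain ⟨Td, hTd⟩ : ∃ Td : ℝ, ∀ T : ℝ, Td ≤ T → 8 * (r : ℝ) ≤ Real.log T ∧
      T + Real.log T ≤ 2 * T - Real.log T - 1 := by
    have h3 : (fun T : ℝ => 2 * Real.log T + 1) =o[atTop] fun T : ℝ => T :=
      (Real.isLittleO_log_id_atTop.const_mul_left 2).add (Asymptotics.isLittleO_const_id_atTop 1)
    have h4 := h3.bound (c := 1) one_pos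
    have h5 : ∀ᶠ T : ℝ in atTop, 8 * (r : ℝ) ≤ Real.log T ∧
        T + Real.log T ≤ 2 * T - Real.log T - 1 := by
      filter_upwards [h4, eventually_ge_atTop 1,
        Real.tendsto_log_atTop.eventually_ge_atTop (8 * (r : ℝ))] with T hT' hT1 hT3
      rw [one_mul, Real.norm_of_nonneg (by linarith : (0 : ℝ) ≤ T)] at hT'
      exact ⟨hT3, by have := (le_abs_self _).trans hT'; linarith⟩
    exact h5.exists_forall_of_atTop
  refine ⟨max (max T2 Ta) (max (max Tb Tc) Td), hT2.trans ((le_max_left _ _).trans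
    (le_max_left _ _)), fun T hT => ?_⟩
  have hT2' : T2 ≤ T := ((le_max_left _ _).trans (le_max_left _ _)).trans hT
  have hTa' : Ta ≤ T := ((le_max_right _ _).trans (le_max_left _ _)).trans hT
  have hTb' : Tb ≤ T := (((le_max_left _ _).trans (le_max_left _ _)).trans (le_max_right _ _)).trans hT
  have hTc' : Tc ≤ T := (((le_max_right _ _).trans (le_max_left _ _)).trans (le_max_right _ _)).trans hT
  have hTd' : Td ≤ T := ((le_max_right _ _).trans (le_max_right _ _)).trans hT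
  obtain ⟨g1, g2⟩ := hTd T hTd'
  have hT10 : 10 ≤ T := hT2.trans hT2'
  have hTpos : 0 < T := by linarith
  set L := Real.log T with hL
  have hL1 : 1 ≤ L := by
    rw [hL, Real.le_log_iff_exp_le (by linarith)]
    have := Real.exp_one_lt_d9
    linarith
  have hL0 : 0 < L := by linarith
  set h := hw r T with hh
  have hh' : h = 2 * Real.pi * r / L := rfl
  have hpi := Real.pi_pos
  have hpi4 := Real.pi_lt_four
  have hr0 : (0 : ℝ) ≤ r := Nat.cast_nonneg r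
  have hh0 : 0 ≤ h := by rw [hh']; positivity
  have hh1 : h ≤ 1 := by
    rw [hh', div_le_one hL0]
    nlinarith
  have hmu1 : 0 ≤ Real.log (mur r) := by
    apply Real.log_nonneg
    have := mur_ge (r := r) (by omega)
    linarith
  set m := 1 + Real.log (mur r) with hm
  have hm1 : 1 ≤ m := by linarith
  have hm0 : 0 < m := by linarith
  set Y := M * Real.sqrt m with hY
  have hsm : 1 ≤ Real.sqrt m := by rw [Real.one_le_sqrt]; exact hm1
  have hYM : M ≤ Y := by rw [hY]; nlinarith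
  have hY0 : 0 < Y := by linarith
  have hY2 : Y ^ 2 = M ^ 2 * m := by rw [hY, mul_pow, Real.sq_sqrt hm0.le]
  set J := Set.Icc (T + L) (2 * T - L - 1) with hJ
  obtain ⟨hFi, hFs⟩ := hF T hT2'
  -- the four sets
  set E1 : Set ℝ := {t | |(Gm r T (t + h / 2)).re| < Y} ∩ J with hE1
  set E2 : Set ℝ := {t | Y / 4 ≤ |C1 * FF T t|} with hE2
  set E3 : Set ℝ := {t | Y / 4 ≤ |C1 * FF T (t + h)|} with hE3
  set E4 : Set ℝ := {t | Y / 4 ≤ |Pr0 r T t|} ∩ J with hE4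
  have hsub : {t ∈ J | |(NZ (t + h) : ℝ) - NZ t - r| ≤ K} ⊆ (E1 ∪ E2) ∪ (E3 ∪ E4) := by
    rintro t ⟨htJ, htK⟩
    by_contra hcon
    rw [Set.mem_union, Set.mem_union, Set.mem_union, not_or, not_or, not_or] at hcon
    obtain ⟨⟨c1, c2⟩, c3, c4⟩ := hcon
    have c1' : Y ≤ |(Gm r T (t + h / 2)).re| := by
      by_contra hc
      exact c1 ⟨not_le.1 hc, htJ⟩
    have c4' : |Pr0 r T t| < Y / 4 := by
      by_contra hc
      exact c4 ⟨not_lt.1 hc, htJ⟩
    have c2' : |C1 * FF T t| < Y / 4 := not_le.1 c2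
    have c3' : |C1 * FF T (t + h)| < Y / 4 := not_le.1 c3
    have h1 := hTb T hTb' t htJ.1 htJ.2
    have h2 := Db_split (L / 16) h (Xr r T) (XT T) (by
      obtain ⟨C, hC, hsz⟩ := sizes
      apply Nat.floor_le_floor
      apply Real.rpow_le_rpow_of_exponent_le (by linarith)
      exact one_div_le_one_div_of_le (by norm_num) (mur_ge (by omega))) t
    have h3 : Db (L / 16) h (XT T) t = (Gm r T (t + h / 2)).re + Pr0 r T t := h2
    rw [← hh, ← hL, h3] at h1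
    have d1 := abs_le.1 htK
    have d2 := abs_lt.1 c2'
    have d3 := abs_lt.1 c3'
    have d4 := abs_lt.1 c4'
    have d5 := abs_le.1 h1
    have d6 : C1 * (FF T t + FF T (t + h)) = C1 * FF T t + C1 * FF T (t + h) := by ring
    rw [d6] at d5
    rcases le_abs.1 c1' with hc | hc
    · linarith [d5.2]
    · linarith [d5.1]
  refine (measure_mono hsub).trans ?_
  have m1 : volume E1 ≤ ENNReal.ofReal (θ / 2 * T) := by
    have h1 := hTa T hTa'
    set G0 : Set ℝ := {t ∈ Set.Ioc T (2 * T) | |(Gm r T t).re| < Y} with hG0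
    have hfin : volume G0 ≠ ⊤ := by
      have hs : volume G0 ≤ volume (Set.Ioc T (2 * T)) := measure_mono (fun t ht => ht.1)
      refine (hs.trans_lt ?_).ne
      rw [Real.volume_Ioc]
      exact ENNReal.ofReal_lt_top
    have h2 : E1 ⊆ (fun t => t + h / 2) ⁻¹' G0 := by
      rintro t ⟨h3, h4, h5⟩
      refine ⟨⟨?_, ?_⟩, h3⟩
      · show T < t + h / 2
        linarith
      · show t + h / 2 ≤ 2 * T
        linarith
    refine (measure_mono h2).trans ?_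
    rw [measure_preimage_add_right, ← ENNReal.ofReal_toReal hfin]
    exact ENNReal.ofReal_le_ofReal h1
  have hFc : Integrable (fun t => (C1 * FF T t) ^ 2) := by
    have : (fun t => (C1 * FF T t) ^ 2) = fun t => C1 ^ 2 * FF T t ^ 2 := by
      funext t; ring
    rw [this]
    exact hFi.const_mul _
  have hFcs : ∫ t, (C1 * FF T t) ^ 2 ≤ C1 ^ 2 * (C2 * T) := by
    have : (fun t => (C1 * FF T t) ^ 2) = fun t => C1 ^ 2 * FF T t ^ 2 := by
      funext t; ring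
    rw [this, integral_const_mul]
    exact mul_le_mul_of_nonneg_left hFs (sq_nonneg _)
  have m2 : volume E2 ≤ ENNReal.ofReal (C1 ^ 2 * (C2 * T) / (Y / 4) ^ 2) :=
    cheb volume hFc (by positivity) hFcs
  have m3 : volume E3 ≤ ENNReal.ofReal (C1 ^ 2 * (C2 * T) / (Y / 4) ^ 2) := by
    have : E3 = (fun t => t + h) ⁻¹' E2 := rfl
    rw [this, measure_preimage_add_right]
    exact m2
  have m4 : volume E4 ≤ ENNReal.ofReal (C3 * m * T / (Y / 4) ^ 2) := by
    have h1 : E4 ⊆ {t | Y / 4 ≤ |Pr0 r T t|} ∩ J := Subset.rfl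
    have hmeas : MeasurableSet {t | Y / 4 ≤ |Pr0 r T t|} :=
      measurableSet_le measurable_const (Pr0_cont r T).abs.measurable
    have h2 : volume E4 = (volume.restrict J) {t | Y / 4 ≤ |Pr0 r T t|} := by
      rw [Measure.restrict_apply hmeas]
    rw [h2]
    apply cheb (volume.restrict J) _ (by positivity)
    · have h3 := hTc T hTc' (T + L) (2 * T - L - 1) (by linarith) g2 (by linarith)
      rw [intervalIntegral.integral_of_le g2, ← integral_Icc_eq_integral_Ioc] at h3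
      exact h3
    · exact ((Pr0_cont r T).pow 2).integrableOn_Icc
  have hfin : C1 ^ 2 * (C2 * T) / (Y / 4) ^ 2 + C1 ^ 2 * (C2 * T) / (Y / 4) ^ 2 +
      C3 * m * T / (Y / 4) ^ 2 ≤ θ / 2 * T := by
    have e : C1 ^ 2 * (C2 * T) / (Y / 4) ^ 2 + C1 ^ 2 * (C2 * T) / (Y / 4) ^ 2 +
      C3 * m * T / (Y / 4) ^ 2 = 16 * (2 * C1 ^ 2 * C2 + C3 * m) * T / (M ^ 2 * m) := by
      rw [← hY2]
      field_simp
      ring
    rw [e, div_le_iff₀ (by positivity)]
    rw [div_le_iff₀ (by positivity)] at hM2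
    have h1 : 16 * (2 * C1 ^ 2 * C2 + C3 * m) ≤ 16 * (2 * C1 ^ 2 * C2 + C3) * m := by
      have : 2 * C1 ^ 2 * C2 ≤ 2 * C1 ^ 2 * C2 * m := by
        have : 0 ≤ 2 * C1 ^ 2 * C2 := by positivity
        nlinarith
      nlinarith
    calc 16 * (2 * C1 ^ 2 * C2 + C3 * m) * T ≤ 16 * (2 * C1 ^ 2 * C2 + C3) * m * T :=
          mul_le_mul_of_nonneg_right h1 hTpos.le
      _ ≤ M ^ 2 * (θ / 2) * m * T := by gcongr
      _ = _ := by ring
  calc volume ((E1 ∪ E2) ∪ (E3 ∪ E4)) ≤ (volume E1 + volume E2) + (volume E3 + volume E4) :=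
        (measure_union_le _ _).trans (add_le_add (measure_union_le _ _) (measure_union_le _ _))
    _ ≤ (ENNReal.ofReal (θ / 2 * T) + ENNReal.ofReal (C1 ^ 2 * (C2 * T) / (Y / 4) ^ 2)) +
        (ENNReal.ofReal (C1 ^ 2 * (C2 * T) / (Y / 4) ^ 2) +
          ENNReal.ofReal (C3 * m * T / (Y / 4) ^ 2)) := by gcongr
    _ = ENNReal.ofReal (θ / 2 * T + C1 ^ 2 * (C2 * T) / (Y / 4) ^ 2 +
        (C1 ^ 2 * (C2 * T) / (Y / 4) ^ 2 + C3 * m * T / (Y / 4) ^ 2)) := by
        rw [ENNReal.ofReal_add (by positivity) (by positivity),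
          ENNReal.ofReal_add (by positivity) (by positivity),
          ENNReal.ofReal_add (by positivity) (by positivity)]
    _ ≤ ENNReal.ofReal (θ * T) := by
        apply ENNReal.ofReal_le_ofReal
        linarith

end Pool.Agent.V7H6.NR
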